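import Pool.Agent.H35.ZCL.Az2
import Pool.Agent.H42.S6C.Defs

/-!
# Lines in the fans of the zoom, given a visible label

If the fans of the zoom, at its exact points and at the values of a visible label, are near lines on
an event, the fans of the family at the points of resolution `r` are near lines to a higher
precision, on a large part of the event.
-/

set_option autoImplicit false

namespace Pool.S6C.Ful

open Finset Real
open Pool.Agent.H49.Ent Pool.Agent.H32.Dense Pool.STK Pool.KA Pool.KSAT Pool.K2S Pool.PB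
open Pool.S6K (ball_claim)
open Pool.ZCL (half_or zm_d)

variable {m J : ℕ}

/-- Planks of the zoom are planks of the velocities in the coordinates, with a label. -/
theorem zm_plu {κ U : Type} (F : Fam m J) {w J' r : ℕ} (h : w + J' ≤ J) {C : Crd m κ}
    (g : F.Ω → κ) {B : F.Ω → Prop} {j : ℕ} {ρ : ℝ} (y : F.Ω → U)
    (hv : ∃ φ : (Fin m → ℤ) × (ℕ × F.ζ) → Fin m → ℤ, ∀ ω, B ω → F.bvl C g ω = φ (ptr F r ω))
    (hφ : ∃ φ : (Fin m → ℤ) × (ℕ × F.ζ) → U, ∀ ω, B ω → y ω = φ (ptr F r ω))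
    (hP : PlU j ρ y (F.zm w J' h C g).d B) :
    PlU j (ρ + 1 / 2 ^ J') (ptr F r) (fun ω => C.L (g ω) (F.d ω)) B := by
  obtain ⟨φ₁, hφ₁⟩ := hv
  obtain ⟨φ, hφ⟩ := hφ
  obtain ⟨ζ, hζ⟩ := hP
  refine ⟨fun y => (fun i => (ζ (φ y)).1 i + φ₁ y i, (ζ (φ y)).2), fun ω hω => ?_⟩
  obtain ⟨c, hc⟩ := hζ ω hω
  refine ⟨c, fun i => ?_⟩
  have h1 := hc i
  rw [hφ ω hω] at h1
  have h2 := zm_d F h C g ω i
  have h3 : F.bvl C g ω i = φ₁ (ptr F r ω) i := congrFun (hφ₁ ω hω) i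
  simp only
  rw [h3] at h2
  rw [abs_le] at h1 h2 ⊢
  constructor <;> linarith [h1.1, h1.2, h2.1, h2.2]

/-- Lines in plank coordinates: lines of higher precision, or thin fans. -/
theorem spread2 (F : Fam m J) {i₀ : Fin m} {r l h : ℕ} {B : F.Ω → Prop}
    {z : F.Ω → Fin m → ℝ} {γ : (Fin m → ℤ) × (ℕ × F.ζ) → Fin m → ℝ}
    (hγ : ∀ ω, B ω → z ω = γ (ptr F r ω))
    (hvel : ∀ ω ω', B ω → B ω' → ptr F r ω = ptr F r ω' → ∀ k,
      |pco l i₀ (z ω) (F.d ω) k - pco l i₀ (z ω') (F.d ω') k| ≤ 12)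
    (hP : PlU 1 (2 / 2 ^ (2 * h)) (ptr F r) (fun ω => pco l i₀ (z ω) (F.d ω)) B) :
    ∃ B' : F.Ω → Prop, Sub B' B ∧ Pe F.p B ≤ 2 * Pe F.p B' ∧
      (LineU i₀ (4 / 2 ^ (l + h)) (ptr F r) F.d B' ∨
        ∀ ω ω', B' ω → B' ω' → ptr F r ω = ptr F r ω' →
          |F.d ω i₀ - F.d ω' i₀| ≤ 20 / 2 ^ h) := by
  classical
  have hp := F.isLaw
  have p0 : (0 : ℝ) < 2 ^ l := by positivity
  have q0 : (1 : ℝ) ≤ 2 ^ h := one_le_pow₀ (by norm_num)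
  have q0' : (0 : ℝ) < 2 ^ h := by positivity
  obtain ⟨ζ, hζ⟩ := hP
  obtain ⟨ρ, hρ⟩ : ∃ ρ : ℝ, ρ = 2 / 2 ^ (2 * h) := ⟨_, rfl⟩
  have hρh : ρ * 2 ^ h = 2 / 2 ^ h := by
    rw [hρ, two_mul, pow_add]
    field_simp
  have hρ0 : 0 ≤ ρ := by rw [hρ]; positivity
  have hρ1 : ρ ≤ 2 / 2 ^ h := by
    rw [← hρh]
    nlinarith
  have hρ2 : ρ ≤ 2 := by
    refine hρ1.trans ?_
    rw [div_le_iff₀ q0']
    nlinarith
  -- the direction of the line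
  obtain ⟨v, hv⟩ : ∃ v : (Fin m → ℤ) × (ℕ × F.ζ) → Fin m → ℝ, v = fun y => (ζ y).2 0 :=
    ⟨_, rfl⟩
  obtain ⟨s, hs⟩ : ∃ s : (Fin m → ℤ) × (ℕ × F.ζ) → Fin m → ℝ, s = fun y => (ζ y).1 := ⟨_, rfl⟩
  have hline : ∀ ω, B ω → ∃ c : ℝ, ∀ i, |pco l i₀ (z ω) (F.d ω) i - s (ptr F r ω) i -
      c * v (ptr F r ω) i| ≤ ρ := by
    intro ω hω
    obtain ⟨c, hc⟩ := hζ ω hω
    refine ⟨c 0, fun i => ?_⟩
    have h1 := hc i
    rw [Fin.sum_univ_one] at h1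
    rw [hs, hv, hρ]
    exact h1
  rcases half_or hp (A := B) (S := fun ω => B ω ∧ ∀ j, |v (ptr F r ω) j| ≤
      2 ^ h * |v (ptr F r ω) i₀|)
    (T := fun ω => B ω ∧ ∃ j, 2 ^ h * |v (ptr F r ω) i₀| < |v (ptr F r ω) j|)
    (fun ω hω => by
      by_cases hj : ∀ j, |v (ptr F r ω) j| ≤ 2 ^ h * |v (ptr F r ω) i₀|
      · exact Or.inl ⟨hω, hj⟩
      · push Not at hj
        exact Or.inr ⟨hω, hj⟩) with hS | hT
  · refine ⟨_, fun ω hω => hω.1, hS, Or.inl ?_⟩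
    obtain ⟨σ, hσ⟩ : ∃ σ : (Fin m → ℤ) × (ℕ × F.ζ) → Fin m → ℝ, σ = fun y j =>
      v y j / v y i₀ := ⟨_, rfl⟩
    refine ⟨fun y j => if j = i₀ then 1 else γ y j + σ y j / 2 ^ l,
      fun y j => if j = i₀ then 0 else (s y j - σ y j * s y i₀) / 2 ^ l, fun ω hω j => ?_⟩
    simp only
    by_cases hj : j = i₀
    · rw [if_pos hj, if_pos hj, hj]
      have : F.d ω i₀ - 1 * F.d ω i₀ - 0 = 0 := by ring
      rw [this, abs_zero]
      positivity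
    · rw [if_neg hj, if_neg hj]
      obtain ⟨c, hc⟩ := hline ω hω.1
      have c1 := hc j
      have c2 := hc i₀
      unfold pco at c1 c2
      rw [if_neg hj] at c1
      rw [if_pos rfl] at c2
      have hγω : z ω j = γ (ptr F r ω) j := congrFun (hγ ω hω.1) j
      rw [hγω] at c1
      obtain ⟨y, hy⟩ : ∃ y, y = ptr F r ω := ⟨_, rfl⟩
      have hflat := hω.2
      rw [← hy] at c1 c2 hflat ⊢
      have hσv : σ y j * v y i₀ = v y j := by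
        rw [hσ]
        simp only
        by_cases h0 : v y i₀ = 0
        · have := hflat j
          rw [h0, abs_zero, mul_zero] at this
          have h1 : v y j = 0 := abs_eq_zero.1 (le_antisymm this (abs_nonneg _))
          rw [h1, h0]
          simp
        · field_simp
      have hσ1 : |σ y j| ≤ 2 ^ h := by
        rw [hσ]
        simp only
        rw [abs_div]
        by_cases h0 : v y i₀ = 0
        · rw [h0, abs_zero, div_zero]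
          exact q0'.le
        · rw [div_le_iff₀ (abs_pos.2 h0)]
          exact hflat j
      have e1 : F.d ω j - (γ y j + σ y j / 2 ^ l) * F.d ω i₀ -
          (s y j - σ y j * s y i₀) / 2 ^ l =
          ((2 ^ l * (F.d ω j - γ y j * F.d ω i₀) - s y j - c * v y j) -
            σ y j * (F.d ω i₀ - s y i₀ - c * v y i₀)) / 2 ^ l := by
        rw [← hσv]
        field_simp
        ring
      rw [e1, abs_div, abs_of_pos p0]
      have e2 : (4 : ℝ) / 2 ^ (l + h) = 4 / 2 ^ h / 2 ^ l := by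
        rw [pow_add]
        field_simp
      rw [e2]
      refine div_le_div_of_nonneg_right ?_ p0.le
      have d1 : |σ y j * (F.d ω i₀ - s y i₀ - c * v y i₀)| ≤ 2 ^ h * ρ := by
        rw [abs_mul]
        exact mul_le_mul hσ1 c2 (abs_nonneg _) q0'.le
      have d2 : (2 : ℝ) ^ h * ρ = 2 / 2 ^ h := by rw [mul_comm]; exact hρh
      rw [d2] at d1
      have e3 : (4 : ℝ) / 2 ^ h = 2 / 2 ^ h + 2 / 2 ^ h := by ring
      rw [e3]
      exact (abs_sub _ _).trans (add_le_add (c1.trans hρ1) d1)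
  · refine ⟨_, fun ω hω => hω.1, hT, Or.inr fun ω ω₀ hω hω₀ hpt => ?_⟩
    obtain ⟨c, hc⟩ := hline ω hω.1
    obtain ⟨c₀, hc₀⟩ := hline ω₀ hω₀.1
    rw [← hpt] at hc₀
    obtain ⟨k, hk⟩ := hω.2
    have c1 := hc i₀
    have c2 := hc₀ i₀
    have c3 := hc k
    have c4 := hc₀ k
    have c5 := hvel ω ω₀ hω.1 hω₀.1 hpt k
    have c6 : pco l i₀ (z ω) (F.d ω) i₀ = F.d ω i₀ := by unfold pco; rw [if_pos rfl]
    have c7 : pco l i₀ (z ω₀) (F.d ω₀) i₀ = F.d ω₀ i₀ := by unfold pco; rw [if_pos rfl]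
    rw [c6] at c1
    rw [c7] at c2
    -- the base velocity
    have c8 : |(c - c₀) * v (ptr F r ω) k| ≤ 16 := by
      have : (c - c₀) * v (ptr F r ω) k =
          (pco l i₀ (z ω) (F.d ω) k - pco l i₀ (z ω₀) (F.d ω₀) k) -
          ((pco l i₀ (z ω) (F.d ω) k - s (ptr F r ω) k - c * v (ptr F r ω) k) -
          (pco l i₀ (z ω₀) (F.d ω₀) k - s (ptr F r ω) k - c₀ * v (ptr F r ω) k)) := by ring
      rw [this]
      rw [abs_le] at c3 c4 c5 ⊢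
      constructor <;> linarith [c3.1, c3.2, c4.1, c4.2, c5.1, c5.2]
    have c9 : |(c - c₀) * v (ptr F r ω) i₀| ≤ 16 / 2 ^ h := by
      rw [le_div_iff₀ q0', abs_mul]
      rw [abs_mul] at c8
      calc |c - c₀| * |v (ptr F r ω) i₀| * 2 ^ h =
            |c - c₀| * (2 ^ h * |v (ptr F r ω) i₀|) := by ring
        _ ≤ |c - c₀| * |v (ptr F r ω) k| :=
            mul_le_mul_of_nonneg_left hk.le (abs_nonneg _)
        _ ≤ 16 := c8
    have e1 : F.d ω i₀ - F.d ω₀ i₀ = (F.d ω i₀ - s (ptr F r ω) i₀ -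
        c * v (ptr F r ω) i₀) - (F.d ω₀ i₀ - s (ptr F r ω) i₀ -
        c₀ * v (ptr F r ω) i₀) + (c - c₀) * v (ptr F r ω) i₀ := by ring
    have e2 : (20 : ℝ) / 2 ^ h = 2 / 2 ^ h + 2 / 2 ^ h + 16 / 2 ^ h := by ring
    rw [e1, e2]
    have c1' := c1.trans hρ1
    have c2' := c2.trans hρ1
    rw [abs_le] at c1' c2' c9 ⊢
    constructor <;> linarith [c1'.1, c1'.2, c2'.1, c2'.2, c9.1, c9.2]

/-- Straight fans at exact points with nearly constant chart coordinate are thin. -/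
theorem thin_ball {F : Fam m J} {i₀ : Fin m} {h h₁ : ℕ} {r : ℕ} (hr : r ≤ J) {B : F.Ω → Prop}
    (hL : LineAt i₀ (1 / 2 ^ h₁) (Fam.pt F) F.d B)
    (hT : ∀ ω ω', B ω → B ω' → ptr F r ω = ptr F r ω' → |F.d ω i₀ - F.d ω' i₀| ≤ 20 / 2 ^ h) :
    Ball (20 / 2 ^ h + 2 / 2 ^ h₁) (Fam.pt F) F.d B := by
  classical
  obtain ⟨e, n, hf⟩ := hL
  obtain ⟨φ, hφ⟩ := ptr_coarse F hr
  have hex : ∀ y : (Fin m → ℤ) × (ℕ × F.ζ), ∃ V : Fin m → ℝ, ∀ ω, B ω → Fam.pt F ω = y →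
      ∀ j, |F.d ω j - V j| ≤ 20 / 2 ^ h + 2 / 2 ^ h₁ := by
    intro y
    by_cases hy : ∃ ω, B ω ∧ Fam.pt F ω = y
    · obtain ⟨ω₀, h0, h00⟩ := hy
      refine ⟨F.d ω₀, fun ω hω hωy j => ?_⟩
      have hpt : Fam.pt F ω = Fam.pt F ω₀ := hωy.trans h00.symm
      have hptr : ptr F r ω = ptr F r ω₀ := by
        rw [hφ, hφ]
        exact congrArg φ hpt
      have c1 := hT ω ω₀ hω h0 hptr
      have c2 := hf.line ω hω j
      have c3 := hf.line ω₀ h0 j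
      have c4 := hf.bound ω hω j
      rw [← hpt] at c3
      have c5 : |e (Fam.pt F ω) j * (F.d ω i₀ - F.d ω₀ i₀)| ≤ 20 / 2 ^ h := by
        rw [abs_mul]
        calc _ ≤ 1 * (20 / 2 ^ h : ℝ) := mul_le_mul c4 c1 (abs_nonneg _) zero_le_one
          _ = _ := one_mul _
      have e1 : F.d ω j - F.d ω₀ j = (F.d ω j - e (Fam.pt F ω) j * F.d ω i₀ -
          n (Fam.pt F ω) j) - (F.d ω₀ j - e (Fam.pt F ω) j * F.d ω₀ i₀ - n (Fam.pt F ω) j) +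
          e (Fam.pt F ω) j * (F.d ω i₀ - F.d ω₀ i₀) := by ring
      have e2 : (20 : ℝ) / 2 ^ h + 2 / 2 ^ h₁ = 1 / 2 ^ h₁ + 1 / 2 ^ h₁ + 20 / 2 ^ h := by ring
      rw [e1, e2]
      rw [abs_le] at c2 c3 c5 ⊢
      constructor <;> linarith [c2.1, c2.2, c3.1, c3.2, c5.1, c5.2]
    · exact ⟨0, fun ω hω hωy => absurd ⟨ω, hω, hωy⟩ hy⟩
  choose V hV using hex
  exact ⟨V, fun ω hω => hV _ ω hω rfl⟩

/-- **Frames of the zoom**: the data of the definition of implicit labels in boxes, without the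
label. -/
structure Zfr (F : Fam 3 J) (A : F.Ω → Prop) (i₀ : Fin 3) (r w lam J' : ℕ) (h : w + J' ≤ J)
    (g n : F.Ω → Fin 3 → ℝ) : Prop where
  fr : ∀ ω, A ω → ∀ j, |g ω j| ≤ 4 ∧ |F.d ω j - n ω j - g ω j * F.d ω i₀| ≤ 6 / 2 ^ lam
  vis : ∃ φ : (Fin 3 → ℤ) × (ℕ × F.ζ) → (Fin 3 → ℝ) × (Fin 3 → ℝ), ∀ ω, A ω →
    (g ω, n ω) = φ (Pool.KS6.ptq F r ω)
  cl : ∃ ψ : ((Fin 3 → ℝ) × (Fin 3 → ℝ)) × F.ζ × ℕ → Fin 3 → ℝ, ∀ ω, g ω = ψ (slam F w ω)
  pt : ∃ φ : (Fin 3 → ℤ) × (ℕ × F.ζ) →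
    (Fin 3 → ℤ) × (ℕ × (Fam.zm F w J' h (Box.plkC lam i₀) g).ζ), ∀ ω, A ω →
      Fam.pt (Fam.zm F w J' h (Box.plkC lam i₀) g) ω = φ (Pool.KS6.ptq F r ω)

theorem Zfr.sub {F : Fam 3 J} {A B : F.Ω → Prop} {i₀ : Fin 3} {r w lam J' : ℕ}
    {h : w + J' ≤ J} {g n : F.Ω → Fin 3 → ℝ} (hz : Zfr F A i₀ r w lam J' h g n)
    (hB : Sub B A) : Zfr F B i₀ r w lam J' h g n := by
  obtain ⟨φ, hφ⟩ := hz.vis
  obtain ⟨φ', hφ'⟩ := hz.pt
  exact ⟨fun ω hω => hz.fr ω (hB ω hω), ⟨φ, fun ω hω => hφ ω (hB ω hω)⟩, hz.cl,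
    ⟨φ', fun ω hω => hφ' ω (hB ω hω)⟩⟩

/-- The velocities in the coordinates of the frames at a point. -/
theorem Zfr.vel {F : Fam 3 J} {A : F.Ω → Prop} {i₀ : Fin 3} {r w lam J' : ℕ}
    {h : w + J' ≤ J} {g n : F.Ω → Fin 3 → ℝ} (hz : Zfr F A i₀ r w lam J' h g n) {ω ω' : F.Ω}
    (h1 : A ω) (h2 : A ω') (hpt : Pool.KS6.ptq F r ω = Pool.KS6.ptq F r ω') (k : Fin 3) :
    |pco lam i₀ (g ω) (F.d ω) k - pco lam i₀ (g ω') (F.d ω') k| ≤ 12 := by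
  obtain ⟨φ, hφ⟩ := hz.vis
  have e1 := hφ ω h1
  have e2 := hφ ω' h2
  rw [← hpt, ← e1] at e2
  have e3 : g ω' = g ω := (Prod.ext_iff.1 e2).1
  have e4 : n ω' = n ω := (Prod.ext_iff.1 e2).2
  rw [e3]
  by_cases hk : k = i₀
  · have c6 : pco lam i₀ (g ω) (F.d ω) k = F.d ω i₀ := by unfold pco; rw [if_pos hk]
    have c7 : pco lam i₀ (g ω) (F.d ω') k = F.d ω' i₀ := by unfold pco; rw [if_pos hk]
    rw [c6, c7]
    have a1 := F.dir ω i₀
    have a2 := F.dir ω' i₀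
    rw [abs_le] at a1 a2 ⊢
    constructor <;> linarith [a1.1, a1.2, a2.1, a2.2]
  · have c6 : pco lam i₀ (g ω) (F.d ω) k = 2 ^ lam * (F.d ω k - g ω k * F.d ω i₀) := by
      unfold pco; rw [if_neg hk]
    have c7 : pco lam i₀ (g ω) (F.d ω') k = 2 ^ lam * (F.d ω' k - g ω k * F.d ω' i₀) := by
      unfold pco; rw [if_neg hk]
    rw [c6, c7]
    have a1 := (hz.fr ω h1 k).2
    have a2 := (hz.fr ω' h2 k).2
    rw [e3, e4] at a2
    have p0 : (0 : ℝ) < 2 ^ lam := by positivity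
    have e5 : (2 : ℝ) ^ lam * (F.d ω k - g ω k * F.d ω i₀) -
        2 ^ lam * (F.d ω' k - g ω k * F.d ω' i₀) =
        2 ^ lam * ((F.d ω k - n ω k - g ω k * F.d ω i₀) -
          (F.d ω' k - n ω k - g ω k * F.d ω' i₀)) := by ring
    rw [e5, abs_mul, abs_of_pos p0]
    have e6 : |(F.d ω k - n ω k - g ω k * F.d ω i₀) - (F.d ω' k - n ω k - g ω k * F.d ω' i₀)| ≤
        12 / 2 ^ lam := by
      refine (abs_sub _ _).trans ?_
      have : (12 : ℝ) / 2 ^ lam = 6 / 2 ^ lam + 6 / 2 ^ lam := by ring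
      rw [this]
      exact add_le_add a1 a2
    rw [le_div_iff₀ p0] at e6
    linarith

/-- **Lines in the zoom.** If the fans of the zoom at its exact points, given a visible label, are
near lines on an event, the fans of the family at the points of resolution `r` are near lines of
higher precision, on an event which is not small. -/
theorem lines_ev {a R h₁ : ℝ} (ha : 1 ≤ a) (hR : 0 < R) (hU : UBa 3 a R) (hh₁ : 0 < h₁)
    (i₀ : Fin 3) {g₀ : ℝ} (hg₀ : 0 < g₀) {κ : ℝ} (hκ : 0 < κ) : ∃ τ > 0, ∃ J₁ : ℕ, ∀ J ≥ J₁,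
    ∀ (F : Fam 3 J) (A : F.Ω → Prop), Fam.Stt F a R τ A → Lb F i₀ ⌊h₁ * J⌋₊ A →
    ∀ (r w lam J' : ℕ) (h : w + J' ≤ J) (g n : F.Ω → Fin 3 → ℝ), r ≤ J →
    Zfr F A i₀ r w lam J' h g n → ∀ (V : Type) (z : F.Ω → V),
    (∃ φ : (Fin 3 → ℤ) × (ℕ × F.ζ) → V, ∀ ω, A ω → z ω = φ (Pool.KS6.ptq F r ω)) →
    ∀ B : F.Ω → Prop, Sub B A → ∀ θ ≤ τ, Real.exp (-(θ * J)) * Pe F.p A ≤ Pe F.p B →
    ∀ q : ℕ, g₀ * J ≤ q → q ≤ J' →
    PlU 1 (1 / 2 ^ q) (fun ω => (Fam.pt (F.zm w J' h (Box.plkC lam i₀) g) ω, z ω))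
      (F.zm w J' h (Box.plkC lam i₀) g).d B →
    ∃ B' : F.Ω → Prop, Sub B' A ∧ Real.exp (-((θ + κ) * J)) * Pe F.p A ≤ Pe F.p B' ∧
      LineU i₀ (4 / 2 ^ (lam + q / 2)) (ptr F r) F.d B' := by
  classical
  obtain ⟨x, hx⟩ : ∃ x, x = min (g₀ / 8) (h₁ / 4) := ⟨_, rfl⟩
  have hx0 : 0 < x := by rw [hx]; exact lt_min (by positivity) (by positivity)
  have hx1 : x ≤ g₀ / 8 := by rw [hx]; exact min_le_left _ _
  have hx2 : x ≤ h₁ / 4 := by rw [hx]; exact min_le_right _ _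
  obtain ⟨τb, hτb, Jb, hball⟩ := ball_claim (m := 3) ha hR hU hx0
  obtain ⟨κ', hκ'⟩ : ∃ κ', κ' = min κ (τb / 3) := ⟨_, rfl⟩
  have hκ0 : 0 < κ' := by rw [hκ']; exact lt_min hκ (by positivity)
  have hκ1 : κ' ≤ κ := by rw [hκ']; exact min_le_left _ _
  have hκ2 : κ' ≤ τb / 3 := by rw [hκ']; exact min_le_right _ _
  obtain ⟨Je, hJe⟩ := Pool.S6K.exp_small (κ := κ') (C := 2) hκ0 (by norm_num)
  obtain ⟨Jx, hJx⟩ := exists_nat_gt (8 / x + 8 / h₁ + 8 / g₀)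
  refine ⟨τb / 3, by positivity, max (max Jb Je) Jx, fun J hJ F A hS hL r w lam J' h g n hrJ hz
    V z hzv B hBA θ hθ hB q hq hqJ hP => ?_⟩
  have hJb : Jb ≤ J := (le_max_left _ _).trans ((le_max_left _ _).trans hJ)
  have hJe' : Je ≤ J := (le_max_right _ _).trans ((le_max_left _ _).trans hJ)
  have hJx' : 8 / x + 8 / h₁ + 8 / g₀ < J :=
    hJx.trans_le (by exact_mod_cast (le_max_right _ _).trans hJ)
  have q1 : 0 < 8 / x := by positivity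
  have q2 : 0 < 8 / h₁ := by positivity
  have q3 : 0 < 8 / g₀ := by positivity
  have hJr : (0 : ℝ) < J := by linarith
  have hxJ : 8 ≤ x * J := by
    have : 8 / x ≤ J := by linarith
    rw [div_le_iff₀ hx0] at this
    linarith
  have hp := F.isLaw
  have hA0 : 0 < Pe F.p A := lt_of_lt_of_le (Real.exp_pos _) hS.2.2.2
  obtain ⟨φ₀, hφ₀⟩ := hz.vis
  obtain ⟨φ₁, hφ₁⟩ := hz.pt
  obtain ⟨φ₂, hφ₂⟩ := hzv
  have hbv : ∃ φ : (Fin 3 → ℤ) × (ℕ × F.ζ) → Fin 3 → ℤ, ∀ ω, B ω →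
      F.bvl (Box.plkC lam i₀) g ω = φ (ptr F r ω) :=
    ⟨fun y => (φ₁ y).2.2.1.2.2, fun ω hω => by
      have h1 := hφ₁ ω (hBA ω hω)
      have h2 := congrArg (fun y => y.2.2.1.2.2) h1
      exact h2⟩
  have hPl := zm_plu F (r := r) h g (fun ω => (Fam.pt (F.zm w J' h (Box.plkC lam i₀) g) ω, z ω))
    hbv ⟨fun y => (φ₁ y, φ₂ y), fun ω hω => Prod.ext (hφ₁ ω (hBA ω hω)) (hφ₂ ω (hBA ω hω))⟩ hP
  have hPl2 : PlU 1 (2 / 2 ^ (2 * (q / 2))) (ptr F r)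
      (fun ω => pco lam i₀ (g ω) (F.d ω)) B := by
    refine PlU.mono ?_ hPl
    have e1 : (1 : ℝ) / 2 ^ q ≤ 1 / 2 ^ (2 * (q / 2)) := inv_mono (by omega)
    have e2 : (1 : ℝ) / 2 ^ J' ≤ 1 / 2 ^ (2 * (q / 2)) := inv_mono (by omega)
    have e3 : (2 : ℝ) / 2 ^ (2 * (q / 2)) = 1 / 2 ^ (2 * (q / 2)) + 1 / 2 ^ (2 * (q / 2)) := by
      ring
    rw [e3]
    exact add_le_add e1 e2
  obtain ⟨B₂, hB₂, hP₂, halt⟩ := spread2 F (γ := fun y => (φ₀ y).1)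
    (fun ω hω => (Prod.ext_iff.1 (hφ₀ ω (hBA ω hω))).1)
    (fun ω ω' h1 h2 hpt k => hz.vel (hBA ω h1) (hBA ω' h2) hpt k) hPl2
  have hPB₂ : Real.exp (-((θ + κ') * J)) * Pe F.p A ≤ Pe F.p B₂ := by
    have h2 := hJe J hJe'
    have e1 : Real.exp (-((θ + κ') * J)) =
        Real.exp (-(κ' * J)) * Real.exp (-(θ * J)) := by
      rw [← Real.exp_add]
      congr 1
      ring
    rw [e1, mul_assoc]
    calc Real.exp (-(κ' * J)) * (Real.exp (-(θ * J)) * Pe F.p A) ≤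
          Real.exp (-(κ' * J)) * (2 * Pe F.p B₂) :=
          mul_le_mul_of_nonneg_left (hB.trans hP₂) (Real.exp_pos _).le
      _ = (Real.exp (-(κ' * J)) * 2) * Pe F.p B₂ := by ring
      _ ≤ 1 * Pe F.p B₂ := mul_le_mul_of_nonneg_right (by linarith) (Pe_nonneg hp B₂)
      _ = _ := one_mul _
  have hB₂A : Sub B₂ A := fun ω hω => hBA ω (hB₂ ω hω)
  rcases halt with h1 | h1
  · refine ⟨B₂, hB₂A, le_trans ?_ hPB₂, h1⟩
    refine mul_le_mul_of_nonneg_right (Real.exp_le_exp.2 ?_) hA0.le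
    have := mul_le_mul_of_nonneg_right hκ1 hJr.le
    linarith
  · exfalso
    have hb := thin_ball (h := q / 2) (h₁ := ⌊h₁ * J⌋₊) hrJ (LineAt.hered _ _ _ _ _ _ hB₂A hL) h1
    -- the precision
    obtain ⟨s, hs⟩ : ∃ s : ℕ, s = ⌈x * J⌉₊ := ⟨_, rfl⟩
    have hs1 : x * J ≤ s := by rw [hs]; exact Nat.le_ceil _
    have hs2 : (s : ℝ) < x * J + 1 := by rw [hs]; exact Nat.ceil_lt_add_one (by positivity)
    have hgJ : 8 * (x * J) ≤ g₀ * J := by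
      have := mul_le_mul_of_nonneg_right hx1 hJr.le
      linarith
    have hhJ : 4 * (x * J) ≤ h₁ * J := by
      have := mul_le_mul_of_nonneg_right hx2 hJr.le
      linarith
    have hsq : s + 6 ≤ q / 2 := by
      rw [Nat.le_div_iff_mul_le (by norm_num)]
      have : (((s + 6) * 2 : ℕ) : ℝ) ≤ q := by
        push_cast
        linarith
      exact_mod_cast this
    have hsh : s + 2 ≤ ⌊h₁ * (J : ℝ)⌋₊ := by
      refine Nat.le_floor ?_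
      push_cast
      linarith
    have hsJ : s ≤ J := by
      have h5 : s + 6 ≤ q := hsq.trans (Nat.div_le_self q 2)
      omega
    have hS₂ : Fam.Stt F a R τb B₂ := by
      have h4 := Fam.Stt.mono (by linarith : τb / 3 ≤ τb) hS
      refine ⟨h4.1, h4.2.1, h4.2.2.1, le_trans ?_ hPB₂⟩
      refine le_trans ?_ (mul_le_mul_of_nonneg_left hS.2.2.2 (Real.exp_pos _).le)
      rw [← Real.exp_add]
      refine Real.exp_le_exp.2 ?_
      have := mul_le_mul_of_nonneg_right hκ2 hJr.le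
      have := mul_le_mul_of_nonneg_right hθ hJr.le
      linarith
    refine hball J hJb F B₂ hS₂ s hsJ hs1 ?_
    obtain ⟨ζ, hζ⟩ := hb
    refine ⟨ζ, fun ω hω j => (hζ ω hω j).trans ?_⟩
    have e1 : (20 : ℝ) / 2 ^ (q / 2) ≤ 20 / 2 ^ (s + 6) :=
      div_le_div_of_nonneg_left (by norm_num) (by positivity)
        (pow_le_pow_right₀ (by norm_num) hsq)
    have e2 : (2 : ℝ) / 2 ^ ⌊h₁ * (J : ℝ)⌋₊ ≤ 2 / 2 ^ (s + 2) :=
      div_le_div_of_nonneg_left (by norm_num) (by positivity)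
        (pow_le_pow_right₀ (by norm_num) hsh)
    have e3 : (20 : ℝ) / 2 ^ (s + 6) = 20 / 64 * (1 / 2 ^ s) := by
      rw [pow_add]
      norm_num
      ring
    have e4 : (2 : ℝ) / 2 ^ (s + 2) = 1 / 2 * (1 / 2 ^ s) := by
      rw [pow_add]
      norm_num
      ring
    have e5 : (0 : ℝ) < 1 / 2 ^ s := by positivity
    linarith

end Pool.S6C.Ful
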