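import Pool.Agent.H39.S6C.BctA
import Pool.Agent.H40.S6.Ev
import Pool.Agent.H86.S6C.Trv
import Pool.Agent.H89.ZCL.AzR
import Pool.Agent.H5.K3.LabQ

/-!
# Lemma B with boxes

If the boxes of the frames of the row `Q` are complete at the window `v`, i.e. `Q ≤ v + rot v`, the
directions cannot turn faster than `4 a / R` on the windows above `v`.
-/

set_option autoImplicit false

namespace Pool.S6C.Bct

open Finset Real
open Pool.Agent.H49.Ent Pool.Agent.H32.Dense Pool.STK Pool.KA Pool.KSAT Pool.K2S Pool.PB Pool.KS6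
open Pool.S6K.Wfe Pool.K3

/-- Claims for maximal families hold in the class. -/
theorem clp_of_claim {S : PCl 3} {a R : ℝ}
    (hst : ∀ (τ : ℝ) (J : ℕ) (F : Fam 3 J) (A : F.Ω → Prop), S.St τ J F A → Fam.Stt F a R τ A)
    {Φ : Stat 3} (h : Claim (m := 3) a R Φ) : Clp S Φ := by
  have h' := h.clm
  clear h
  induction h' with
  | base τ hτ J₁ h => exact Clp.base τ hτ J₁ fun J hJ F A hA => h J hJ F A (hst τ J F A hA)
  | step L h ih => exact Clp.step L ih

/-- The rows of the base position are full in contexts with linear labels. -/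
theorem wfe_cls {S : PCl 3} {a R h₁ : ℝ} {i₀ : Fin 3} (ha : 1 ≤ a) (hR : 0 < R)
    (hU : UBa 3 a R) (hh₁ : 0 < h₁)
    (hst : ∀ (τ : ℝ) (J : ℕ) (F : Fam 3 J) (A : F.Ω → Prop), S.St τ J F A → Fam.Stt F a R τ A)
    (hlb : ∀ (τ : ℝ) (J : ℕ) (F : Fam 3 J) (A : F.Ω → Prop), S.St τ J F A →
      Lb F i₀ ⌊h₁ * J⌋₊ A) {η : ℝ} (hη : 0 < η) (Bc C δ : ℝ) :
    Clp S (fun J F A => ∀ (w H : ℕ) (f n : (Fin 3 → ℤ) × (ℕ × F.ζ) → Fin 3 → ℝ) (σ : Type)
      (P V g : Fin 3 → ℕ) (z : F.Ω → Fin 3 → Fin 3 → ℝ) (s : F.Ω → σ),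
      LOK F A i₀ w 0 H f n P V g z s Bc C δ → ∀ p : ℕ, 0 + w ≤ p → p ≤ J →
      ((p : ℝ) - (0 + w : ℕ)) * Real.log 2 - η * J ≤
        CH (Pool.Agent.H49.Ent.cond F.p A True) (fun ω => ⌊(2 : ℝ) ^ p * F.x ω i₀⌋)
          (fun ω => ((⌊(2 : ℝ) ^ (0 + w) * F.x ω i₀⌋, labt F w P V z s ω),
            (⌊(2 : ℝ) ^ 0 * F.d ω i₀⌋, F.T ω)))) := by
  obtain ⟨γ, hγ, hfull⟩ := wfe_time (m := 3) (r := 3) hη
  obtain ⟨g, hg⟩ : ∃ g, g = min (min γ 1) h₁ := ⟨_, rfl⟩
  have hg0 : 0 < g := by rw [hg]; exact lt_min (lt_min hγ one_pos) hh₁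
  have hgγ : g ≤ γ := by rw [hg]; exact (min_le_left _ _).trans (min_le_left _ _)
  have hg1 : g ≤ 1 := by rw [hg]; exact (min_le_left _ _).trans (min_le_right _ _)
  have hgh : g ≤ h₁ := by rw [hg]; exact min_le_right _ _
  obtain ⟨τb, hτb, Jb, hball⟩ := Pool.S6K.ball_claim ha hR hU (by positivity : 0 < g / 2)
  refine Clp.one ⟨1, fun J F _ => FrzG F i₀ 0 (0 + ⌊g * J⌋₊),
    fun J F _ => FrzG.hered F i₀ _ _⟩ fun κ hκ => ?_
  obtain ⟨τ₂, hτ₂, J₂, hmain⟩ := hfull Bc C δ κ hκ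
  obtain ⟨τ, hτ⟩ : ∃ τ, τ = min τ₂ (τb / 2) := ⟨_, rfl⟩
  have hτ0 : 0 < τ := by rw [hτ]; exact lt_min hτ₂ (by positivity)
  have hττ₂ : τ ≤ τ₂ := by rw [hτ]; exact min_le_left _ _
  have hττb : τ ≤ τb / 2 := by rw [hτ]; exact min_le_right _ _
  obtain ⟨J₃, hJ₃⟩ := exists_nat_gt (4 / g + 2 * Real.log 5 / τb + 1)
  refine ⟨τ, hτ0, max J₂ (max Jb J₃), fun J hJ F A hSt hSb w H f n σ P V g' z s hL p hp hpJ => ?_⟩
  have hJ2 : J₂ ≤ J := (le_max_left _ _).trans hJ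
  have hJb : Jb ≤ J := (le_max_left _ _).trans ((le_max_right _ _).trans hJ)
  have hJ3 : 4 / g + 2 * Real.log 5 / τb + 1 < J :=
    hJ₃.trans_le (by exact_mod_cast (le_max_right _ _).trans ((le_max_right _ _).trans hJ))
  have hJr : (0 : ℝ) ≤ J := Nat.cast_nonneg J
  have hl5 : 0 < Real.log 5 := Real.log_pos (by norm_num)
  have q1 : 0 < 4 / g := by positivity
  have q2 : 0 < 2 * Real.log 5 / τb := by positivity
  have r1 : 4 ≤ g * J := by
    have h1 : 4 / g < J := by linarith only [hJ3, q2]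
    rw [div_lt_iff₀ hg0] at h1
    linarith only [h1]
  have r2 : Real.log 5 ≤ τb / 2 * J := by
    have h1 : 2 * Real.log 5 / τb < J := by linarith only [hJ3, q1]
    rw [div_lt_iff₀ hτb] at h1
    linarith only [h1]
  obtain ⟨x1, hx1⟩ : ∃ x1, x1 = ⌊g * J⌋₊ := ⟨_, rfl⟩
  have hx1a : (x1 : ℝ) ≤ g * J := by rw [hx1]; exact Nat.floor_le (by positivity)
  have hx1b : g * J < x1 + 1 := by rw [hx1]; exact Nat.lt_floor_add_one _
  have hx1c : 1 ≤ x1 := by
    have : (0 : ℝ) < x1 := by linarith only [r1, hx1b]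
    exact_mod_cast this
  have hx1h : x1 ≤ ⌊h₁ * J⌋₊ := by
    rw [hx1]
    exact Nat.floor_le_floor (mul_le_mul_of_nonneg_right hgh hJr)
  have hx1J : x1 ≤ J := by
    have : (x1 : ℝ) ≤ J := hx1a.trans (by nlinarith only [hg1])
    exact_mod_cast this
  obtain ⟨q, hq⟩ : ∃ q, q + 1 = x1 := ⟨x1 - 1, by omega⟩
  have hqr : (q : ℝ) + 1 = x1 := by exact_mod_cast hq
  have hqx : g / 2 * J ≤ q := by linarith only [r1, hx1b, hqr]
  have hS := hst _ _ _ _ hSt
  have hS1 := Fam.Stt.mono (by linarith only [hτ0, hττb] : τ ≤ τb) hS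
  have hS2 := Fam.Stt.mono hττ₂ hS
  have hnf : ¬ FrzG F i₀ 0 (0 + x1) A := by
    intro hF
    rw [Nat.zero_add] at hF
    obtain ⟨B', hB', hPB', hball'⟩ := Pool.ZCL.frz_ball (q := q) (h := ⌊h₁ * J⌋₊) hF
      (hlb _ _ _ _ hSt) (by omega) (by omega)
    refine hball J hJb F B' ⟨hS1.1, hS1.2.1, hS1.2.2.1, ?_⟩ q (by omega) hqx hball'
    have h1 : Real.exp (-(τb * J)) * 5 ≤ Pe F.p A := by
      refine le_trans ?_ hS.2.2.2
      have h2 : (5 : ℝ) = Real.exp (Real.log 5) := by rw [Real.exp_log (by norm_num)]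
      calc Real.exp (-(τb * J)) * 5 = Real.exp (-(τb * J)) * Real.exp (Real.log 5) := by
            rw [← h2]
        _ = Real.exp (-(τb * J) + Real.log 5) := by rw [← Real.exp_add]
        _ ≤ _ := Real.exp_le_exp.2 (by
            have h3 := mul_le_mul_of_nonneg_right hττb hJr
            linarith only [r2, h3])
    linarith only [hPB', h1]
  have hsb0 := hSb 0
  simp only [← hx1] at hsb0
  exact hmain J hJ2 F A hS2.1 hS2.2.1.1 hS2.2.2.1 hS2.2.2.2 i₀ w 0 x1 H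
    (hx1a.trans (mul_le_mul_of_nonneg_right hgγ hJr)) hsb0 hnf f n σ P V g' z s hL p hp hpJ

section Frame

variable {J : ℕ} {F : Fam 3 J} {B : F.Ω → Prop} {i₀ : Fin 3} {Pt w l : ℕ}
  {e n : (Fin 3 → ℤ) × (ℕ × F.ζ) → Fin 3 → ℝ}
  {ζ : ((Fin 3 → ℝ) × (Fin 3 → ℝ)) × F.ζ × ℕ → Fin 3 → ℝ}

/-- The position in the box is full. -/
theorem Frm.full (h : Frm F B i₀ Pt w l e n ζ) {Pu : ℕ} (hPu : Pu ≤ Pt)
    (hPw : Pu ≤ l + w) {E : ℝ} (hE : 0 ≤ E) (hB0 : 0 < Pe F.p B)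
    (hw : w ≤ Pt → ((Pt : ℝ) - (0 + w : ℕ)) * Real.log 2 - E ≤
      CH (Pool.Agent.H49.Ent.cond F.p B True) (fun ω => ⌊(2 : ℝ) ^ Pt * F.x ω i₀⌋)
        (ctx F i₀ w l Pu ζ)) :
    ((Pt : ℝ) - (min w Pt : ℕ)) * Real.log 2 - (E + 9 * Real.log 29) ≤
      CH (Pool.Agent.H49.Ent.cond F.p B True) (F.X Pt)
        (fun ω => (lbl i₀ Pt (min w Pt) Pu l e n (Pool.KS6.ptq F Pt ω), F.W ω)) := by
  have hl := isLaw_cond F.isLaw hB0
  have hp0 := hl.nonneg
  have hl29 : 0 ≤ Real.log 29 := Real.log_nonneg (by norm_num)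
  rcases le_total w Pt with hwP | hwP
  · have h1 := hw hwP
    rw [min_eq_left hwP]
    rw [Nat.zero_add] at h1
    have hin : ∀ ω, 0 < Pool.Agent.H49.Ent.cond F.p B True ω → B ω := fun ω hω =>
      of_eq_true (by
        have := ((cond_pos_iff F.isLaw.nonneg B True ω).1 hω).2
        exact this)
    have h2 := h.ent (kw := w) (Pu := Pu) le_rfl hwP hPu hPw hl hin
    have h3 := CH_le_add hp0 (fun ω => ⌊(2 : ℝ) ^ Pt * F.x ω i₀⌋)
      (fun ω => lbl i₀ Pt w Pu l e n (Pool.KS6.ptq F Pt ω)) (ctx F i₀ w l Pu ζ)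
    have h4 : CH (Pool.Agent.H49.Ent.cond F.p B True) (fun ω => ⌊(2 : ℝ) ^ Pt * F.x ω i₀⌋)
        (fun ω => (lbl i₀ Pt w Pu l e n (Pool.KS6.ptq F Pt ω), ctx F i₀ w l Pu ζ ω)) ≤
        CH (Pool.Agent.H49.Ent.cond F.p B True) (fun ω => ⌊(2 : ℝ) ^ Pt * F.x ω i₀⌋)
        (fun ω => (lbl i₀ Pt w Pu l e n (Pool.KS6.ptq F Pt ω), F.W ω)) := by
      refine CH_mono_cond hp0 fun ω ω' _ _ hc => ?_
      have a1 := Prod.ext_iff.1 hc
      exact Prod.ext a1.1 (ctx_eq a1.2).1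
    have h5 : CH (Pool.Agent.H49.Ent.cond F.p B True) (fun ω => ⌊(2 : ℝ) ^ Pt * F.x ω i₀⌋)
        (fun ω => (lbl i₀ Pt w Pu l e n (Pool.KS6.ptq F Pt ω), F.W ω)) ≤
        CH (Pool.Agent.H49.Ent.cond F.p B True) (F.X Pt)
        (fun ω => (lbl i₀ Pt w Pu l e n (Pool.KS6.ptq F Pt ω), F.W ω)) := by
      refine CH_mono_left hp0 fun ω ω' _ _ hc => ?_
      exact congrFun (Prod.ext_iff.1 hc).1 i₀
    linarith only [h1, h2, h3, h4, h5]
  · rw [min_eq_right hwP]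
    have h1 := CH_nonneg hp0 (F.X Pt)
      (fun ω => (lbl i₀ Pt Pt Pu l e n (Pool.KS6.ptq F Pt ω), F.W ω))
    rw [sub_self, zero_mul]
    linarith only [hE, hl29, h1]

/-- Longer windows. -/
theorem box_win {x d : F.Ω → Fin 3 → ℝ} {S : Type} {z : F.Ω → S} {σ : Fin 3 → Fin 3}
    {k : Fin 3 → ℕ} {w w' N : ℕ} (h1 : w ≤ w' + N) (h : BoxL x d B z σ k w 5) :
    BoxL x d B z σ k w' (5 * 2 ^ N) := by
  obtain ⟨M, xb, db, h2, h3⟩ := h
  have hN : (1 : ℝ) ≤ 2 ^ N := one_le_pow₀ (by norm_num)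
  have h5 : (2 : ℝ) ^ w ≤ 2 ^ N * 2 ^ w' := by
    rw [← pow_add]
    exact pow_le_pow_right₀ (by norm_num) (by omega)
  refine ⟨M, xb, db, fun s i j => (h2 s i j).trans (by linarith only [hN]), fun ω hω i => ?_⟩
  obtain ⟨h6, h7⟩ := h3 ω hω i
  refine ⟨h6.trans (div_le_div_of_nonneg_right (by linarith only [hN]) (by positivity)),
    h7.trans (div_le_div_of_nonneg_right ?_ (by positivity))⟩
  nlinarith only [h5]

/-- The slopes of the frames of the row are close to the slopes at exact points. -/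
theorem slope_close {h₁ q h' : ℕ} (hPt : Pt ≤ J) {A : F.Ω → Prop} (hB : Sub B A)
    (hBs : ∀ ω, B ω → ∃ ω' ω'', B ω' ∧ B ω'' ∧ Fam.pt F ω' = Fam.pt F ω ∧
      Fam.pt F ω'' = Fam.pt F ω ∧ 1 / 2 ^ (q + 1) ≤ |F.d ω' i₀ - F.d ω'' i₀|)
    {eb nb : _ → Fin 3 → ℝ} (hfr : IsFrame i₀ (1 / 2 ^ h₁) (Fam.pt F) F.d A eb nb)
    (h1 : OnL i₀ (1 / 2 ^ l) (Pool.KS6.ptq F Pt) F.d A e n) (g1 : h' + q + 4 ≤ l)
    (g2 : h' + q + 4 ≤ h₁) :
    ∀ ω, B ω → ∀ j, |e (Pool.KS6.ptq F Pt ω) j - eb (Fam.pt F ω) j| ≤ 1 / 2 ^ (h' + 1) := by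
  intro ω hω j
  obtain ⟨ω', ω'', b1, b2, b3, b4, b5⟩ := hBs ω hω
  have a1 := hfr.line ω' (hB _ b1) j
  have a2 := hfr.line ω'' (hB _ b2) j
  have a3 := h1 ω' (hB _ b1) j
  have a4 := h1 ω'' (hB _ b2) j
  rw [b3] at a1
  rw [b4] at a2
  rw [ptq_of_pt F hPt b3] at a3
  rw [ptq_of_pt F hPt b4] at a4
  have hcl := frame_close (U := ℕ) (d := F.d) a1 a2 a3 a4 (by positivity) b5
  refine hcl.trans ?_
  rw [div_le_iff₀ (by positivity)]
  have k1 : (1 : ℝ) / 2 ^ l ≤ 1 / 2 ^ (h' + q + 4) := inv_mono g1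
  have k2 : (1 : ℝ) / 2 ^ h₁ ≤ 1 / 2 ^ (h' + q + 4) := inv_mono g2
  have k3 : (1 : ℝ) / 2 ^ (h' + 1) * (1 / 2 ^ (q + 1)) = 4 * (1 / 2 ^ (h' + q + 4)) := by
    rw [show h' + q + 4 = (h' + 1) + (q + 1) + 2 by ring, pow_add 2 (h' + 1 + (q + 1)) 2,
      pow_add 2 (h' + 1) (q + 1)]
    field_simp
    norm_num
  rw [k3]
  linarith only [k1, k2]

/-- The fans at the points of the row lie near lines, with bounded slopes. -/
theorem line_row {h₁ q h' : ℕ} (hPt : Pt ≤ J) {A : F.Ω → Prop} (hB : Sub B A)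
    (hBs : ∀ ω, B ω → ∃ ω' ω'', B ω' ∧ B ω'' ∧ Fam.pt F ω' = Fam.pt F ω ∧
      Fam.pt F ω'' = Fam.pt F ω ∧ 1 / 2 ^ (q + 1) ≤ |F.d ω' i₀ - F.d ω'' i₀|)
    {eb nb : _ → Fin 3 → ℝ} (hfr : IsFrame i₀ (1 / 2 ^ h₁) (Fam.pt F) F.d A eb nb)
    (h1 : OnL i₀ (1 / 2 ^ l) (Pool.KS6.ptq F Pt) F.d A e n) (g1 : h' + q + 4 ≤ l)
    (g2 : h' + q + 4 ≤ h₁) :
    LineAt i₀ (1 / 2 ^ h') (Pool.KS6.ptq F Pt) F.d B := by
  have hcl := slope_close hPt hB hBs hfr h1 g1 g2
  refine ⟨fun u j => max (-1) (min 1 (e u j)), n, ⟨fun ω _ j => ?_, fun ω hω j => ?_⟩⟩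
  · rw [abs_le]
    exact ⟨le_max_left _ _, max_le (by norm_num) (min_le_left _ _)⟩
  · have h2 := h1 ω (hB _ hω) j
    have h3 := hcl ω hω j
    have h4 := hfr.bound ω (hB _ hω) j
    obtain ⟨x, hx⟩ : ∃ x, x = e (Pool.KS6.ptq F Pt ω) j := ⟨_, rfl⟩
    obtain ⟨y, hy⟩ : ∃ y, y = eb (Fam.pt F ω) j := ⟨_, rfl⟩
    rw [← hx] at h2 h3 ⊢
    rw [← hy] at h3 h4
    have h5 : |x - max (-1) (min 1 x)| ≤ 1 / 2 ^ (h' + 1) := by
      refine le_trans ?_ h3
      rcases le_total x (-1) with hx1 | hx1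
      · rw [min_eq_right (by linarith only [hx1]), max_eq_left hx1, abs_of_nonpos (by linarith only [hx1]),
          abs_of_nonpos (by linarith only [hx1, h4, (abs_le.1 h4).1])]
        linarith only [h4, (abs_le.1 h4).1]
      · rcases le_total x 1 with hx2 | hx2
        · rw [min_eq_right hx2, max_eq_right hx1, sub_self, abs_zero]
          exact abs_nonneg _
        · rw [min_eq_left hx2, max_eq_right (by norm_num), abs_of_nonneg (by linarith only [hx2]),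
            abs_of_nonneg (by linarith only [hx2, h4, (abs_le.1 h4).2])]
          linarith only [h4, (abs_le.1 h4).2]
    have e1 : F.d ω j - max (-1) (min 1 x) * F.d ω i₀ - n (Pool.KS6.ptq F Pt ω) j =
        (F.d ω j - x * F.d ω i₀ - n (Pool.KS6.ptq F Pt ω) j) +
        (x - max (-1) (min 1 x)) * F.d ω i₀ := by ring
    have h6 : |(x - max (-1) (min 1 x)) * F.d ω i₀| ≤ 1 / 2 ^ (h' + 1) := by
      rw [abs_mul]
      calc _ ≤ 1 / 2 ^ (h' + 1) * 1 :=
            mul_le_mul h5 (F.dir ω i₀) (abs_nonneg _) (by positivity)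
        _ = _ := mul_one _
    rw [e1]
    refine (abs_add_le _ _).trans ?_
    have h7 : (1 : ℝ) / 2 ^ l ≤ 1 / 2 ^ (h' + 1) := inv_mono (by omega)
    have h8 : (1 : ℝ) / 2 ^ h' = 1 / 2 ^ (h' + 1) + 1 / 2 ^ (h' + 1) := by
      rw [pow_succ]
      field_simp
      norm_num
    rw [h8]
    linarith only [h2, h6, h7]

end Frame

/-- A common denominator. -/
theorem exists_grid {v y : ℚ} (hy : 0 < y) (hyv : y < v) (K : ℕ) :
    ∃ N vn yn : ℕ, K ≤ N ∧ 0 < N ∧ (v : ℝ) = vn / N ∧ (y : ℝ) = yn / N := by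
  have hv : 0 < v := hy.trans hyv
  refine ⟨v.den * y.den * (K + 1), v.num.toNat * y.den * (K + 1), y.num.toNat * v.den * (K + 1),
    ?_, ?_, ?_, ?_⟩
  · have h1 : 0 < v.den * y.den := Nat.mul_pos v.den_pos y.den_pos
    have h2 : 1 * (K + 1) ≤ v.den * y.den * (K + 1) := Nat.mul_le_mul_right _ h1
    omega
  · exact Nat.mul_pos (Nat.mul_pos v.den_pos y.den_pos) (Nat.succ_pos K)
  · have h1 : ((v.num.toNat : ℕ) : ℝ) = (v.num : ℝ) := by
      have : ((v.num.toNat : ℕ) : ℤ) = v.num := Int.toNat_of_nonneg (Rat.num_nonneg.2 hv.le)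
      exact_mod_cast this
    have h2 : (v : ℝ) = v.num / v.den := by
      exact_mod_cast (Rat.num_div_den v).symm
    have h3 : (v.den : ℝ) ≠ 0 := by exact_mod_cast v.den_pos.ne'
    have h4 : (y.den : ℝ) ≠ 0 := by exact_mod_cast y.den_pos.ne'
    have h5 : ((K : ℝ) + 1) ≠ 0 := by positivity
    rw [h2]
    push_cast
    rw [h1]
    field_simp
  · have h1 : ((y.num.toNat : ℕ) : ℝ) = (y.num : ℝ) := by
      have : ((y.num.toNat : ℕ) : ℤ) = y.num := Int.toNat_of_nonneg (Rat.num_nonneg.2 hy.le)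
      exact_mod_cast this
    have h2 : (y : ℝ) = y.num / y.den := by
      exact_mod_cast (Rat.num_div_den y).symm
    have h3 : (v.den : ℝ) ≠ 0 := by exact_mod_cast v.den_pos.ne'
    have h4 : (y.den : ℝ) ≠ 0 := by exact_mod_cast y.den_pos.ne'
    have h5 : ((K : ℝ) + 1) ≠ 0 := by positivity
    rw [h2]
    push_cast
    rw [h1]
    field_simp

/-- **(BCT)** for the rows of a class. -/
theorem bct {S : PCl 3} {a R h₁ : ℝ} {i₀ : Fin 3} {c s₂ : ℝ} {r : ℝ → ℝ} {D : Set ℝ}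
    {σ : ℝ → Row} (hC : Cs S a R h₁ i₀ c s₂ r D σ) {Q : ℝ} (hQ1 : Q ≤ 1)
    {ρ : Row} (hρ : Rw S i₀ Q ρ) {v y : ℚ} (hy : 0 < y) (hyv : y < v) (hv1 : v ≤ 1)
    (hQv : Q ≤ (v : ℝ) + ρ.rot v) : ρ.rot v - 4 * a / R * y ≤ ρ.rot (v - y) := by
  classical
  have ha1 := hC.a1
  have hR0 := hC.R0
  have hy0 : (0 : ℝ) < y := by exact_mod_cast hy
  have hyv' : (y : ℝ) < v := by exact_mod_cast hyv
  have hv1' : (v : ℝ) ≤ 1 := by exact_mod_cast hv1
  have hv0 : 0 < v := hy.trans hyv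
  have hvy0 : 0 ≤ v - y := by linarith only [hyv]
  have hvy1 : v - y ≤ 1 := by linarith only [hy, hv1]
  obtain ⟨s, hs⟩ : ∃ s, s = ρ.rot v := ⟨_, rfl⟩
  have hs1 : s ≤ 1 := by
    rw [hs]
    exact num_le_cap hC.ne zero_le_one (hρ.rot v hv0.le hv1)
  obtain ⟨t, ht⟩ : ∃ t, t = ρ.rot (v - y) := ⟨_, rfl⟩
  have ht0 : 0 ≤ t := by
    rw [ht]
    exact num_nonneg hC.ne (hρ.rot _ hvy0 hvy1)
  obtain ⟨Cc, hCc⟩ : ∃ Cc, Cc = 4 * a / R := ⟨_, rfl⟩
  have hCc0 : 0 < Cc := by rw [hCc]; positivity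
  have hCR : R / a * Cc = 4 := by
    rw [hCc]
    field_simp
  rw [← hs, ← ht, ← hCc]
  by_contra hcon
  push Not at hcon
  obtain ⟨g, hg⟩ : ∃ g, g = (t + (s - Cc * y)) / 2 := ⟨_, rfl⟩
  have hgt : t < g := by rw [hg]; linarith only [hcon]
  have hg0 : 0 < g := by linarith only [ht0, hgt]
  obtain ⟨D0, hD0⟩ : ∃ D0, D0 = s - Cc * y - g := ⟨_, rfl⟩
  have hD00 : 0 < D0 := by rw [hD0, hg]; linarith only [hcon]
  obtain ⟨ε, hε⟩ : ∃ ε : ℝ, ε = min (D0 / 8) ((y : ℝ) / 8) := ⟨_, rfl⟩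
  have hε0 : 0 < ε := by rw [hε]; exact lt_min (by linarith only [hg, hgt, hD0]) (by linarith only [hy0])
  have hεD : ε ≤ D0 / 8 := by rw [hε]; exact min_le_left _ _
  have hεy : ε ≤ y / 8 := by rw [hε]; exact min_le_right _ _
  have hCy : 0 < Cc * y := by positivity
  obtain ⟨m0, hm0⟩ : ∃ m0, m0 = min (s - ε) h₁ := ⟨_, rfl⟩
  have hm00 : 0 < m0 := by
    rw [hm0]
    exact lt_min (by linarith only [ht0, hcon, hgt, hD0, hεD, hCy]) hC.h₁0
  have hm0s : m0 ≤ s - ε := by rw [hm0]; exact min_le_left _ _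
  have hm0h : m0 ≤ h₁ := by rw [hm0]; exact min_le_right _ _
  have hm01 : m0 ≤ 1 := by linarith only [hs1, hε0, hm0s]
  obtain ⟨K, hK⟩ := exists_nat_gt (16 / D0)
  obtain ⟨N, vn, yn, hKN, hN0, hvn, hyn⟩ := exists_grid hy hyv K
  have hNr : (0 : ℝ) < N := by exact_mod_cast hN0
  have hN16 : 16 < D0 * N := by
    have h1 : 16 / D0 < N := hK.trans_le (by exact_mod_cast hKN)
    rw [div_lt_iff₀ hD00] at h1
    linarith only [h1]
  have hvN : (vn : ℝ) = v * N := by rw [hvn]; field_simp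
  have hyN : (yn : ℝ) = y * N := by rw [hyn]; field_simp
  have hvnN : vn ≤ N := by
    have : (vn : ℝ) ≤ N := by
      rw [hvN]
      nlinarith only [hv1']
    exact_mod_cast this
  have hynvn : yn ≤ vn := by
    have : (yn : ℝ) ≤ vn := by
      rw [hvN, hyN]
      exact mul_le_mul_of_nonneg_right hyv'.le hNr.le
    exact_mod_cast this
  obtain ⟨j, hj⟩ : ∃ j, j = ⌊(s - 2 * ε) * N⌋₊ := ⟨_, rfl⟩
  obtain ⟨b, hb⟩ : ∃ b, b = ⌈Cc * y * N⌉₊ := ⟨_, rfl⟩
  have hs2 : 0 < s - 2 * ε := by linarith only [ht0, hg, hgt, hD0, hεD, hCy]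
  have hj1 : (j : ℝ) ≤ (s - 2 * ε) * N := by rw [hj]; exact Nat.floor_le (by positivity)
  have hj2 : (s - 2 * ε) * N < j + 1 := by rw [hj]; exact Nat.lt_floor_add_one _
  have hb1 : Cc * y * N ≤ b := by rw [hb]; exact Nat.le_ceil _
  have hb2 : (b : ℝ) < Cc * y * N + 1 := by rw [hb]; exact Nat.ceil_lt_add_one (by positivity)
  have hjb : (g + D0 / 2) * N ≤ (j : ℝ) - b := by
    have h1 : (s - 2 * ε) * N - Cc * y * N = (g + D0 - 2 * ε) * N := by
      rw [hD0]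
      ring
    have h2 : (g + 3 / 4 * D0) * N ≤ (g + D0 - 2 * ε) * N :=
      mul_le_mul_of_nonneg_right (by linarith only [hεD]) hNr.le
    have h3 : (g + 3 / 4 * D0) * N = (g + D0 / 2) * N + D0 * N / 4 := by ring
    linarith only [hs1, ht0, hg, hD0, hε0, hεD, hCy, hN16, hj2, hb2, h1, h2]
  have hbj : b ≤ j := by
    have : (b : ℝ) ≤ j := by
      have : 0 < (g + D0 / 2) * N := by positivity
      linarith only [hjb, this]
    exact_mod_cast this
  have hjN : j < N := by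
    have : (j : ℝ) < N := by
      have h1 : (s - 2 * ε) * N < 1 * N := mul_lt_mul_of_pos_right (by linarith only [hs1, hε0]) hNr
      linarith only [hj1, h1]
    exact_mod_cast this
  have hbN : b < N := lt_of_le_of_lt hbj hjN
  have hQJ : ∀ J : ℕ, ⌊Q * J⌋₊ ≤ J := by
    intro J
    have : Q * J ≤ 1 * J := mul_le_mul_of_nonneg_right hQ1 (Nat.cast_nonneg J)
    rw [one_mul] at this
    exact (Nat.floor_le_floor this).trans (Nat.floor_natCast J).le
  have h2N : (1 : ℝ) ≤ 5 * 2 ^ N := by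
    have : (1 : ℝ) ≤ 2 ^ N := one_le_pow₀ (by norm_num)
    linarith only [this]
  -- the claims
  have k1 := (hρ.rot v hv0.le hv1).1 ε hε0
  rw [← hs] at k1
  obtain ⟨τ, hτ, J₁, hsp⟩ := spread_part hC.a1 hC.R0 hC.ub hC.st hC.lb
    (by positivity : 0 < m0 / 8)
  have k3 : Clp S (fun J F A => (0 < Pe F.p A ∧ Lb F i₀ ⌊h₁ * J⌋₊ A) ∧
      ∀ q : ℕ, q ≤ J → m0 / 8 * J ≤ q → q + 2 ≤ ⌊h₁ * J⌋₊ →
        ∃ B : F.Ω → Prop, Sub B A ∧ Real.exp (-Real.log 2) * Pe F.p A ≤ Pe F.p B ∧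
        ∀ ω, B ω → ∃ ω' ω'', B ω' ∧ B ω'' ∧ Fam.pt F ω' = Fam.pt F ω ∧
          Fam.pt F ω'' = Fam.pt F ω ∧ 1 / 2 ^ (q + 1) ≤ |F.d ω' i₀ - F.d ω'' i₀|) :=
    Clp.base τ hτ J₁ fun J hJ F A hS =>
      ⟨⟨lt_of_lt_of_le (Real.exp_pos _) (hC.st _ _ _ _ hS).2.2.2, hC.lb _ _ _ _ hS⟩,
        hsp J hJ F A hS⟩
  have k4 := (clp_of_claim hC.st (labq_thm 3 a R hC.a1.le hC.R0 hC.ub (m0 / 2) ((y : ℝ) / 4)
    (5 * 2 ^ N) (by positivity) (by positivity) h2N N i₀ (Equiv.swap 0 i₀)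
    (Equiv.swap 0 i₀).surjective j b vn yn hbj hbN hvnN hynvn (fun J => ⌊Q * J⌋₊) hQJ)).ev
    (ϖ := 1 / 2) (by norm_num)
  have k5 := (wfe_cls (S := S) (i₀ := i₀) hC.a1.le hC.R0 hC.ub hC.h₁0 hC.st hC.lb
    (η := (y : ℝ) / 4) (by positivity) 5 2 (3 * (3 * Real.log (2 * (2 * 2) + 1)))).ev
    (ϖ := 1 / 2) (by norm_num)
  have fin : g ≤ t := by
    rw [ht]
    refine PNum.att hC.ne (fun s J F => capS_hered (fun s J F => qRot_hered _ _ _ _ _ _) s J F)
      (hρ.rot (v - y) hvy0 hvy1) fun δ hδ => ?_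
    obtain ⟨J₂, hJ₂⟩ := Pool.S6K.exp_small (κ := δ) (C := 2) hδ (by norm_num)
    obtain ⟨J₃, hJ₃⟩ := exists_nat_gt (20 / m0 + 4 / ε + (3 + 9 * Real.log 29 + 4 * N) / y +
      2 * N / D0)
    refine Clp.mono (J₂ := max J₂ J₃) (((k1.and k3).and k4).and k5) ?_
    rintro J hJ F A ⟨⟨⟨d1, ⟨dA, eb, nb, hfr⟩, d3⟩, d4⟩, d5⟩
    have hJδ := hJ₂ J ((le_max_left _ _).trans hJ)
    have hJr : 20 / m0 + 4 / ε + (3 + 9 * Real.log 29 + 4 * N) / y + 2 * N / D0 < J :=
      hJ₃.trans_le (by exact_mod_cast (le_max_right _ _).trans hJ)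
    have hl29 : 0 ≤ Real.log 29 := Real.log_nonneg (by norm_num)
    have q1 : 0 < 20 / m0 := by positivity
    have q2 : 0 < 4 / ε := by positivity
    have q3 : 0 < (3 + 9 * Real.log 29 + 4 * N) / (y : ℝ) := by positivity
    have q4 : 0 < 2 * (N : ℝ) / D0 := by positivity
    have r1 : 20 < m0 * J := by
      have : 20 / m0 < J := by linarith only [hJr, q2, q3, q4]
      rw [div_lt_iff₀ hm00] at this
      linarith only [this]
    have r2 : 4 < ε * J := by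
      have : 4 / ε < J := by linarith only [hJr, q1, q3, q4]
      rw [div_lt_iff₀ hε0] at this
      linarith only [this]
    have r3 : 3 + 9 * Real.log 29 + 4 * N < y * J := by
      have : (3 + 9 * Real.log 29 + 4 * N) / (y : ℝ) < J := by linarith only [hJr, q1, q2, q4]
      rw [div_lt_iff₀ hy0] at this
      linarith only [this]
    have r4 : 2 * (N : ℝ) < D0 * J := by
      have : 2 * (N : ℝ) / D0 < J := by linarith only [hJr, q1, q2, q3]
      rw [div_lt_iff₀ hD00] at this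
      linarith only [this]
    have hJ0 : (0 : ℝ) < J := by linarith only [hJr, q1, q2, q3, q4]
    rcases d1 with d1 | ⟨-, e, n, ζ, h1, h2⟩
    · linarith only [ht0, hcon, hgt, hD0, hεD, hCy, d1]
    obtain ⟨Pt, hPt⟩ : ∃ Pt, Pt = ⌊Q * J⌋₊ := ⟨_, rfl⟩
    obtain ⟨w, hw⟩ : ∃ w, w = ⌊(v : ℝ) * J⌋₊ := ⟨_, rfl⟩
    obtain ⟨l, hl⟩ : ∃ l, l = ⌊(s - ε) * J⌋₊ := ⟨_, rfl⟩
    have hPtJ : Pt ≤ J := by rw [hPt]; exact hQJ J
    rw [← hl, ← hPt] at h1
    rw [← hl, ← hPt, ← hw] at h2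
    obtain ⟨h', hh'⟩ : ∃ h', h' = ⌊m0 / 2 * J⌋₊ := ⟨_, rfl⟩
    obtain ⟨q, hq⟩ : ∃ q, q = ⌈m0 / 8 * J⌉₊ := ⟨_, rfl⟩
    have hq1 : m0 / 8 * J ≤ q := by rw [hq]; exact Nat.le_ceil _
    have hq2 : (q : ℝ) < m0 / 8 * J + 1 := by
      rw [hq]
      exact Nat.ceil_lt_add_one (by positivity)
    have hh1 : (h' : ℝ) ≤ m0 / 2 * J := by rw [hh']; exact Nat.floor_le (by positivity)
    have hm0J : m0 * J ≤ J := by
      calc m0 * J ≤ 1 * J := mul_le_mul_of_nonneg_right hm01 hJ0.le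
        _ = J := one_mul _
    have hqJ : q ≤ J := by
      have : (q : ℝ) ≤ J := by linarith only [hs1, ht0, hg, hD0, hε0, hεD, hCy, r1, hq2, hm0J]
      exact_mod_cast this
    have g1 : h' + q + 4 ≤ l := by
      rw [hl]
      refine Nat.le_floor ?_
      push_cast
      have : m0 * J ≤ (s - ε) * J := mul_le_mul_of_nonneg_right hm0s hJ0.le
      linarith only [hs1, ht0, hg, hD0, hε0, hεD, hCy, r1, hq2, hh1, this]
    have g2 : h' + q + 4 ≤ ⌊h₁ * J⌋₊ := by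
      refine Nat.le_floor ?_
      push_cast
      have : m0 * J ≤ h₁ * J := mul_le_mul_of_nonneg_right hm0h hJ0.le
      linarith only [hs1, ht0, hg, hD0, hε0, hεD, hCy, r1, hq2, hh1, this]
    obtain ⟨B, hB, hPB, hBs⟩ := d3 q hqJ hq1 (by omega)
    have hPB' : 1 / 2 * Pe F.p A ≤ Pe F.p B := by
      refine le_trans (le_of_eq ?_) hPB
      rw [Real.exp_neg, Real.exp_log (by norm_num)]
      norm_num
    have hB0 : 0 < Pe F.p B := lt_of_lt_of_le (by positivity) hPB'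
    have hline := line_row hPtJ hB hBs hfr h1 g1 g2
    have hbd : ∀ ω, B ω → ∀ j, |e (Pool.KS6.ptq F Pt ω) j| ≤ 2 := by
      intro ω hω j
      have a1 := slope_close hPtJ hB hBs hfr h1 g1 g2 ω hω j
      have a2 := hfr.bound ω (hB _ hω) j
      have a3 := inv_le_one (h' + 1)
      have := abs_sub_abs_le_abs_sub (e (Pool.KS6.ptq F Pt ω) j) (eb (Fam.pt F ω) j)
      linarith only [a1, a2, a3, this]
    obtain ⟨e', n', ζ', hF⟩ := exists_frm (h1.sub hB) (fun ω hω => h2 ω (hB ω hω)) hbd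
    obtain ⟨Pu, hPu⟩ : ∃ Pu, Pu = min Pt (l + w) := ⟨_, rfl⟩
    have hPu1 : Pu ≤ Pt := by rw [hPu]; exact min_le_left _ _
    have hPu2 : Pu ≤ l + w := by rw [hPu]; exact min_le_right _ _
    -- the scales
    obtain ⟨u, hu⟩ : ∃ u, u = J / N := ⟨_, rfl⟩
    have hu1 : N * u ≤ J := by rw [hu]; exact Nat.mul_div_le J N
    have hu2 : (J : ℝ) < N * (u + 1) := by
      have := Nat.lt_mul_div_succ J hN0
      rw [← hu] at this
      exact_mod_cast this
    have hu1r : (N : ℝ) * u ≤ J := by exact_mod_cast hu1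
    have hu0 : (0 : ℝ) ≤ u := Nat.cast_nonneg u
    have hwv : (w : ℝ) ≤ v * J := by
      rw [hw]
      refine Nat.floor_le ?_
      have : (0 : ℝ) < v := by linarith only [hyv', hε0, hεy]
      positivity
    have hwv2 : (v : ℝ) * J < w + 1 := by rw [hw]; exact Nat.lt_floor_add_one _
    have hww : w ≤ vn * u + N := by
      have h3 : (v : ℝ) * J ≤ vn * u + N := by
        have h4 : (v : ℝ) * J ≤ v * (N * (u + 1)) :=
          mul_le_mul_of_nonneg_left hu2.le (by linarith only [hyv', hε0, hεy])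
        have h5 : (v : ℝ) * (N * (u + 1)) = vn * u + vn := by rw [hvN]; ring
        have h6 : (vn : ℝ) ≤ N := by exact_mod_cast hvnN
        linarith only [h4, h5, h6]
      have : (w : ℝ) ≤ ((vn * u + N : ℕ) : ℝ) := by
        push_cast
        linarith only [hwv, h3]
      exact_mod_cast this
    have hlr : (s - ε) * J < l + 1 := by rw [hl]; exact Nat.lt_floor_add_one _
    have hjl : j * u + 2 ≤ l := by
      rw [hl]
      refine Nat.le_floor ?_
      push_cast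
      have h3 : (j : ℝ) * u ≤ (s - 2 * ε) * N * u := mul_le_mul_of_nonneg_right hj1 hu0
      have h4 : (s - 2 * ε) * (N * u) ≤ (s - 2 * ε) * J :=
        mul_le_mul_of_nonneg_left hu1r hs2.le
      have h5 : (s - 2 * ε) * N * u = (s - 2 * ε) * (N * u) := by ring
      have h6 : (s - 2 * ε) * J = (s - ε) * J - ε * J := by ring
      linarith only [hs1, ht0, hg, hD0, hε0, hεD, hCy, r2, h3, h4]
    -- fullness
    obtain ⟨f, nn, hlok⟩ := hF.lok hPtJ hPu1 hPu2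
    have hfull := hF.full hPu1 hPu2 (E := y / 4 * J) (by positivity) hB0 (fun hwP =>
      d5 B hB hPB' w l f nn Unit _ _ _ _ _ hlok Pt (by omega) hPtJ)
    have hbox := box_win (N := N) (w' := vn * u) hww
      (hF.box (kw := min w Pt) (min_le_left _ _) (min_le_right _ _) hPu1 hPu2)
    have hlineU : LineU i₀ (1 / 2 ^ (j * u))
        (fun ω => lbl i₀ Pt (min w Pt) Pu l e' n' (Pool.KS6.ptq F Pt ω)) F.d B := by
      refine (hF.line (min w Pt) Pu).mono ?_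
      have h3 : (1 : ℝ) / 2 ^ l ≤ 1 / 2 ^ (j * u + 2) := inv_mono hjl
      have h4 : (1 : ℝ) / 2 ^ (j * u + 2) = 1 / 2 ^ (j * u) / 4 := by
        rw [pow_add]
        field_simp
        norm_num
      have h5 : (3 : ℝ) / 2 ^ l = 3 * (1 / 2 ^ l) := by ring
      have h6 : (0 : ℝ) < 1 / 2 ^ (j * u) := by positivity
      rw [h4] at h3
      rw [h5]
      linarith only [h3, h6]
    rw [hh'] at hline
    have key := d4 B hB hPB' (by rw [hPt] at hline; exact hline) _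
      (fun ω => lbl i₀ Pt (min w Pt) Pu l e' n' (Pool.KS6.ptq F Pt ω))
      (fun i => if i = 0 then min w Pt else Pu) Pt (by rw [hPt]) (by
        intro i
        by_cases hi : i = 0
        · rw [if_pos hi]
          exact min_le_right _ _
        · rw [if_neg hi]
          exact hPu1) ⟨lbl i₀ Pt (min w Pt) Pu l e' n', fun ω _ => by rw [hPt]; rfl⟩
      (by rw [← hu]; exact hbox) (by rw [← hu]; exact hlineU) (by
        rw [← hu]
        have hp0 := (isLaw_cond F.isLaw hB0).nonneg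
        have z1 : CH (Pool.Agent.H49.Ent.cond F.p B True)
            (fun ω => lbl i₀ Pt (min w Pt) Pu l e' n' (Pool.KS6.ptq F Pt ω))
            (fun ω => (F.X Pt ω, F.W ω)) = 0 := by
          refine CH_eq_zero hp0 fun ω ω' _ _ hc => ?_
          have : Pool.KS6.ptq F Pt ω = Pool.KS6.ptq F Pt ω' := hc
          rw [this]
        rw [z1]
        have z2 : full Pt (fun i : Fin 3 => if i = 0 then min w Pt else Pu) =
            ((Pt : ℝ) - (min w Pt : ℕ)) * Real.log 2 + 2 * (((Pt : ℝ) - Pu) * Real.log 2) := by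
          unfold full
          rw [Fin.sum_univ_three]
          simp only [if_true, show ¬ ((1 : Fin 3) = 0) by decide, show ¬ ((2 : Fin 3) = 0) by decide,
            if_false]
          ring
        rw [z2]
        have hlog : Real.log 2 ≤ 0.7 := by
          have := Real.log_two_lt_d9
          linarith only [hs1, ht0, hg, hD0, hε0, hεD, hCy, this]
        have hlog0 : 0 < Real.log 2 := Real.log_pos one_lt_two
        have z3 : (Pt : ℝ) - Pu ≤ ε * J + 2 := by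
          rcases le_total Pt (l + w) with hc | hc
          · rw [hPu, min_eq_left hc, sub_self]
            positivity
          · rw [hPu, min_eq_right hc]
            push_cast
            have h3 : (Pt : ℝ) ≤ Q * J := by
              rw [hPt]
              refine Nat.floor_le ?_
              by_contra hneg
              push Not at hneg
              have h4 : Pt = 0 := by rw [hPt]; exact Nat.floor_of_nonpos hneg.le
              have h5 : 4 ≤ l := by omega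
              omega
            have h4 : Q * J ≤ (v + s) * J := by
              rw [← hs] at hQv
              exact mul_le_mul_of_nonneg_right hQv hJ0.le
            linarith only [hwv2, hlr, h3, h4]
        have z4 : (0 : ℝ) ≤ (Pt : ℝ) - Pu := by
          have : (Pu : ℝ) ≤ Pt := by exact_mod_cast hPu1
          linarith only [this]
        have z5 : ((Pt : ℝ) - Pu) * Real.log 2 ≤ (ε * J + 2) * 0.7 :=
          mul_le_mul z3 hlog hlog0.le (by positivity)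
        have z6 : ε * J ≤ y / 8 * J := mul_le_mul_of_nonneg_right hεy hJ0.le
        have z7 : ((yn * u : ℕ) : ℝ) ≤ y * J := by
          push_cast
          rw [hyN, mul_assoc]
          exact mul_le_mul_of_nonneg_left hu1r hy0.le
        have z8 : ((yn * u : ℕ) : ℝ) * Real.log 2 ≤ y * J * 0.7 :=
          mul_le_mul z7 hlog hlog0.le (by positivity)
        have z9 : 4 * (y * J - N) ≤ R / a * ((b * u : ℕ) : ℝ) := by
          have h3 : Cc * y * N * u ≤ ((b * u : ℕ) : ℝ) := by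
            push_cast
            exact mul_le_mul_of_nonneg_right hb1 hu0
          have h4 : R / a * (Cc * y * N * u) ≤ R / a * ((b * u : ℕ) : ℝ) :=
            mul_le_mul_of_nonneg_left h3 (by positivity)
          have h5 : R / a * (Cc * y * N * u) = 4 * (y * (N * u)) := by
            rw [← hCR]
            ring
          have h6 : (y : ℝ) * J - N ≤ y * (N * u) := by
            have h7 : (y : ℝ) * J ≤ y * (N * (u + 1)) := mul_le_mul_of_nonneg_left hu2.le hy0.le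
            have h8 : (y : ℝ) * N ≤ 1 * N := mul_le_mul_of_nonneg_right (by linarith only [hyv', hv1']) hNr.le
            have h9 : (y : ℝ) * (N * (u + 1)) = y * (N * u) + y * N := by ring
            linarith only [h7, h8]
          linarith only [h4, h5, h6]
        have h3c : ((3 : ℕ) : ℝ) = 3 := by norm_num
        rw [h3c]
        linarith only [hs1, ht0, hg, hD0, hε0, hεD, hCy, r2, r3, hfull, z5, z6, z8, z9])
    rw [← hu] at key
    refine ⟨B, hB, ?_, Or.inr ⟨by linarith only [hs1, hD0, hε0, hεD, hCy], ?_⟩⟩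
    · exact le_trans (mul_le_mul_of_nonneg_right hJδ (Pe_nonneg F.isLaw A)) hPB'
    · -- smaller precision, shorter windows
      have z1 : ⌊g * J⌋₊ ≤ (j - b) * u := by
        have h3 : g * J ≤ (((j - b) * u : ℕ) : ℝ) := by
          push_cast [Nat.cast_sub hbj]
          have h4 : (g + D0 / 2) * N * u ≤ ((j : ℝ) - b) * u :=
            mul_le_mul_of_nonneg_right hjb hu0
          have h5 : (g + D0 / 2) * J ≤ (g + D0 / 2) * (N * (u + 1)) :=
            mul_le_mul_of_nonneg_left hu2.le (by positivity)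
          have h6 : (g + D0 / 2) * N ≤ 1 * N :=
            mul_le_mul_of_nonneg_right (by linarith only [hs1, hD0, hε0, hεD, hCy]) hNr.le
          have h7 : (g + D0 / 2) * (N * (u + 1)) = (g + D0 / 2) * N * u + (g + D0 / 2) * N := by
            ring
          have h8 : (g + D0 / 2) * J = g * J + D0 * J / 2 := by ring
          linarith only [r4, h4, h5, h6]
        exact (Nat.floor_le_floor h3).trans (Nat.floor_natCast _).le
      have z2 : (vn - yn) * u ≤ ⌊((v - y : ℚ) : ℝ) * J⌋₊ := by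
        refine Nat.le_floor ?_
        push_cast [Nat.cast_sub hynvn]
        rw [hvN, hyN]
        have h3 : ((v : ℝ) - y) * (N * u) ≤ ((v : ℝ) - y) * J :=
          mul_le_mul_of_nonneg_left hu1r (by linarith only [hyv'])
        have h4 : ((v : ℝ) * N - y * N) * u = ((v : ℝ) - y) * (N * u) := by ring
        linarith only [h3]
      have z3 : ⌊((v - y : ℚ) : ℝ) * J⌋₊ ≤ J := by
        have h3 : ((v - y : ℚ) : ℝ) * J ≤ J := by
          push_cast
          have : ((v : ℝ) - y) * J ≤ 1 * J := mul_le_mul_of_nonneg_right (by linarith only [hv1', hε0, hεy]) hJ0.le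
          linarith only [this]
        exact (Nat.floor_le_floor h3).trans (Nat.floor_natCast J).le
      have z4 : (1 : ℝ) / 2 ^ ((j - b) * u) ≤ 1 / 2 ^ ⌊g * J⌋₊ := inv_mono z1
      obtain ⟨e₁, n₁, ζ₁, h3, h4⟩ := key
      refine ⟨e₁, n₁, fun s => ζ₁ (s.1, s.2.1, s.2.2 / 2 ^ (⌊((v - y : ℚ) : ℝ) * J⌋₊ -
        (vn - yn) * u)), fun ω hω k => (h3 ω hω k).trans z4, fun ω hω k => ?_⟩
      have h5 := h4 ω hω k
      rw [slam_coarse F z2 z3 ω] at h5
      exact h5.trans z4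
  linarith only [hcon, hg, fin]

end Pool.S6C.Bct

namespace Pool.S6C

/-- **(BCT)** -/
theorem bct_thm : BCTStmt := by
  intro S a R h₁ i₀ c s₂ r D σ hC Q hQ hQ1 hQD
  have hQ0 : 0 < Q := by linarith only [hQ]
  have ha := hC.a1
  have hR := hC.R0
  refine ⟨4 * a / R, by positivity, fun v y hy hyv hv1 hQv => ?_⟩
  have hv : v ≤ 1 := by
    have : (v : ℝ) ≤ 1 := hv1.trans hQ1
    exact_mod_cast this
  exact Bct.bct hC hQ1 (hC.row Q hQ0 hQ1 hQD) hy hyv hv hQv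

end Pool.S6C
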