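import Pool.Agent.H39.S6C.FulC
import Pool.Agent.H35.ZCL.Asec

/-!
# Implicit labels in boxes: fullness in a class
-/

set_option autoImplicit false

namespace Pool.S6C.Ful

open Finset Real
open Pool.Agent.H49.Ent Pool.Agent.H32.Dense Pool.STK Pool.KA Pool.KSAT Pool.K2S Pool.PB Pool.KS6
open Pool.ZCL (AzH azJ azJ_add floor_le_J)

/-- Base statements hold on all events of small cost. -/
theorem bas_events {m : ℕ} {S : PCl m} {Φ : Stat m} (h : Bas S Φ) :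
    ∃ κ : ℝ, 0 < κ ∧ Bas S (fun J F A => ∀ B : F.Ω → Prop, Sub B A →
      Real.exp (-(κ * J)) * Pe F.p A ≤ Pe F.p B → Φ J F B) := by
  obtain ⟨τ, hτ, J₁, h⟩ := h
  refine ⟨τ / 2, by positivity, τ / 2, by positivity, J₁, fun J hJ F A hA B hB hP => ?_⟩
  refine h J hJ F B ?_
  have h1 := S.res (τ' := τ / 2) (by positivity) hA hB hP
  rwa [add_halves] at h1

/-- **Fullness given an implicit label, in a class.** The directions are known to `pi - ζ` digits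
in the frames of the windows `w`, which is almost all that the fans of the row `Q` allow. -/
theorem full_cls {S : PCl 3} {a R h₁ : ℝ} {i₀ : Fin 3} {Q pi : ℝ} (H : AzH S a R h₁ i₀ Q pi)
    {w : ℝ} (hw0 : 0 ≤ w) (hwQ : w + max pi 0 < Q) {η : ℝ} (hη : 0 < η) :
    ∃ z₁ : ℝ, 0 < z₁ ∧ ∀ ζ : ℝ, 0 < ζ → ζ ≤ z₁ → Bas S (fun J F A =>
      ∀ (h : ⌊w * J⌋₊ + (⌊Q * J⌋₊ - ⌊w * J⌋₊ - ⌊(pi - ζ) * J⌋₊) ≤ J)
      (g n : F.Ω → Fin 3 → ℝ), Zfr F A i₀ ⌊Q * J⌋₊ ⌊w * J⌋₊ ⌊(pi - ζ) * J⌋₊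
        (⌊Q * J⌋₊ - ⌊w * J⌋₊ - ⌊(pi - ζ) * J⌋₊) h g n → ∀ (V : Type) (z : F.Ω → V),
      (∃ φ : (Fin 3 → ℤ) × (ℕ × F.ζ) → V, ∀ ω, A ω → z ω = φ (Pool.KS6.ptq F ⌊Q * J⌋₊ ω)) →
      (∀ ω ω', A ω → A ω' →
        slam (F.zm ⌊w * J⌋₊ (⌊Q * J⌋₊ - ⌊w * J⌋₊ - ⌊(pi - ζ) * J⌋₊) h
          (Box.plkC ⌊(pi - ζ) * J⌋₊ i₀) g) 0 ω =
        slam (F.zm ⌊w * J⌋₊ (⌊Q * J⌋₊ - ⌊w * J⌋₊ - ⌊(pi - ζ) * J⌋₊) h
          (Box.plkC ⌊(pi - ζ) * J⌋₊ i₀) g) 0 ω' → z ω = z ω') →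
      (((⌊Q * J⌋₊ : ℝ) - ⌊w * J⌋₊) + ((⌊Q * J⌋₊ : ℝ) - ⌊w * J⌋₊ - ⌊(pi - ζ) * J⌋₊)) *
        Real.log 2 - η * J ≤
        CH (Pool.Agent.H49.Ent.cond F.p A True) (F.X ⌊Q * J⌋₊)
          (fun ω => ((F.blab ⌊w * J⌋₊ (Box.plkC ⌊(pi - ζ) * J⌋₊ i₀) g ω, z ω), F.W ω))) := by
  classical
  obtain ⟨e, he⟩ : ∃ e, e = Q - w - max pi 0 := ⟨_, rfl⟩
  have he0 : 0 < e := by rw [he]; linarith
  obtain ⟨g₀, hg₀, hfull⟩ := full_ev H.a1 H.R0 H.ub H.h₁0 i₀ hη (half_pos he0)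
  obtain ⟨y, hy⟩ : ∃ y, y = min (g₀ / 4) (e / 2) := ⟨_, rfl⟩
  have hy0 : 0 < y := by rw [hy]; exact lt_min (by positivity) (by positivity)
  have hy1 : y ≤ g₀ / 4 := by rw [hy]; exact min_le_left _ _
  have hy2 : y ≤ e / 2 := by rw [hy]; exact min_le_right _ _
  -- no lines of higher precision
  obtain ⟨c₁, hc₁, Jn, hn⟩ := Clp.neg_base (S := S) (Q := capS 1 (qPi i₀ Q) (pi + y)) (by
    rintro J F A B hB (h1 | ⟨h1, h2⟩)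
    · exact Or.inl h1
    · exact Or.inr ⟨h1, LineU.hered _ _ _ _ _ _ hB h2⟩) (H.pi.2 y hy0)
  obtain ⟨τ₁, hτ₁, J₁, hev⟩ := hfull (c₁ / 2) (by positivity)
  obtain ⟨τ, hτ⟩ : ∃ τ, τ = min τ₁ (c₁ / 2) := ⟨_, rfl⟩
  have hτ0 : 0 < τ := by rw [hτ]; exact lt_min hτ₁ (by positivity)
  have hτ1 : τ ≤ τ₁ := by rw [hτ]; exact min_le_left _ _
  have hτ2 : τ ≤ c₁ / 2 := by rw [hτ]; exact min_le_right _ _
  obtain ⟨J₃, hJ₃⟩ := exists_nat_gt (2 / e + 8 / g₀)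
  refine ⟨g₀ / 4, by positivity, fun ζ hζ hζ1 => ⟨τ, hτ0, max J₁ (max Jn J₃), ?_⟩⟩
  intro J hJ F A hSt h g n hz V z hzv hzc
  have hJ1 : J₁ ≤ J := (le_max_left _ _).trans hJ
  have hJn : Jn ≤ J := (le_max_left _ _).trans ((le_max_right _ _).trans hJ)
  have hJ3 : 2 / e + 8 / g₀ < J :=
    hJ₃.trans_le (by exact_mod_cast (le_max_right _ _).trans ((le_max_right _ _).trans hJ))
  have q1 : 0 < 2 / e := by positivity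
  have q2 : 0 < 8 / g₀ := by positivity
  have hJr : (0 : ℝ) < J := by linarith
  have hgJ : 8 ≤ g₀ * J := by
    have : 8 / g₀ ≤ J := by linarith
    rw [div_le_iff₀ hg₀] at this
    linarith
  have hmax : max (pi - ζ) 0 ≤ max pi 0 := max_le_max (by linarith) le_rfl
  obtain ⟨hadd, hJ'⟩ := azJ_add (Q := Q) (w := w) (s := pi - ζ) he0 hw0
    (by rw [he]; linarith) (J := J) (by linarith)
  obtain ⟨J', hJ'e⟩ : ∃ J' : ℕ, J' = ⌊Q * J⌋₊ - ⌊w * J⌋₊ - ⌊(pi - ζ) * J⌋₊ := ⟨_, rfl⟩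
  have hadd' : ⌊w * J⌋₊ + (⌊Q * J⌋₊ - ⌊w * J⌋₊ - ⌊(pi - ζ) * J⌋₊) + ⌊(pi - ζ) * J⌋₊ =
      ⌊Q * J⌋₊ := hadd
  have h1 := hev J hJ1 F A (Fam.Stt.mono hτ1 (H.st _ _ _ _ hSt)) (H.lb _ _ _ _ hSt) ⌊Q * J⌋₊
    ⌊w * J⌋₊ ⌊(pi - ζ) * J⌋₊ (⌊Q * J⌋₊ - ⌊w * J⌋₊ - ⌊(pi - ζ) * J⌋₊) h g n hadd'
    (floor_le_J H.Q1 J) hJ' hz V z hzv hzc (by
      intro B hB hPB hline
      have hSt' : S.St c₁ J F B := by
        have h1 := S.res (τ' := c₁ / 2) (by positivity) hSt hB hPB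
        exact S.mono (by linarith) h1
      refine hn J hJn F B hSt' ?_
      rcases le_or_gt (pi + y) 0 with h0 | h0
      · exact Or.inl h0
      · right
        have hpim : pi ≤ max pi 0 := le_max_left _ _
        have hQ1 := H.Q1
        refine ⟨by linarith, LineU.mono hline ?_⟩
        have e1 : ⌊(pi + y) * (J : ℝ)⌋₊ + 2 ≤ ⌊(pi - ζ) * (J : ℝ)⌋₊ + ⌊g₀ * (J : ℝ)⌋₊ := by
          have f1 : (⌊(pi + y) * (J : ℝ)⌋₊ : ℝ) ≤ (pi + y) * J := Nat.floor_le (by positivity)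
          have f2 : (pi - ζ) * J < ⌊(pi - ζ) * (J : ℝ)⌋₊ + 1 := Nat.lt_floor_add_one _
          have f3 : g₀ * J < ⌊g₀ * (J : ℝ)⌋₊ + 1 := Nat.lt_floor_add_one _
          have f4 : ((⌊(pi + y) * (J : ℝ)⌋₊ + 2 : ℕ) : ℝ) <
              ((⌊(pi - ζ) * (J : ℝ)⌋₊ + ⌊g₀ * (J : ℝ)⌋₊ + 1 : ℕ) : ℝ) := by
            push_cast
            have f5 : (y + ζ) * J ≤ g₀ / 2 * J :=
              mul_le_mul_of_nonneg_right (by linarith) hJr.le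
            nlinarith
          have := Nat.cast_lt.1 f4
          omega
        have e2 : (4 : ℝ) / 2 ^ (⌊(pi - ζ) * (J : ℝ)⌋₊ + ⌊g₀ * (J : ℝ)⌋₊) ≤
            4 / 2 ^ (⌊(pi + y) * (J : ℝ)⌋₊ + 2) :=
          div_le_div_of_nonneg_left (by norm_num) (by positivity)
            (pow_le_pow_right₀ (by norm_num) e1)
        refine e2.trans (le_of_eq ?_)
        rw [pow_add]
        norm_num
        ring)
  have e3 : (((⌊Q * J⌋₊ : ℝ) - ⌊w * J⌋₊) + ((⌊Q * J⌋₊ : ℝ) - ⌊w * J⌋₊ - ⌊(pi - ζ) * J⌋₊)) =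
      2 * ((⌊Q * J⌋₊ - ⌊w * J⌋₊ - ⌊(pi - ζ) * J⌋₊ : ℕ) : ℝ) + ⌊(pi - ζ) * J⌋₊ := by
    have e4 : ((⌊w * J⌋₊ + (⌊Q * J⌋₊ - ⌊w * J⌋₊ - ⌊(pi - ζ) * J⌋₊) + ⌊(pi - ζ) * J⌋₊ : ℕ) : ℝ) =
        ⌊Q * J⌋₊ := by rw [hadd']
    rw [← e4]
    push_cast
    ring
  rw [e3]
  exact h1

end Pool.S6C.Ful
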