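import Pool.Agent.H64.KS6.Wfe
import Pool.Agent.H5.K3.BoxA
import Pool.Agent.H42.S6C.Defs

/-!
# The boxes of the frames of a row

The frames `(e, n)` at the points of precision `P` are known to `l` digits and their slopes are
functions of the windows `w`, to `l` digits. The label consists of the rounded frame and of the
position in the box of the frame: `kw = min w P` digits of the chart coordinate, and
`Pu = min P (w + l)` digits of the other coordinates of `x - e x_{i₀}`. The positions in the box are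
full.
-/

set_option autoImplicit false

namespace Pool.S6C.Bct

open Finset Real
open Pool.Agent.H49.Ent Pool.Agent.H32.Dense Pool.STK Pool.KA Pool.KSAT Pool.K2S Pool.PB Pool.KS6
open Pool.S6K.Wfe Pool.K3

variable {J : ℕ}

/-- A frame of the row `Pt`, with slopes known from the windows `w`. -/
structure Frm (F : Fam 3 J) (B : F.Ω → Prop) (i₀ : Fin 3) (Pt w l : ℕ)
    (e n : (Fin 3 → ℤ) × (ℕ × F.ζ) → Fin 3 → ℝ)
    (ζ : ((Fin 3 → ℝ) × (Fin 3 → ℝ)) × F.ζ × ℕ → Fin 3 → ℝ) : Prop where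
  on : ∀ ω, B ω → ∀ j, |F.d ω j - e (Pool.KS6.ptq F Pt ω) j * F.d ω i₀ -
    n (Pool.KS6.ptq F Pt ω) j| ≤ 1 / 2 ^ l
  win : ∀ ω, B ω → ∀ j, |e (Pool.KS6.ptq F Pt ω) j - ζ (slam F w ω) j| ≤ 1 / 2 ^ l
  bd : ∀ ω, B ω → ∀ j, |e (Pool.KS6.ptq F Pt ω) j| ≤ 2
  one : ∀ u, e u i₀ = 1
  off : ∀ u, n u i₀ = 0
  wone : ∀ v, ζ v i₀ = 1

/-- Normalisation of the chart coordinate. -/
theorem exists_frm {F : Fam 3 J} {B : F.Ω → Prop} {i₀ : Fin 3} {Pt w l : ℕ}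
    {e n : (Fin 3 → ℤ) × (ℕ × F.ζ) → Fin 3 → ℝ}
    {ζ : ((Fin 3 → ℝ) × (Fin 3 → ℝ)) × F.ζ × ℕ → Fin 3 → ℝ}
    (h1 : OnL i₀ (1 / 2 ^ l) (Pool.KS6.ptq F Pt) F.d B e n)
    (h2 : ∀ ω, B ω → ∀ j, |e (Pool.KS6.ptq F Pt ω) j - ζ (slam F w ω) j| ≤ 1 / 2 ^ l)
    (h3 : ∀ ω, B ω → ∀ j, |e (Pool.KS6.ptq F Pt ω) j| ≤ 2) :
    ∃ e' n' ζ', Frm F B i₀ Pt w l e' n' ζ' := by
  classical
  refine ⟨fun u => Function.update (e u) i₀ 1, fun u => Function.update (n u) i₀ 0,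
    fun v => Function.update (ζ v) i₀ 1, ?_, ?_, ?_, fun u => Function.update_self ..,
    fun u => Function.update_self .., fun u => Function.update_self ..⟩
  · intro ω hω j
    by_cases hj : j = i₀
    · subst hj
      rw [Function.update_self, Function.update_self]
      have : F.d ω j - 1 * F.d ω j - 0 = 0 := by ring
      rw [this, abs_zero]
      positivity
    · rw [Function.update_of_ne hj, Function.update_of_ne hj]
      exact h1 ω hω j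
  · intro ω hω j
    by_cases hj : j = i₀
    · subst hj
      rw [Function.update_self, Function.update_self, sub_self, abs_zero]
      positivity
    · rw [Function.update_of_ne hj, Function.update_of_ne hj]
      exact h2 ω hω j
  · intro ω hω j
    by_cases hj : j = i₀
    · subst hj
      rw [Function.update_self]
      norm_num
    · rw [Function.update_of_ne hj]
      exact h3 ω hω j

/-- Rounding. -/
noncomputable def rd (l : ℕ) (x : ℝ) : ℝ := (⌊(2 : ℝ) ^ l * x⌋ : ℤ) / 2 ^ l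

theorem rd_le (l : ℕ) (x : ℝ) : |x - rd l x| ≤ 1 / 2 ^ l := by
  have h0 : (0 : ℝ) < 2 ^ l := by positivity
  have h1 := Int.floor_le ((2 : ℝ) ^ l * x)
  have h2 := Int.lt_floor_add_one ((2 : ℝ) ^ l * x)
  have e1 : x - rd l x = (2 ^ l * x - ⌊(2 : ℝ) ^ l * x⌋) / 2 ^ l := by
    unfold rd
    field_simp
  rw [e1, abs_div, abs_of_pos h0]
  refine div_le_div_of_nonneg_right ?_ h0.le
  rw [abs_le]
  constructor <;> linarith

theorem inv_le_one (l : ℕ) : (1 : ℝ) / 2 ^ l ≤ 1 := by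
  rw [div_le_one (by positivity)]
  exact one_le_pow₀ (by norm_num)

/-- The covectors of the window. -/
noncomputable def zc (F : Fam 3 J) (i₀ : Fin 3) (w l : ℕ)
    (ζ : ((Fin 3 → ℝ) × (Fin 3 → ℝ)) × F.ζ × ℕ → Fin 3 → ℝ) (ω : F.Ω) (a j : Fin 3) : ℝ :=
  (if j = a then 1 else 0) - rd l (ζ (slam F w ω) a) * (if j = i₀ then 1 else 0)

theorem zc_sum (F : Fam 3 J) (i₀ : Fin 3) (w l : ℕ)
    (ζ : ((Fin 3 → ℝ) × (Fin 3 → ℝ)) × F.ζ × ℕ → Fin 3 → ℝ) (ω : F.Ω) (a : Fin 3)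
    (y : Fin 3 → ℝ) : ∑ j, zc F i₀ w l ζ ω a j * y j = y a - rd l (ζ (slam F w ω) a) * y i₀ := by
  unfold zc
  have : ∀ j, ((if j = a then (1 : ℝ) else 0) - rd l (ζ (slam F w ω) a) *
      (if j = i₀ then 1 else 0)) * y j = (if j = a then y j else 0) -
      rd l (ζ (slam F w ω) a) * (if j = i₀ then y j else 0) := by
    intro j
    split_ifs <;> ring
  simp only [this]
  rw [Finset.sum_sub_distrib, ← Finset.mul_sum]
  simp

section Frame

variable {F : Fam 3 J} {B : F.Ω → Prop} {i₀ : Fin 3} {Pt w l : ℕ}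
  {e n : (Fin 3 → ℤ) × (ℕ × F.ζ) → Fin 3 → ℝ}
  {ζ : ((Fin 3 → ℝ) × (Fin 3 → ℝ)) × F.ζ × ℕ → Fin 3 → ℝ}

theorem Frm.zeta (h : Frm F B i₀ Pt w l e n ζ) {ω : F.Ω} (hω : B ω) (j : Fin 3) :
    |e (Pool.KS6.ptq F Pt ω) j - rd l (ζ (slam F w ω) j)| ≤ 2 / 2 ^ l := by
  have h1 := h.win ω hω j
  have h2 := rd_le l (ζ (slam F w ω) j)
  have h3 : (2 : ℝ) / 2 ^ l = 1 / 2 ^ l + 1 / 2 ^ l := by ring
  rw [h3]
  exact (abs_sub_le _ (ζ (slam F w ω) j) _).trans (add_le_add h1 h2)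

theorem Frm.rz (h : Frm F B i₀ Pt w l e n ζ) {ω : F.Ω} (hω : B ω) (j : Fin 3) :
    |rd l (e (Pool.KS6.ptq F Pt ω) j) - rd l (ζ (slam F w ω) j)| ≤ 3 / 2 ^ l := by
  have h1 := h.zeta hω j
  have h2 := rd_le l (e (Pool.KS6.ptq F Pt ω) j)
  rw [abs_sub_comm] at h2
  have h3 : (3 : ℝ) / 2 ^ l = 1 / 2 ^ l + 2 / 2 ^ l := by ring
  rw [h3]
  exact (abs_sub_le _ (e (Pool.KS6.ptq F Pt ω) j) _).trans (add_le_add h2 h1)

theorem Frm.rbd (h : Frm F B i₀ Pt w l e n ζ) {ω : F.Ω} (hω : B ω) (j : Fin 3) :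
    |rd l (e (Pool.KS6.ptq F Pt ω) j)| ≤ 3 := by
  have h1 := h.bd ω hω j
  have h2 := rd_le l (e (Pool.KS6.ptq F Pt ω) j)
  have h3 := inv_le_one l
  have h4 := abs_sub_abs_le_abs_sub (rd l (e (Pool.KS6.ptq F Pt ω) j))
    (e (Pool.KS6.ptq F Pt ω) j)
  rw [abs_sub_comm] at h4
  linarith only [h1, h2, h3, h4]

theorem Frm.zbd (h : Frm F B i₀ Pt w l e n ζ) {ω : F.Ω} (hω : B ω) (j : Fin 3) :
    |rd l (ζ (slam F w ω) j)| ≤ 4 := by
  have h1 := h.bd ω hω j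
  have h2 := h.zeta hω j
  have h3 : (2 : ℝ) / 2 ^ l ≤ 2 := by
    have := inv_le_one l
    have e1 : (2 : ℝ) / 2 ^ l = 2 * (1 / 2 ^ l) := by ring
    rw [e1]
    linarith only [this]
  have h4 := abs_sub_abs_le_abs_sub (rd l (ζ (slam F w ω) j)) (e (Pool.KS6.ptq F Pt ω) j)
  rw [abs_sub_comm] at h4
  linarith only [h1, h2, h3, h4]

/-- The directions in terms of the rounded slopes. -/
theorem Frm.dir (h : Frm F B i₀ Pt w l e n ζ) {ω : F.Ω} (hω : B ω) (j : Fin 3) :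
    |F.d ω j - rd l (e (Pool.KS6.ptq F Pt ω) j) * F.d ω i₀ -
      rd l (n (Pool.KS6.ptq F Pt ω) j)| ≤ 3 / 2 ^ l := by
  have h1 := h.on ω hω j
  have h2 := rd_le l (e (Pool.KS6.ptq F Pt ω) j)
  have h3 := rd_le l (n (Pool.KS6.ptq F Pt ω) j)
  have h4 := F.dir ω i₀
  obtain ⟨e₁, he₁⟩ : ∃ e₁, e₁ = e (Pool.KS6.ptq F Pt ω) j := ⟨_, rfl⟩
  obtain ⟨n₁, hn₁⟩ : ∃ n₁, n₁ = n (Pool.KS6.ptq F Pt ω) j := ⟨_, rfl⟩
  rw [← he₁] at h1 h2 ⊢
  rw [← hn₁] at h1 h3 ⊢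
  have e1 : F.d ω j - rd l e₁ * F.d ω i₀ - rd l n₁ = (F.d ω j - e₁ * F.d ω i₀ - n₁) +
      ((e₁ - rd l e₁) * F.d ω i₀ + (n₁ - rd l n₁)) := by ring
  have h5 : |(e₁ - rd l e₁) * F.d ω i₀| ≤ 1 / 2 ^ l := by
    rw [abs_mul]
    calc _ ≤ 1 / 2 ^ l * 1 := mul_le_mul h2 h4 (abs_nonneg _) (by positivity)
      _ = _ := mul_one _
  rw [e1]
  refine (abs_add_le _ _).trans ?_
  have h6 := abs_add_le ((e₁ - rd l e₁) * F.d ω i₀) (n₁ - rd l n₁)
  have h7 : (3 : ℝ) / 2 ^ l = 1 / 2 ^ l + (1 / 2 ^ l + 1 / 2 ^ l) := by ring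
  rw [h7]
  linarith only [h3, h1, h5, h6]

/-- The covectors of the window form a label in the sense of the fullness theorem. -/
theorem Frm.lok (h : Frm F B i₀ Pt w l e n ζ) (hPJ : Pt ≤ J) {Pu : ℕ} (hPu : Pu ≤ Pt)
    (hPw : Pu ≤ l + w) :
    ∃ f n' : (Fin 3 → ℤ) × (ℕ × F.ζ) → Fin 3 → ℝ,
      LOK F B i₀ w 0 l f n' (fun _ : Fin 3 => Pu) (fun _ => l) (fun _ => l)
        (zc F i₀ w l ζ) (fun _ => ()) 5 2 (3 * (3 * Real.log (2 * (2 * 2) + 1))) := by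
  obtain ⟨φ, hφ'⟩ := ptr_coarse F hPJ
  have hφ : ∀ ω, Pool.KS6.ptq F Pt ω = φ (Fam.pt F ω) := hφ'
  have hl0 : (0 : ℝ) < 2 ^ l := by positivity
  refine ⟨fun u => e (φ u), fun u => n (φ u), ⟨fun _ => hPu.trans hPJ, fun _ => hPw,
    fun _ => Nat.le_add_right _ _, fun _ => le_rfl, ?_, ?_, ?_, ?_, ?_⟩⟩
  · intro ω hω j
    have := h.on ω hω j
    rwa [hφ] at this
  · intro ω hω a j
    have h1 := h.zbd hω a
    unfold zc
    have h2 : |(if j = a then (1 : ℝ) else 0)| ≤ 1 := by split_ifs <;> norm_num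
    have h3 : |rd l (ζ (slam F w ω) a) * (if j = i₀ then (1 : ℝ) else 0)| ≤ 4 := by
      split_ifs
      · rwa [mul_one]
      · rw [mul_zero, abs_zero]; norm_num
    exact (abs_sub _ _).trans (by linarith only [h2, h3])
  · intro ω hω a
    rw [zc_sum]
    have h1 := h.zeta hω a
    rw [hφ] at h1
    rw [h.one, mul_one]
    exact h1
  · intro ω ω' _ _ hw
    have a1 := Prod.ext_iff.1 hw
    have a2 := Prod.ext_iff.1 a1.2
    have e1 : slam F w ω = slam F w ω' := Prod.ext a1.1 (Prod.ext a2.2 a2.1)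
    change (zc F i₀ w l ζ ω, ()) = (zc F i₀ w l ζ ω', ())
    unfold zc
    rw [e1]
  · intro B' hB' hB0
    have h1 := grid_vis F i₀ 0 (A := B) (k := fun _ _ => l) (z := zc F i₀ w l ζ)
      (φ := fun u a j => (if j = a then 1 else 0) - e (φ u) a * (if j = i₀ then 1 else 0))
      (E := 2) (by
        intro ω a j
        unfold zc rd
        refine ⟨(if j = a then 2 ^ l else 0) - ⌊(2 : ℝ) ^ l * ζ (slam F w ω) a⌋ *
          (if j = i₀ then 1 else 0), ?_⟩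
        split_ifs <;> push_cast <;> field_simp <;> ring) (by
        intro ω hω a j
        unfold zc
        have h2 := h.zeta hω a
        rw [hφ] at h2
        have h3 : (if j = a then (1 : ℝ) else 0) - rd l (ζ (slam F w ω) a) *
            (if j = i₀ then 1 else 0) - ((if j = a then 1 else 0) - e (φ (Fam.pt F ω)) a *
            (if j = i₀ then 1 else 0)) = (e (φ (Fam.pt F ω)) a - rd l (ζ (slam F w ω) a)) *
            (if j = i₀ then 1 else 0) := by ring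
        rw [h3]
        split_ifs
        · rwa [mul_one]
        · rw [mul_zero, abs_zero]; positivity) B' hB' hB0
    refine le_trans (CH_mono_left (cond_nonneg F.isLaw.nonneg B' True) ?_) (h1.trans ?_)
    · intro ω ω' _ _ e1
      have e2 := (Prod.ext_iff.1 e1).1
      exact Prod.ext e2 rfl
    · exact le_of_eq (by push_cast; ring)

end Frame

/-! ### The label -/

/-- The label: the rounded frame, and the position in its box. -/
noncomputable def lbl {U : Type} (i₀ : Fin 3) (Pt kw Pu l : ℕ)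
    (e n : (Fin 3 → ℤ) × U → Fin 3 → ℝ) (u : (Fin 3 → ℤ) × U) :
    (Fin 3 → ℤ) × ((Fin 3 → ℤ) × (Fin 3 → ℤ)) :=
  (fun j => ⌊(2 : ℝ) ^ l * e u j⌋, (fun j => ⌊(2 : ℝ) ^ l * n u j⌋,
    fun j => if j = i₀ then ⌊(2 : ℝ) ^ kw * ((u.1 i₀ : ℝ) / 2 ^ Pt)⌋ else
      ⌊(2 : ℝ) ^ Pu * ((u.1 j : ℝ) / 2 ^ Pt - rd l (e u j) * ((u.1 i₀ : ℝ) / 2 ^ Pt))⌋))

theorem X_rd (F : Fam 3 J) (Pt : ℕ) (ω : F.Ω) (j : Fin 3) :
    ((Pool.KS6.ptq F Pt ω).1 j : ℝ) / 2 ^ Pt = rd Pt (F.x ω j) := rfl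

section Frame

variable {F : Fam 3 J} {B : F.Ω → Prop} {i₀ : Fin 3} {Pt w l : ℕ}
  {e n : (Fin 3 → ℤ) × (ℕ × F.ζ) → Fin 3 → ℝ}
  {ζ : ((Fin 3 → ℝ) × (Fin 3 → ℝ)) × F.ζ × ℕ → Fin 3 → ℝ}

/-- The label determines the line of directions. -/
theorem Frm.line (h : Frm F B i₀ Pt w l e n ζ) (kw Pu : ℕ) :
    LineU i₀ (3 / 2 ^ l) (fun ω => lbl i₀ Pt kw Pu l e n (Pool.KS6.ptq F Pt ω)) F.d B := by
  refine ⟨fun s j => (s.1 j : ℝ) / 2 ^ l, fun s j => (s.2.1 j : ℝ) / 2 ^ l, fun ω hω j => ?_⟩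
  exact h.dir hω j

/-- The box of the label. -/
theorem Frm.box (h : Frm F B i₀ Pt w l e n ζ) {kw Pu : ℕ} (hkw : kw ≤ w) (hkP : kw ≤ Pt)
    (hPu : Pu ≤ Pt) (hPw : Pu ≤ l + w) :
    BoxL F.x F.d B (fun ω => lbl i₀ Pt kw Pu l e n (Pool.KS6.ptq F Pt ω)) (Equiv.swap 0 i₀)
      (fun i => if i = 0 then kw else Pu) w 5 := by
  classical
  have hw0 : (0 : ℝ) < 2 ^ w := by positivity
  have hk0 : (0 : ℝ) < 2 ^ kw := by positivity
  have hu0 : (0 : ℝ) < 2 ^ Pu := by positivity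
  have hl0 : (0 : ℝ) < 2 ^ l := by positivity
  refine ⟨fun s i j => if j = 0 then -(if |(s.1 (Equiv.swap 0 i₀ i) : ℝ) / 2 ^ l| ≤ 3 then
      (s.1 (Equiv.swap 0 i₀ i) : ℝ) / 2 ^ l else 0) else 0,
    fun s i => if i = 0 then (s.2.2 i₀ : ℝ) / 2 ^ kw else
      (s.2.2 (Equiv.swap 0 i₀ i) : ℝ) / 2 ^ Pu +
        (s.1 (Equiv.swap 0 i₀ i) : ℝ) / 2 ^ l * ((s.2.2 i₀ : ℝ) / 2 ^ kw),
    fun s i => if i = 0 then 0 else (s.2.1 (Equiv.swap 0 i₀ i) : ℝ) / 2 ^ l, ?_, ?_⟩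
  · intro s i j
    beta_reduce
    by_cases hj : j = 0
    · rw [if_pos hj, abs_neg]
      by_cases h3 : |(s.1 (Equiv.swap 0 i₀ i) : ℝ) / 2 ^ l| ≤ 3
      · rw [if_pos h3]; linarith only [h3]
      · rw [if_neg h3, abs_zero]; norm_num
    · rw [if_neg hj, abs_zero]; norm_num
  · intro ω hω i
    by_cases hi : i = 0
    · subst hi
      have hs : ∀ f : Fin 3 → ℝ, ∑ j : Fin 3, (if j < 0 then f j else 0) = 0 := fun f =>
        Finset.sum_eq_zero fun j _ => by rw [if_neg (by simp)]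
      rw [hs, hs, add_zero, add_zero]
      simp only [if_true, Equiv.swap_apply_left, sub_zero]
      constructor
      · have h1 := rd_le Pt (F.x ω i₀)
        have h2 := rd_le kw (rd Pt (F.x ω i₀))
        have h3 : (1 : ℝ) / 2 ^ Pt ≤ 1 / 2 ^ kw := inv_mono hkP
        have e1 : (((lbl i₀ Pt kw Pu l e n (Pool.KS6.ptq F Pt ω)).2.2 i₀ : ℤ) : ℝ) / 2 ^ kw =
            rd kw (rd Pt (F.x ω i₀)) := by
          unfold lbl
          simp only [if_true]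
          rfl
        rw [e1]
        have h4 := abs_sub_le (F.x ω i₀) (rd Pt (F.x ω i₀)) (rd kw (rd Pt (F.x ω i₀)))
        have h5 : (5 : ℝ) / 2 ^ kw = 5 * (1 / 2 ^ kw) := by ring
        have h6 : (0 : ℝ) < 1 / 2 ^ kw := by positivity
        rw [h5]
        linarith only [h1, h2, h3, h4, h6]
      · refine (F.dir ω i₀).trans ?_
        rw [le_div_iff₀ hk0, one_mul]
        have h1 : (2 : ℝ) ^ kw ≤ 2 ^ w := pow_le_pow_right₀ (by norm_num) hkw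
        linarith only [hw0, h1]
    · have hs : ∀ f : Fin 3 → ℝ, (∀ j, j ≠ 0 → f j = 0) →
          ∑ j : Fin 3, (if j < i then f j else 0) = f 0 := by
        intro f hf
        rw [Finset.sum_eq_single 0]
        · rw [if_pos (Fin.pos_of_ne_zero hi)]
        · intro j _ hj
          rw [hf j hj]
          simp
        · intro h0
          exact absurd (Finset.mem_univ _) h0
      obtain ⟨j, hj⟩ : ∃ j, j = Equiv.swap 0 i₀ i := ⟨_, rfl⟩
      have hji : j ≠ i₀ := by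
        rw [hj]
        intro h0
        have : i = 0 := by
          have h1 := congrArg (Equiv.swap 0 i₀) h0
          rwa [Equiv.swap_apply_self, Equiv.swap_apply_right] at h1
        exact hi this
      rw [hs _ (fun j hj => by beta_reduce; rw [if_neg hj, zero_mul]),
        hs _ (fun j hj => by beta_reduce; rw [if_neg hj, zero_mul])]
      simp only [if_true, if_neg hi, Equiv.swap_apply_left, ← hj]
      have hb := h.rbd hω j
      have e0 : (((lbl i₀ Pt kw Pu l e n (Pool.KS6.ptq F Pt ω)).1 j : ℤ) : ℝ) / 2 ^ l =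
          rd l (e (Pool.KS6.ptq F Pt ω) j) := rfl
      have e2 : (((lbl i₀ Pt kw Pu l e n (Pool.KS6.ptq F Pt ω)).2.1 j : ℤ) : ℝ) / 2 ^ l =
          rd l (n (Pool.KS6.ptq F Pt ω) j) := rfl
      have e3 : (((lbl i₀ Pt kw Pu l e n (Pool.KS6.ptq F Pt ω)).2.2 j : ℤ) : ℝ) / 2 ^ Pu =
          rd Pu (rd Pt (F.x ω j) - rd l (e (Pool.KS6.ptq F Pt ω) j) * rd Pt (F.x ω i₀)) := by
        unfold lbl
        simp only [if_neg hji]
        rfl
      rw [e0, if_pos hb, e2, e3]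
      obtain ⟨E, hE⟩ : ∃ E, E = rd l (e (Pool.KS6.ptq F Pt ω) j) := ⟨_, rfl⟩
      have hd := h.dir hω j
      rw [← hE] at hb hd ⊢
      constructor
      · obtain ⟨c0, hc0⟩ : ∃ c0, c0 = (((lbl i₀ Pt kw Pu l e n
          (Pool.KS6.ptq F Pt ω)).2.2 i₀ : ℤ) : ℝ) / 2 ^ kw := ⟨_, rfl⟩
        rw [← hc0]
        have h1 := rd_le Pt (F.x ω i₀)
        have h2 := rd_le Pt (F.x ω j)
        have h3 := rd_le Pu (rd Pt (F.x ω j) - E * rd Pt (F.x ω i₀))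
        have h4 : (1 : ℝ) / 2 ^ Pt ≤ 1 / 2 ^ Pu := inv_mono hPu
        obtain ⟨y, hy⟩ : ∃ y, y = rd Pt (F.x ω j) - E * rd Pt (F.x ω i₀) := ⟨_, rfl⟩
        rw [← hy] at h3 ⊢
        have e4 : F.x ω j - (rd Pu y + E * c0) + -E * (F.x ω i₀ - c0) =
            (F.x ω j - rd Pt (F.x ω j)) + ((y - rd Pu y) - E * (F.x ω i₀ - rd Pt (F.x ω i₀))) := by
          rw [hy]
          ring
        rw [e4]
        have h5 : |E * (F.x ω i₀ - rd Pt (F.x ω i₀))| ≤ 3 * (1 / 2 ^ Pu) := by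
          rw [abs_mul]
          exact mul_le_mul hb (h1.trans h4) (abs_nonneg _) (by norm_num)
        refine (abs_add_le _ _).trans ?_
        have h6 := abs_sub (y - rd Pu y) (E * (F.x ω i₀ - rd Pt (F.x ω i₀)))
        have h7 : (5 : ℝ) / 2 ^ Pu = 5 * (1 / 2 ^ Pu) := by ring
        rw [h7]
        linarith only [h2, h4, h3, h5, h6]
      · have e4 : F.d ω j - rd l (n (Pool.KS6.ptq F Pt ω) j) + -E * (F.d ω i₀ - 0) =
            F.d ω j - E * F.d ω i₀ - rd l (n (Pool.KS6.ptq F Pt ω) j) := by ring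
        rw [e4]
        refine hd.trans ?_
        rw [div_le_div_iff₀ hl0 hu0]
        have h1 : (2 : ℝ) ^ Pu ≤ 2 ^ w * 2 ^ l := by
          rw [← pow_add]
          exact pow_le_pow_right₀ (by norm_num) (by omega)
        nlinarith only [hu0, h1]

end Frame

/-! ### The label in the context of the window -/

theorem rd_diff {l : ℕ} {x y K : ℝ} (h : |x - y| ≤ K / 2 ^ l) :
    |((⌊(2 : ℝ) ^ l * x⌋ - ⌊(2 : ℝ) ^ l * y⌋ : ℤ) : ℝ)| ≤ K + 1 := by
  refine Pool.S6K.Wfe.floor_diff ?_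
  rw [← mul_sub, abs_mul, abs_of_pos (by positivity : (0 : ℝ) < 2 ^ l)]
  rw [le_div_iff₀ (by positivity)] at h
  linarith only [h]

theorem rd_eq {l : ℕ} {x y : ℝ} (h : ⌊(2 : ℝ) ^ l * x⌋ = ⌊(2 : ℝ) ^ l * y⌋) :
    |x - y| ≤ 1 / 2 ^ l := by
  have h1 := floor_eq_abs h
  rw [← mul_sub, abs_mul, abs_of_pos (by positivity : (0 : ℝ) < 2 ^ l)] at h1
  rw [le_div_iff₀ (by positivity)]
  linarith only [h1]

/-- The context of the window. -/
noncomputable def ctx (F : Fam 3 J) (i₀ : Fin 3) (w l Pu : ℕ)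
    (ζ : ((Fin 3 → ℝ) × (Fin 3 → ℝ)) × F.ζ × ℕ → Fin 3 → ℝ) (ω : F.Ω) :=
  ((⌊(2 : ℝ) ^ (0 + w) * F.x ω i₀⌋, labt F w (fun _ : Fin 3 => Pu) (fun _ => l)
    (zc F i₀ w l ζ) (fun _ => ()) ω), (⌊(2 : ℝ) ^ 0 * F.d ω i₀⌋, F.T ω))

theorem ctx_eq {F : Fam 3 J} {i₀ : Fin 3} {w l Pu : ℕ}
    {ζ : ((Fin 3 → ℝ) × (Fin 3 → ℝ)) × F.ζ × ℕ → Fin 3 → ℝ} {ω ω' : F.Ω}
    (h : ctx F i₀ w l Pu ζ ω = ctx F i₀ w l Pu ζ ω') :
    F.W ω = F.W ω' ∧ |F.x ω i₀ - F.x ω' i₀| ≤ 1 / 2 ^ w ∧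
      (∀ j, j ≠ i₀ → rd l (ζ (slam F w ω) j) = rd l (ζ (slam F w ω') j)) ∧
      (∀ j, j ≠ i₀ → |(F.x ω j - F.x ω' j) - rd l (ζ (slam F w ω) j) *
        (F.x ω i₀ - F.x ω' i₀)| ≤ 1 / 2 ^ Pu) ∧
      (∀ j, j ≠ i₀ → |(F.d ω j - F.d ω' j) - rd l (ζ (slam F w ω) j) *
        (F.d ω i₀ - F.d ω' i₀)| ≤ 1 / 2 ^ l) := by
  have a0 := Prod.ext_iff.1 h
  have a1 := Prod.ext_iff.1 a0.1
  have a2 := Prod.ext_iff.1 a0.2
  have b0 := Prod.ext_iff.1 a1.2
  have b1 := Prod.ext_iff.1 b0.1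
  have b2 := Prod.ext_iff.1 (Prod.ext_iff.1 b1.1).2
  have b3 := Prod.ext_iff.1 b1.2
  have hz : zc F i₀ w l ζ ω = zc F i₀ w l ζ ω' := b2.1
  have hr : ∀ j, j ≠ i₀ → rd l (ζ (slam F w ω) j) = rd l (ζ (slam F w ω') j) := by
    intro j hj
    have h1 := congrFun (congrFun hz j) i₀
    unfold zc at h1
    simp only [if_true, if_neg (Ne.symm hj)] at h1
    linarith only [h1]
  refine ⟨Prod.ext a2.2 b0.2, ?_, hr, ?_, ?_⟩
  · have h1 := rd_eq a1.1
    rwa [Nat.zero_add] at h1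
  · intro j hj
    have h1 : ⌊(2 : ℝ) ^ Pu * ∑ k, zc F i₀ w l ζ ω j k * F.x ω k⌋ =
        ⌊(2 : ℝ) ^ Pu * ∑ k, zc F i₀ w l ζ ω' j k * F.x ω' k⌋ := congrFun b3.1 j
    have h2 := rd_eq h1
    rw [zc_sum, zc_sum, ← hr j hj] at h2
    have e1 : (F.x ω j - F.x ω' j) - rd l (ζ (slam F w ω) j) * (F.x ω i₀ - F.x ω' i₀) =
        F.x ω j - rd l (ζ (slam F w ω) j) * F.x ω i₀ -
          (F.x ω' j - rd l (ζ (slam F w ω) j) * F.x ω' i₀) := by ring
    rw [e1]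
    exact h2
  · intro j hj
    have h1 : ⌊(2 : ℝ) ^ l * ∑ k, zc F i₀ w l ζ ω j k * F.d ω k⌋ =
        ⌊(2 : ℝ) ^ l * ∑ k, zc F i₀ w l ζ ω' j k * F.d ω' k⌋ := congrFun b3.2 j
    have h2 := rd_eq h1
    rw [zc_sum, zc_sum, ← hr j hj] at h2
    have e1 : (F.d ω j - F.d ω' j) - rd l (ζ (slam F w ω) j) * (F.d ω i₀ - F.d ω' i₀) =
        F.d ω j - rd l (ζ (slam F w ω) j) * F.d ω i₀ -
          (F.d ω' j - rd l (ζ (slam F w ω) j) * F.d ω' i₀) := by ring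
    rw [e1]
    exact h2

section Frame

variable {F : Fam 3 J} {B : F.Ω → Prop} {i₀ : Fin 3} {Pt w l : ℕ}
  {e n : (Fin 3 → ℤ) × (ℕ × F.ζ) → Fin 3 → ℝ}
  {ζ : ((Fin 3 → ℝ) × (Fin 3 → ℝ)) × F.ζ × ℕ → Fin 3 → ℝ}

theorem Frm.ent (h : Frm F B i₀ Pt w l e n ζ) {kw Pu : ℕ} (hkw : kw ≤ w) (hkP : kw ≤ Pt)
    (hPu : Pu ≤ Pt) (hPw : Pu ≤ l + w) {p : F.Ω → ℝ} (hp : IsLaw p)
    (hB : ∀ ω, 0 < p ω → B ω) :
    CH p (fun ω => lbl i₀ Pt kw Pu l e n (Pool.KS6.ptq F Pt ω)) (ctx F i₀ w l Pu ζ) ≤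
      9 * Real.log 29 := by
  classical
  have hp0 := hp.nonneg
  have h1 := hp.sum_one
  obtain ⟨z, hz⟩ : ∃ z : F.Ω → _, z = fun ω => lbl i₀ Pt kw Pu l e n (Pool.KS6.ptq F Pt ω) :=
    ⟨_, rfl⟩
  rw [← hz]
  have hw0 : (0 : ℝ) < 2 ^ w := by positivity
  have hk0 : (0 : ℝ) < 2 ^ kw := by positivity
  have hu0 : (0 : ℝ) < 2 ^ Pu := by positivity
  have hl0 : (0 : ℝ) < 2 ^ l := by positivity
  have hone : ∀ ω, rd l (e (Pool.KS6.ptq F Pt ω) i₀) = 1 := by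
    intro ω
    rw [h.one]
    unfold rd
    rw [mul_one]
    have : ((⌊(2 : ℝ) ^ l⌋ : ℤ) : ℝ) = 2 ^ l := by
      have : (2 : ℝ) ^ l = ((2 ^ l : ℤ) : ℝ) := by push_cast; rfl
      rw [this, Int.floor_intCast]
    rw [this, div_self hl0.ne']
  -- the slopes
  have c1 : CH p (fun ω => (z ω).1) (ctx F i₀ w l Pu ζ) ≤ 3 * Real.log 29 := by
    have h2 := CH_le_vec hp0 h1 (fun ω => (z ω).1) (ctx F i₀ w l Pu ζ) (fun _ => 14) (by
      intro ω ω' hω hω' hc j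
      obtain ⟨-, -, hr, -, -⟩ := ctx_eq hc
      by_cases hj : j = i₀
      · subst hj
        have e1 : (z ω).1 j = (z ω').1 j := by
          rw [hz]
          change ⌊(2 : ℝ) ^ l * e _ j⌋ = ⌊(2 : ℝ) ^ l * e _ j⌋
          rw [h.one, h.one]
        rw [e1, sub_self]
        norm_num
      · have a1 := h.rz (hB ω hω) j
        have a2 := h.rz (hB ω' hω') j
        have a3 := hr j hj
        have e1 : rd l (e (Pool.KS6.ptq F Pt ω) j) - rd l (e (Pool.KS6.ptq F Pt ω') j) =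
            (((z ω).1 j - (z ω').1 j : ℤ) : ℝ) / 2 ^ l := by
          rw [hz]
          unfold rd lbl
          push_cast
          ring
        have a4 : |rd l (e (Pool.KS6.ptq F Pt ω) j) - rd l (e (Pool.KS6.ptq F Pt ω') j)| ≤
            6 / 2 ^ l := by
          have e2 : rd l (e (Pool.KS6.ptq F Pt ω) j) - rd l (e (Pool.KS6.ptq F Pt ω') j) =
              (rd l (e (Pool.KS6.ptq F Pt ω) j) - rd l (ζ (slam F w ω) j)) -
              (rd l (e (Pool.KS6.ptq F Pt ω') j) - rd l (ζ (slam F w ω') j)) := by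
            rw [a3]
            ring
          rw [e2]
          refine (abs_sub _ _).trans ?_
          have : (6 : ℝ) / 2 ^ l = 3 / 2 ^ l + 3 / 2 ^ l := by ring
          rw [this]
          exact add_le_add a1 a2
        rw [e1, abs_div, abs_of_pos hl0, div_le_div_iff_of_pos_right hl0] at a4
        linarith only [a4])
    rw [Ex_const h1] at h2
    norm_num at h2
    exact h2
  -- two samples with the same slopes
  have two : ∀ ω ω', 0 < p ω → 0 < p ω' → ((z ω).1, ctx F i₀ w l Pu ζ ω) =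
      ((z ω').1, ctx F i₀ w l Pu ζ ω') → ∀ j, j ≠ i₀ →
      rd l (e (Pool.KS6.ptq F Pt ω) j) = rd l (e (Pool.KS6.ptq F Pt ω') j) ∧
      |(F.x ω j - F.x ω' j) - rd l (e (Pool.KS6.ptq F Pt ω) j) * (F.x ω i₀ - F.x ω' i₀)| ≤
        4 / 2 ^ Pu ∧
      |(F.d ω j - F.d ω' j) - rd l (e (Pool.KS6.ptq F Pt ω) j) * (F.d ω i₀ - F.d ω' i₀)| ≤
        7 / 2 ^ l := by
    intro ω ω' hω hω' hc j hj
    obtain ⟨g1, g2⟩ := Prod.ext_iff.1 hc
    obtain ⟨-, g3, hr, g4, g5⟩ := ctx_eq g2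
    have a1 := h.rz (hB ω hω) j
    have a4 := g4 j hj
    have a5 := g5 j hj
    refine ⟨?_, ?_, ?_⟩
    · have e1 : (z ω).1 j = (z ω').1 j := congrFun g1 j
      rw [hz] at e1
      unfold rd
      unfold lbl at e1
      dsimp only at e1
      rw [e1]
    · have e1 : (F.x ω j - F.x ω' j) - rd l (e (Pool.KS6.ptq F Pt ω) j) *
          (F.x ω i₀ - F.x ω' i₀) = ((F.x ω j - F.x ω' j) - rd l (ζ (slam F w ω) j) *
          (F.x ω i₀ - F.x ω' i₀)) - (rd l (e (Pool.KS6.ptq F Pt ω) j) -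
          rd l (ζ (slam F w ω) j)) * (F.x ω i₀ - F.x ω' i₀) := by ring
      rw [e1]
      refine (abs_sub _ _).trans ?_
      rw [abs_mul]
      have b1 : |rd l (e (Pool.KS6.ptq F Pt ω) j) - rd l (ζ (slam F w ω) j)| *
          |F.x ω i₀ - F.x ω' i₀| ≤ 3 / 2 ^ l * (1 / 2 ^ w) :=
        mul_le_mul a1 g3 (abs_nonneg _) (by positivity)
      have b2 : (3 : ℝ) / 2 ^ l * (1 / 2 ^ w) ≤ 3 / 2 ^ Pu := by
        rw [div_mul_div_comm, mul_one, ← pow_add]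
        exact div_le_div_of_nonneg_left (by norm_num) (by positivity)
          (pow_le_pow_right₀ (by norm_num) hPw)
      have b3 : (4 : ℝ) / 2 ^ Pu = 1 / 2 ^ Pu + 3 / 2 ^ Pu := by ring
      rw [b3]
      linarith only [a4, b1, b2]
    · have e1 : (F.d ω j - F.d ω' j) - rd l (e (Pool.KS6.ptq F Pt ω) j) *
          (F.d ω i₀ - F.d ω' i₀) = ((F.d ω j - F.d ω' j) - rd l (ζ (slam F w ω) j) *
          (F.d ω i₀ - F.d ω' i₀)) - (rd l (e (Pool.KS6.ptq F Pt ω) j) -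
          rd l (ζ (slam F w ω) j)) * (F.d ω i₀ - F.d ω' i₀) := by ring
      rw [e1]
      refine (abs_sub _ _).trans ?_
      rw [abs_mul]
      have b0 : |F.d ω i₀ - F.d ω' i₀| ≤ 2 := by
        refine (abs_sub _ _).trans ?_
        linarith only [F.dir ω i₀, F.dir ω' i₀]
      have b1 : |rd l (e (Pool.KS6.ptq F Pt ω) j) - rd l (ζ (slam F w ω) j)| *
          |F.d ω i₀ - F.d ω' i₀| ≤ 3 / 2 ^ l * 2 :=
        mul_le_mul a1 b0 (abs_nonneg _) (by positivity)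
      have b3 : (7 : ℝ) / 2 ^ l = 1 / 2 ^ l + 3 / 2 ^ l * 2 := by ring
      rw [b3]
      linarith only [a5, b1]
  -- the offsets
  have c2 : CH p (fun ω => (z ω).2.1) (fun ω => ((z ω).1, ctx F i₀ w l Pu ζ ω)) ≤
      3 * Real.log 29 := by
    have h2 := CH_le_vec hp0 h1 (fun ω => (z ω).2.1)
      (fun ω => ((z ω).1, ctx F i₀ w l Pu ζ ω)) (fun _ => 14) (by
      intro ω ω' hω hω' hc j
      by_cases hj : j = i₀
      · subst hj
        have e1 : (z ω).2.1 j = (z ω').2.1 j := by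
          rw [hz]
          change ⌊(2 : ℝ) ^ l * n _ j⌋ = ⌊(2 : ℝ) ^ l * n _ j⌋
          rw [h.off, h.off]
        rw [e1, sub_self]
        norm_num
      · obtain ⟨k1, -, k3⟩ := two ω ω' hω hω' hc j hj
        have a1 := h.dir (hB ω hω) j
        have a2 := h.dir (hB ω' hω') j
        rw [← k1] at a2
        have e1 : rd l (n (Pool.KS6.ptq F Pt ω) j) - rd l (n (Pool.KS6.ptq F Pt ω') j) =
            (((z ω).2.1 j - (z ω').2.1 j : ℤ) : ℝ) / 2 ^ l := by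
          rw [hz]
          unfold rd lbl
          push_cast
          ring
        have a4 : |rd l (n (Pool.KS6.ptq F Pt ω) j) - rd l (n (Pool.KS6.ptq F Pt ω') j)| ≤
            13 / 2 ^ l := by
          obtain ⟨E, hE⟩ : ∃ E, E = rd l (e (Pool.KS6.ptq F Pt ω) j) := ⟨_, rfl⟩
          rw [← hE] at a1 a2 k3
          have e2 : rd l (n (Pool.KS6.ptq F Pt ω) j) - rd l (n (Pool.KS6.ptq F Pt ω') j) =
              ((F.d ω j - F.d ω' j) - E * (F.d ω i₀ - F.d ω' i₀)) -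
              ((F.d ω j - E * F.d ω i₀ - rd l (n (Pool.KS6.ptq F Pt ω) j)) -
              (F.d ω' j - E * F.d ω' i₀ - rd l (n (Pool.KS6.ptq F Pt ω') j))) := by
            ring
          rw [e2]
          refine (abs_sub _ _).trans ?_
          have b1 := abs_sub (F.d ω j - E * F.d ω i₀ - rd l (n (Pool.KS6.ptq F Pt ω) j))
            (F.d ω' j - E * F.d ω' i₀ - rd l (n (Pool.KS6.ptq F Pt ω') j))
          have : (13 : ℝ) / 2 ^ l = 7 / 2 ^ l + (3 / 2 ^ l + 3 / 2 ^ l) := by ring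
          rw [this]
          linarith only [k3, a2, a1, b1]
        rw [e1, abs_div, abs_of_pos hl0, div_le_div_iff_of_pos_right hl0] at a4
        linarith only [a4])
    rw [Ex_const h1] at h2
    norm_num at h2
    exact h2
  -- the positions
  have c3 : CH p (fun ω => (z ω).2.2) (fun ω => ((z ω).1, ctx F i₀ w l Pu ζ ω)) ≤
      3 * Real.log 29 := by
    have h2 := CH_le_vec hp0 h1 (fun ω => (z ω).2.2)
      (fun ω => ((z ω).1, ctx F i₀ w l Pu ζ ω)) (fun _ => 14) (by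
      intro ω ω' hω hω' hc j
      obtain ⟨-, g3, -, -, -⟩ := ctx_eq (Prod.ext_iff.1 hc).2
      have r0 := rd_le Pt (F.x ω i₀)
      have r0' := rd_le Pt (F.x ω' i₀)
      by_cases hj : j = i₀
      · subst hj
        have e1 : ((z ω).2.2 j - (z ω').2.2 j : ℤ) = ⌊(2 : ℝ) ^ kw * rd Pt (F.x ω j)⌋ -
            ⌊(2 : ℝ) ^ kw * rd Pt (F.x ω' j)⌋ := by
          rw [hz]
          unfold lbl
          simp only [if_true]
          rfl
        rw [e1]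
        refine (rd_diff (K := 3) ?_).trans (by norm_num)
        have i1 : (1 : ℝ) / 2 ^ Pt ≤ 1 / 2 ^ kw := inv_mono hkP
        have i2 : (1 : ℝ) / 2 ^ w ≤ 1 / 2 ^ kw := inv_mono hkw
        have e2 : rd Pt (F.x ω j) - rd Pt (F.x ω' j) = (F.x ω j - F.x ω' j) -
            ((F.x ω j - rd Pt (F.x ω j)) - (F.x ω' j - rd Pt (F.x ω' j))) := by ring
        rw [e2]
        refine (abs_sub _ _).trans ?_
        have b1 := abs_sub (F.x ω j - rd Pt (F.x ω j)) (F.x ω' j - rd Pt (F.x ω' j))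
        have : (3 : ℝ) / 2 ^ kw = 1 / 2 ^ kw + (1 / 2 ^ kw + 1 / 2 ^ kw) := by ring
        rw [this]
        linarith only [g3, r0, r0', i1, i2, b1]
      · obtain ⟨k1, k2, -⟩ := two ω ω' hω hω' hc j hj
        have r1 := rd_le Pt (F.x ω j)
        have r1' := rd_le Pt (F.x ω' j)
        have hb := h.rbd (hB ω hω) j
        have e1 : ((z ω).2.2 j - (z ω').2.2 j : ℤ) =
            ⌊(2 : ℝ) ^ Pu * (rd Pt (F.x ω j) - rd l (e (Pool.KS6.ptq F Pt ω) j) *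
              rd Pt (F.x ω i₀))⌋ -
            ⌊(2 : ℝ) ^ Pu * (rd Pt (F.x ω' j) - rd l (e (Pool.KS6.ptq F Pt ω') j) *
              rd Pt (F.x ω' i₀))⌋ := by
          rw [hz]
          unfold lbl
          simp only [if_neg hj]
          rfl
        rw [e1]
        refine (rd_diff (K := 12) ?_).trans (by norm_num)
        rw [← k1]
        obtain ⟨E, hE⟩ : ∃ E, E = rd l (e (Pool.KS6.ptq F Pt ω) j) := ⟨_, rfl⟩
        rw [← hE] at k2 hb ⊢
        have i1 : (1 : ℝ) / 2 ^ Pt ≤ 1 / 2 ^ Pu := inv_mono hPu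
        have e2 : rd Pt (F.x ω j) - E * rd Pt (F.x ω i₀) -
            (rd Pt (F.x ω' j) - E * rd Pt (F.x ω' i₀)) =
            ((F.x ω j - F.x ω' j) - E * (F.x ω i₀ - F.x ω' i₀)) -
            (((F.x ω j - rd Pt (F.x ω j)) - (F.x ω' j - rd Pt (F.x ω' j))) -
            E * ((F.x ω i₀ - rd Pt (F.x ω i₀)) - (F.x ω' i₀ - rd Pt (F.x ω' i₀)))) := by ring
        rw [e2]
        refine (abs_sub _ _).trans ?_
        have b1 := abs_sub (F.x ω j - rd Pt (F.x ω j)) (F.x ω' j - rd Pt (F.x ω' j))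
        have b2 := abs_sub (F.x ω i₀ - rd Pt (F.x ω i₀)) (F.x ω' i₀ - rd Pt (F.x ω' i₀))
        have b3 : |E * ((F.x ω i₀ - rd Pt (F.x ω i₀)) - (F.x ω' i₀ - rd Pt (F.x ω' i₀)))| ≤
            3 * (1 / 2 ^ Pu + 1 / 2 ^ Pu) := by
          rw [abs_mul]
          exact mul_le_mul hb (by linarith only [r0, r0', i1, b2]) (abs_nonneg _) (by norm_num)
        have b4 := abs_sub ((F.x ω j - rd Pt (F.x ω j)) - (F.x ω' j - rd Pt (F.x ω' j)))
          (E * ((F.x ω i₀ - rd Pt (F.x ω i₀)) - (F.x ω' i₀ - rd Pt (F.x ω' i₀))))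
        have b5 : (4 : ℝ) / 2 ^ Pu = 4 * (1 / 2 ^ Pu) := by ring
        have b6 : (12 : ℝ) / 2 ^ Pu = 12 * (1 / 2 ^ Pu) := by ring
        rw [b5] at k2
        rw [b6]
        linarith only [r1, r1', k2, i1, b1, b3, b4])
    rw [Ex_const h1] at h2
    norm_num at h2
    exact h2
  have d1 := CH_le_add hp0 z (fun ω => (z ω).1) (ctx F i₀ w l Pu ζ)
  have d2 : CH p z (fun ω => ((z ω).1, ctx F i₀ w l Pu ζ ω)) ≤
      CH p (fun ω => ((z ω).2.1, (z ω).2.2)) (fun ω => ((z ω).1, ctx F i₀ w l Pu ζ ω)) := by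
    refine CH_mono_left hp0 fun ω ω' _ _ hc => ?_
    have a1 := Prod.ext_iff.1 hc
    exact Prod.ext (Prod.ext_iff.1 a1.2).1 a1.1
  have d3 := CH_subadd hp0 (fun ω => (z ω).2.1) (fun ω => (z ω).2.2)
    (fun ω => ((z ω).1, ctx F i₀ w l Pu ζ ω))
  linarith only [c1, c2, c3, d1, d2, d3]

end Frame

end Pool.S6C.Bct
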