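import Pool.Agent.H32.S6U.FullG
import Pool.Agent.H89.ZCL.Tail
import Pool.Agent.H45.K2.PLF
import Pool.Agent.H18.PB.Defs
import Pool.Agent.H80.KS6.Epl
import Pool.Agent.H62.OVN.Tme

/-!
# Saturation given a closed label

If the fans of a family, at the exact points and at the values of a label `z` which is a function
of the line, are not near affine `k`-planes on all events of small cost, the positions have
dimension at least `k + 1` given the label.
-/

set_option autoImplicit false

namespace Pool.S6C.Ful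

open Finset Real
open Pool.Agent.H49.Ent Pool.Agent.H32.Dense Pool.STK Pool.KA Pool.KSAT Pool.K2S Pool.PB

open Classical in
/-- **Saturation given a closed label.** -/
theorem sat_fam (m k : ℕ) {ε : ℝ} (hε : 0 < ε) :
    ∃ c₁ > 0, ∀ ψ > 0, ∃ τ > 0, ∃ J₁ : ℕ, ∀ J ≥ J₁, ∀ (F : Fam m J) (V : Type) (z : F.Ω → V),
      F.Tm (τ * J) → Det F.p (slam F 0) z → ∀ h : ℕ, (h : ℝ) ≤ c₁ * J →
      (∀ B : F.Ω → Prop, Real.exp (-(ψ * J)) ≤ Pe F.p B →
        ¬ PlU k (1 / 2 ^ h) (fun ω => (Fam.pt F ω, z ω)) F.d B) →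
      ((k + 1) * Real.log 2 - ε) * J ≤ CH F.p (F.X J) (fun ω => (z ω, F.W ω)) := by
  obtain ⟨C₁, hC₁, hful⟩ := Pool.S6U.full_gen m k
  have hl2 : 0 < Real.log 2 := Real.log_pos one_lt_two
  have hl21 : Real.log 2 ≤ 1 := by
    have := Real.log_two_lt_d9
    linarith only [hl2, this]
  have hk : (0 : ℝ) ≤ k := Nat.cast_nonneg k
  have hm : (0 : ℝ) ≤ m := Nat.cast_nonneg m
  have hcc : 0 ≤ cc m := by
    unfold cc
    exact mul_nonneg (by positivity) (Real.log_nonneg (by norm_num))
  obtain ⟨R, hR⟩ := exists_nat_gt (8 * (4 * (k + 2) * m + (k + 1)) / ε)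
  have hR0 : (0 : ℝ) < R := lt_of_le_of_lt (by positivity) hR
  have hRε : 8 * (4 * (k + 2) * m + (k + 1)) ≤ ε * R := by
    rw [div_lt_iff₀ hε] at hR
    linarith
  obtain ⟨c₁, hc₁⟩ : ∃ c₁ : ℝ, c₁ = 1 / (2 * (R + 1) * (k + 2)) := ⟨_, rfl⟩
  have hc0 : 0 < c₁ := by rw [hc₁]; positivity
  refine ⟨c₁, hc0, fun ψ hψ => ?_⟩
  obtain ⟨τ, hτ⟩ : ∃ τ : ℝ, τ = ε / (64 * (R + 1) * (k + 3)) := ⟨_, rfl⟩
  have hτ0 : 0 < τ := by rw [hτ]; positivity
  have hτ1 : R * (k + 3) * (2 * τ) ≤ ε / 32 := by
    rw [hτ]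
    have e1 : R * (k + 3) * (2 * (ε / (64 * (R + 1) * (k + 3)))) =
        ε / 32 * (R / (R + 1)) := by
      field_simp
      ring
    rw [e1]
    have e2 : (R : ℝ) / (R + 1) ≤ 1 := by
      rw [div_le_one (by positivity)]
      linarith only
    nlinarith only [hε, e2]
  exact by
   obtain ⟨δ, hδ⟩ : ∃ δ : ℝ, δ = (R + 1 : ℝ) * cc m + 1 := ⟨_, rfl⟩
   have hδ0 : 0 < δ := by rw [hδ]; positivity
   obtain ⟨M, hM⟩ : ∃ M : ℝ, M = 16 * (k + 2) ^ 2 / ε + 2 := ⟨_, rfl⟩
   have hM1 : 2 ≤ M := by
     rw [hM]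
     have : 0 ≤ 16 * ((k : ℝ) + 2) ^ 2 / ε := by positivity
     linarith only [this]
   obtain ⟨Je, hJe⟩ := Pool.S6K.exp_small (κ := ψ / 4) (C := M) (by positivity) (by linarith only [hM1])
   obtain ⟨Cst, hCst⟩ : ∃ Cst : ℝ, Cst = R * C₁ + C₁ + 2 * (R * (k + 3)) +
     (k + 1) * (R + 1) := ⟨_, rfl⟩
   have hCst0 : 0 ≤ Cst := by rw [hCst]; positivity
   obtain ⟨Jx, hJx⟩ := exists_nat_gt (8 * Cst / ε + (4 * δ + 4) / ψ +
     2 * (R + 1) * (5 * k + 8) + 1)
   refine ⟨τ, hτ0, max Je Jx, ?_⟩
   intro J hJ F V z hTm hz h hh hno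
   have hJe' : Je ≤ J := (le_max_left _ _).trans hJ
   have hJx' : 8 * Cst / ε + (4 * δ + 4) / ψ + 2 * (R + 1) * (5 * k + 8) + 1 < J :=
     hJx.trans_le (by exact_mod_cast (le_max_right _ _).trans hJ)
   have t1 : 0 ≤ 8 * Cst / ε := by positivity
   have t2 : 0 ≤ (4 * δ + 4) / ψ := by positivity
   have t3 : 0 ≤ 2 * ((R : ℝ) + 1) * (5 * k + 8) := by positivity
   have hJ0 : (0 : ℝ) < J := by linarith only [hJx', t1, t2, t3]
   have j1 : 8 * Cst ≤ ε * J := by
     have : 8 * Cst / ε ≤ J := by linarith only [hJx', t2, t3]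
     rw [div_le_iff₀ hε] at this
     linarith only [this]
   have j2 : 4 * δ + 4 ≤ ψ * J := by
     have : (4 * δ + 4) / ψ ≤ J := by linarith only [hJx', t1, t3]
     rw [div_le_iff₀ hψ] at this
     linarith only [this]
   exact by
    have j3 : 2 * ((R : ℝ) + 1) * (5 * k + 8) ≤ J := by linarith only [hJx', t1, t2]
    have hp := F.isLaw
    obtain ⟨A, hA⟩ : ∃ A : F.Ω → Prop, A = fun _ => True := ⟨_, rfl⟩
    have hPA : Pe F.p A = 1 := by rw [hA]; exact Pe_univ hp
    have hA0 : 0 < Pe F.p A := by rw [hPA]; exact one_pos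
    -- the windows
    obtain ⟨g, hg⟩ : ∃ g, g = J / (R + 1) := ⟨_, rfl⟩
    have hg1 : (R + 1) * g ≤ J := by
      rw [hg]
      exact Nat.mul_div_le _ _
    have hg2 : (J : ℝ) < (R + 1) * (g + 1) := by
      have := Nat.lt_mul_div_succ J (show 0 < R + 1 by omega)
      rw [← hg] at this
      exact_mod_cast this
    have hg1r : ((R : ℝ) + 1) * g ≤ J := by exact_mod_cast hg1
    have hlw : ∀ r : ℕ, r ≤ R → r * g ≤ J := by
      intro r hr
      exact (Nat.mul_le_mul_right g (by omega : r ≤ R + 1)).trans hg1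
    -- the labels
    obtain ⟨l, hl⟩ : ∃ l : F.Ω → Fin (R + 1) → (ℕ × (Fin m → ℤ)) × F.ζ,
      l = fun ω (i : Fin (R + 1)) => F.c ((i : ℕ) * g) ω := ⟨_, rfl⟩
    have hres : ∀ B : F.Ω → Prop, 0 < Pe F.p B →
        CH (Pool.Agent.H49.Ent.cond F.p B True) l (fun ω => (Fam.pt F ω, z ω)) ≤ δ := by
      intro B hB
      have hlaw := isLaw_cond hp hB
      have h1 := CH_pi_le hlaw.nonneg (c := cc m) (Fam.pt F) (R + 1)
        (fun (i : Fin (R + 1)) ω => F.c ((i : ℕ) * g) ω)
        (fun i => Rows.CH_c_pt (F.res B True hlaw) (hlw i (by omega)))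
      have h2 : CH (Pool.Agent.H49.Ent.cond F.p B True) l (fun ω => (Fam.pt F ω, z ω)) ≤
          CH (Pool.Agent.H49.Ent.cond F.p B True) l (Fam.pt F) :=
        CH_mono_cond hlaw.nonneg fun _ _ _ _ e => (Prod.ext_iff.mp e).1
      push_cast at h1
      rw [hl] at h2 ⊢
      rw [hδ]
      linarith only [h2, h1]
    exact by
     obtain ⟨rl, hrl⟩ : ∃ rl : (Fin m → ℝ) → (Fin m → ℝ) × (Fin k → Fin m → ℝ) → Prop,
       rl = fun D s => ∃ c : Fin k → ℝ, ∀ i, |D i - s.1 i - ∑ l, c l * s.2 l i| ≤ 1 / 2 ^ h :=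
       ⟨_, rfl⟩
     have hno' : ∀ B : F.Ω → Prop, Real.exp (-(ψ * J)) ≤ Pe F.p B →
         ¬ Fn F.d (fun ω => (Fam.pt F ω, z ω)) rl B := by
       rw [hrl]
       exact hno
     have hψJ : 0 ≤ ψ * J := by positivity
     have hnot : ¬ Fn F.d (fun ω => (Fam.pt F ω, z ω)) rl A := hno' A (by
       rw [hPA, Real.exp_le_one_iff]
       linarith only [hδ0, j2])
     have hstab : Stb F.p (ψ * J) A (Fn F.d (fun ω => (Fam.pt F ω, z ω)) rl) :=
       Or.inr fun B _ hP => hno' B (by rwa [hPA, mul_one] at hP)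
     obtain ⟨s1, s2⟩ := Stb.refine hp hstab hnot hA0 hδ0 (fun B _ hB => hres B hB)
       (by linarith only [hl21, hδ0, j2])
     -- cleaning
     obtain ⟨κ', hκ'⟩ : ∃ κ', κ' = ψ * J - (2 * δ + Real.log 2) := ⟨_, rfl⟩
     rw [← hκ'] at s1
     have hκ'1 : ψ * J / 2 ≤ κ' := by rw [hκ']; linarith only [hl21, j2]
     have hκ'2 : 2 * Real.log 2 ≤ κ' := by rw [hκ']; linarith only [hl21, hδ0, j2]
     obtain ⟨c1, c2⟩ := Stb.clean hp hκ'2 hA0 s1 s2 rfl
     have c3 := Stb.point hp hA0 s1 s2
     obtain ⟨Nb, hNb⟩ : ∃ Nb : F.Ω → Prop, Nb = Pop (Pool.Agent.H49.Ent.cond F.p A True) F.d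
       (fun ω => ((Fam.pt F ω, z ω), l ω)) rl (Real.exp (-(κ' / 2))) := ⟨_, rfl⟩
     rw [← hNb] at c1 c2
     obtain ⟨A', hA'⟩ : ∃ A' : F.Ω → Prop, A' = fun ω => A ω ∧ ¬ Nb ω := ⟨_, rfl⟩
     rw [← hA'] at c2
     obtain ⟨ρ, hρ⟩ : ∃ ρ : ℝ, ρ = Real.exp (-(κ' / 2)) := ⟨_, rfl⟩
     rw [← hρ] at c2
     have hρ0 : 0 < ρ := by rw [hρ]; positivity
     exact by
      have hρM : ρ ≤ 1 / M := by
        refine le_trans ?_ (hJe J hJe')
        rw [hρ]
        refine Real.exp_le_exp.2 ?_
        have : ψ / 4 * (J : ℝ) = ψ * J / 2 / 2 := by ring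
        linarith only [hl21, j2, hκ']
      have hρ1 : ρ ≤ 1 / 2 := hρM.trans (div_le_div_of_nonneg_left one_pos.le (by norm_num) hM1)
      have hρ2 : ρ * (k + 2) ^ 2 ≤ ε / 16 := by
        have h1 : ρ * M ≤ 1 := by
          rw [le_div_iff₀ (by linarith only [hM1, hρ0, hρ1])] at hρM
          exact hρM
        have h2 : ρ * (16 * (k + 2) ^ 2 / ε) ≤ 1 := by
          have : ρ * (16 * (k + 2) ^ 2 / ε) ≤ ρ * M :=
            mul_le_mul_of_nonneg_left (by rw [hM]; linarith only [hρ0, hρ1]) hρ0.le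
          linarith only [h1, this]
        have h3 : ρ * (16 * (k + 2) ^ 2 / ε) = ρ * (k + 2) ^ 2 * 16 / ε := by ring
        rw [h3, div_le_one hε] at h2
        linarith only [h2]
      have hratio : 1 - ρ ≤ Pe F.p A' := by
        have f1 : Pe F.p A = Pe F.p (fun ω => A ω ∧ Nb ω) + Pe F.p A' := by
          rw [hA', Pe_eq, Pe_eq, Pe_eq, ← Finset.sum_add_distrib]
          refine Finset.sum_congr rfl fun ω _ => ?_
          by_cases h1 : A ω
          · by_cases hb : Nb ω
            · simp [h1, hb]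
            · simp [h1, hb]
          · simp [h1]
        have f2 : Pe F.p (fun ω => A ω ∧ Nb ω) ≤ ρ * Pe F.p A := by
          rw [Pe_cond, div_le_iff₀ hA0] at c3
          rw [hρ, hNb]
          exact c3
        rw [hPA] at f1 f2
        linarith only [f1, f2]
      exact by
       have hPA' : 0 < Pe F.p A' := by linarith only [hρ0, hρ1, hratio]
       have hlaw := isLaw_cond hp hPA'
       have hTm' : (F.res A' True hlaw).Tm (2 * (τ * J + 1)) := by
         have h1 := Pool.OVN.res_Tm_of_event hTm hPA'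
         unfold Fam.Tm at h1 ⊢
         have h2 : (τ * J + Real.log 2) / Pe F.p A' ≤ 2 * (τ * J + 1) := by
           rw [div_le_iff₀ hPA']
           have h3 : 0 ≤ τ * J := by positivity
           nlinarith only [hl21, hρ1, hratio, hρ0, h3]
         linarith only [hlaw, hPA', h1, h2]
       obtain ⟨L, hL⟩ : ∃ L : F.Ω → (((Fin m → ℤ) × (ℕ × F.ζ)) × V) ×
         (Fin (R + 1) → (ℕ × (Fin m → ℤ)) × F.ζ), L = fun ω => ((Fam.pt F ω, z ω), l ω) := ⟨_, rfl⟩
       have hroom : (h + 2 + 3) * (k + 1) + (h + 2) ≤ g := by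
         have h1 : (h : ℝ) * (k + 2) ≤ J / (2 * (R + 1)) := by
           calc (h : ℝ) * (k + 2) ≤ c₁ * J * (k + 2) :=
                 mul_le_mul_of_nonneg_right hh (by positivity)
             _ = J / (2 * (R + 1)) := by
                 rw [hc₁]
                 field_simp
         have h2 : 5 * (k : ℝ) + 8 ≤ J / (2 * (R + 1)) := by
           rw [le_div_iff₀ (by positivity)]
           linarith only [hJx', t1, t2, hρ0, hρ1]
         have h3 : (J : ℝ) / (R + 1) < g + 1 := by
           rw [div_lt_iff₀ (by positivity)]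
           linarith only [hg2]
         have h4 : (J : ℝ) / (R + 1) = J / (2 * (R + 1)) + J / (2 * (R + 1)) := by
           field_simp
           ring
         have h5 : (((h + 2 + 3) * (k + 1) + (h + 2) : ℕ) : ℝ) < ((g + 1 : ℕ) : ℝ) := by
           push_cast
           nlinarith only [hρ0, hρ1, h1, h2, h3, h4]
         have := Nat.cast_lt.1 h5
         omega
       exact by
        have e4 : (4 : ℝ) / 2 ^ (h + 2) = 1 / 2 ^ h := by
          rw [pow_add]
          field_simp
          norm_num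
        have hc' : ∀ r < R, Det (F.res A' True hlaw).p L ((F.res A' True hlaw).c (0 + r * g)) := by
          intro r hr ω ω' _ _ e
          rw [hL] at e
          have b3 : l ω = l ω' := (Prod.ext_iff.mp e).2
          have := congrFun b3 ⟨r, by omega⟩
          rw [hl] at this
          change F.c (0 + r * g) ω = F.c (0 + r * g) ω'
          rw [Nat.zero_add]
          exact this
        have hrg : ∀ r < R, 0 + r * g + 2 * g ≤ J := by
          intro r hr
          have h1 : (r + 2) * g ≤ (R + 1) * g := Nat.mul_le_mul_right g (by omega)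
          have h2 : (r + 2) * g = r * g + 2 * g := by ring
          omega
        have hmain := hful J (F.res A' True hlaw) V _ z L 0 g (h + 2) R (2 * (τ * J + 1)) ρ
          (by omega) hTm' (fun ω ω' h1 h2 e => hz ω ω'
            ((cond_pos_iff hp.nonneg A' True ω).1 h1).1 ((cond_pos_iff hp.nonneg A' True ω').1 h2).1 e)
          (fun ω ω' _ _ e => by
            rw [hL] at e
            exact (Prod.ext_iff.mp (Prod.ext_iff.mp e).1).2)
          hc'
          (fun r hr ω ω' _ _ e => by
            rw [hL] at e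
            have b1 : F.X J ω = F.X J ω' :=
              (Prod.ext_iff.mp (Prod.ext_iff.mp (Prod.ext_iff.mp e).1).1).1
            exact Pool.STK.B58.fl_fine (hrg r hr) b1)
          (fun r hr ω ω' _ _ e => by
            rw [hL] at e
            have b1 : F.W ω = F.W ω' :=
              (Prod.ext_iff.mp (Prod.ext_iff.mp (Prod.ext_iff.mp e).1).1).2
            have b2 : F.T ω = F.T ω' := (Prod.ext_iff.mp b1).1
            change F.T1 _ ω = F.T1 _ ω'
            unfold Fam.T1
            rw [b2])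
          (by omega) hroom (by
            rw [e4, hL]
            have := c2
            rw [hrl] at this
            exact this)
        exact by
         rw [Nat.zero_add] at hmain
         -- the entropies
         obtain ⟨S₀, hS₀⟩ : ∃ S₀, S₀ = CH (Pool.Agent.H49.Ent.cond F.p A' True) (F.X J)
           (fun ω => (z ω, F.W ω)) := ⟨_, rfl⟩
         have hm1 : CH (F.res A' True hlaw).p ((F.res A' True hlaw).X ((R + 1) * g))
             (fun ω => (z ω, (F.res A' True hlaw).W ω)) ≤ S₀ := by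
           rw [hS₀]
           refine CH_mono_left hlaw.nonneg fun ω ω' _ _ e => ?_
           exact Pool.STK.B58.fl_fine hg1 (Prod.ext_iff.mp e).1
         have hfin : Pe F.p A' * S₀ ≤ CH F.p (F.X J) (fun ω => (z ω, F.W ω)) := by
           have h1 := CH_event hp (A := A) (B := A') (fun ω _ => by rw [hA]; trivial) hA0 (F.X J)
             (fun ω => (z ω, F.W ω))
           rw [hPA, div_one, hA, Pool.ZCL.cond_univ hp, ← hS₀] at h1
           exact h1
         have hS0 : 0 ≤ S₀ := by rw [hS₀]; exact CH_nonneg hlaw.nonneg _ _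
         have hfin2 : (1 - ρ) * S₀ ≤ CH F.p (F.X J) (fun ω => (z ω, F.W ω)) :=
           (mul_le_mul_of_nonneg_right hratio hS0).trans hfin
         refine le_trans ?_ hfin2
         obtain ⟨Gg, hGg⟩ : ∃ G : ℝ, G = g := ⟨_, rfl⟩
         have hG0 : 0 ≤ Gg := by rw [hGg]; positivity
         rw [← hGg] at hmain hg1r hg2
         -- the losses
         have u1 : J - R * Gg ≤ Gg + (R + 1) := by linarith only [hg2]
         have u2 : R * Gg ≤ J := by linarith only [hg1r, hGg]
         have u3 : (4 * (k + 2) * m + (k + 1)) * Gg ≤ ε / 8 * J := by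
           have h1 : 8 * (4 * (k + 2) * m + (k + 1)) * Gg ≤ ε * R * Gg :=
             mul_le_mul_of_nonneg_right hRε hG0
           have h2 : ε * R * Gg ≤ ε * J := by
             rw [mul_assoc]
             exact mul_le_mul_of_nonneg_left u2 hε.le
           linarith only [h1, h2]
         exact by
          have u4 : R * ((k + 3) * (2 * (τ * J + 1))) ≤ ε / 32 * J + 2 * (R * (k + 3)) := by
            have h1 : R * (k + 3) * (2 * τ) * J ≤ ε / 32 * J := mul_le_mul_of_nonneg_right hτ1 hJ0.le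
            linarith only [h1]
          have u5 : R * ((k + 2) ^ 2 * (Gg * Real.log 2) * ρ) ≤ ε / 16 * J := by
            calc R * ((k + 2) ^ 2 * (Gg * Real.log 2) * ρ) =
                  (ρ * (k + 2) ^ 2) * (R * Gg * Real.log 2) := by ring
              _ ≤ (ρ * (k + 2) ^ 2) * J := by
                  refine mul_le_mul_of_nonneg_left ?_ (by positivity)
                  have : R * Gg * Real.log 2 ≤ R * Gg * 1 :=
                    mul_le_mul_of_nonneg_left hl21 (by positivity)
                  linarith only [hg1r, hGg, this]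
              _ ≤ _ := mul_le_mul_of_nonneg_right hρ2 hJ0.le
          have u6 : (k + 1) * ((J - R * Gg) * Real.log 2) ≤ (k + 1) * Gg + (k + 1) * (R + 1) := by
            have h1 : (J - R * Gg) * Real.log 2 ≤ (J - R * Gg) * 1 :=
              mul_le_mul_of_nonneg_left hl21 (by linarith only [hg1r, hGg])
            have h2 : (k + 1) * ((J - R * Gg) * Real.log 2) ≤ (k + 1) * (Gg + (R + 1)) :=
              mul_le_mul_of_nonneg_left (by linarith only [hg2, h1]) (by positivity)
            linarith only [h2]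
          have u7 : 4 * (k + 2) * m * (Gg * Real.log 2) ≤ 4 * (k + 2) * m * Gg := by
            refine mul_le_mul_of_nonneg_left ?_ (by positivity)
            have : Gg * Real.log 2 ≤ Gg * 1 := mul_le_mul_of_nonneg_left hl21 hG0
            linarith only [this]
          have u8 : (k + 1) * Real.log 2 * J - ε / 2 * J ≤ S₀ := by
            have e1 : (k + 1) * Real.log 2 * J = R * ((k + 1) * (Gg * Real.log 2)) +
                (k + 1) * ((J - R * Gg) * Real.log 2) := by ring
            have e2 : R * ((k + 3) * (2 * (τ * J + 1)) + (k + 2) ^ 2 * (Gg * Real.log 2) * ρ + C₁) =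
                R * ((k + 3) * (2 * (τ * J + 1))) + R * ((k + 2) ^ 2 * (Gg * Real.log 2) * ρ) +
                  R * C₁ := by ring
            rw [e2] at hmain
            have e3 : Cst = R * C₁ + C₁ + 2 * (R * (k + 3)) + (k + 1) * (R + 1) := hCst
            have e5 : (4 * (k + 2) * m + (k + 1)) * Gg = 4 * (k + 2) * m * Gg + (k + 1) * Gg := by ring
            rw [e5] at u3
            linarith only [hlaw, hCst, hCst0, j1, hm1, hmain, u3, u4, u5, u6, u7]
          exact by
           have u9 : ρ * ((k + 1) * Real.log 2 * J) ≤ ε / 16 * J := by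
             calc ρ * ((k + 1) * Real.log 2 * J) = ρ * ((k + 1) * Real.log 2) * J := by ring
               _ ≤ ρ * (k + 2) ^ 2 * J := by
                   refine mul_le_mul_of_nonneg_right (mul_le_mul_of_nonneg_left ?_ hρ0.le) hJ0.le
                   have : (k + 1) * Real.log 2 ≤ (k + 1) * 1 :=
                     mul_le_mul_of_nonneg_left hl21 (by positivity)
                   nlinarith only [hρ0, hρ1, this]
               _ ≤ _ := mul_le_mul_of_nonneg_right hρ2 hJ0.le
           have u10 : (1 - ρ) * ((k + 1) * Real.log 2 * J - ε / 2 * J) ≤ (1 - ρ) * S₀ :=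
             mul_le_mul_of_nonneg_left u8 (by linarith only [hρ0, hρ1])
           have u11 : 0 ≤ ρ * (ε / 2 * J) := by positivity
           have u12 : 0 ≤ ε * J := by positivity
           have e6 : (1 - ρ) * ((k + 1) * Real.log 2 * J - ε / 2 * J) =
               (k + 1) * Real.log 2 * J - ε / 2 * J - ρ * ((k + 1) * Real.log 2 * J) +
                 ρ * (ε / 2 * J) := by ring
           rw [e6] at u10
           have e7 : ((k + 1) * Real.log 2 - ε) * J = (k + 1) * Real.log 2 * J - ε * J := by ring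
           rw [e7]
           linarith only [hCst0, j1, u9, u10, u11]

end Pool.S6C.Ful
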