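import Pool.Agent.H39.S6C.Bct

/-!
# The rows of the base position are full, base form
-/

set_option autoImplicit false

namespace Pool.S6C.Ful

open Finset Real
open Pool.Agent.H49.Ent Pool.Agent.H32.Dense Pool.STK Pool.KA Pool.KSAT Pool.K2S Pool.PB Pool.KS6
open Pool.S6K.Wfe Pool.K3

/-- The rows of the base position are full in contexts with linear labels, for all large events of
maximal families with straight fans at exact points. -/
theorem wfe_ev {a R h₁ : ℝ} {i₀ : Fin 3} (ha : 1 ≤ a) (hR : 0 < R)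
    (hU : UBa 3 a R) (hh₁ : 0 < h₁) {η : ℝ} (hη : 0 < η) (Bc C δ : ℝ) :
    ∃ τ > 0, ∃ J₁ : ℕ, ∀ J ≥ J₁, ∀ (F : Fam 3 J) (A : F.Ω → Prop), Fam.Stt F a R τ A →
      Lb F i₀ ⌊h₁ * J⌋₊ A →
      ∀ (w H : ℕ) (f n : (Fin 3 → ℤ) × (ℕ × F.ζ) → Fin 3 → ℝ) (σ : Type)
      (P V g : Fin 3 → ℕ) (z : F.Ω → Fin 3 → Fin 3 → ℝ) (s : F.Ω → σ),
      LOK F A i₀ w 0 H f n P V g z s Bc C δ → ∀ p : ℕ, 0 + w ≤ p → p ≤ J →
      ((p : ℝ) - (0 + w : ℕ)) * Real.log 2 - η * J ≤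
        CH (Pool.Agent.H49.Ent.cond F.p A True) (fun ω => ⌊(2 : ℝ) ^ p * F.x ω i₀⌋)
          (fun ω => ((⌊(2 : ℝ) ^ (0 + w) * F.x ω i₀⌋, labt F w P V z s ω),
            (⌊(2 : ℝ) ^ 0 * F.d ω i₀⌋, F.T ω))) := by
  obtain ⟨γ, hγ, hfull⟩ := wfe_time (m := 3) (r := 3) hη
  obtain ⟨g, hg⟩ : ∃ g, g = min (min γ 1) h₁ := ⟨_, rfl⟩
  have hg0 : 0 < g := by rw [hg]; exact lt_min (lt_min hγ one_pos) hh₁
  have hgγ : g ≤ γ := by rw [hg]; exact (min_le_left _ _).trans (min_le_left _ _)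
  have hg1 : g ≤ 1 := by rw [hg]; exact (min_le_left _ _).trans (min_le_right _ _)
  have hgh : g ≤ h₁ := by rw [hg]; exact min_le_right _ _
  obtain ⟨τb, hτb, Jb, hball⟩ := Pool.S6K.ball_claim ha hR hU (by positivity : 0 < g / 2)
  obtain ⟨τ₂, hτ₂, J₂, hmain⟩ := hfull Bc C δ (τb / 4) (by positivity)
  obtain ⟨τ, hτ⟩ : ∃ τ, τ = min τ₂ (τb / 4) := ⟨_, rfl⟩
  have hτ0 : 0 < τ := by rw [hτ]; exact lt_min hτ₂ (by positivity)
  have hττ₂ : τ ≤ τ₂ := by rw [hτ]; exact min_le_left _ _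
  have hττb : τ ≤ τb / 4 := by rw [hτ]; exact min_le_right _ _
  obtain ⟨J₃, hJ₃⟩ := exists_nat_gt (4 / g + 2 * Real.log 5 / τb + 1)
  refine ⟨τ, hτ0, max J₂ (max Jb J₃), fun J hJ F A hS hLb w H f n σ P V g' z s hL p hp hpJ => ?_⟩
  have hJ2 : J₂ ≤ J := (le_max_left _ _).trans hJ
  have hJb : Jb ≤ J := (le_max_left _ _).trans ((le_max_right _ _).trans hJ)
  have hJ3 : 4 / g + 2 * Real.log 5 / τb + 1 < J :=
    hJ₃.trans_le (by exact_mod_cast (le_max_right _ _).trans ((le_max_right _ _).trans hJ))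
  have hJr : (0 : ℝ) ≤ J := Nat.cast_nonneg J
  have hl5 : 0 < Real.log 5 := Real.log_pos (by norm_num)
  have q1 : 0 < 4 / g := by positivity
  have q2 : 0 < 2 * Real.log 5 / τb := by positivity
  have r1 : 4 ≤ g * J := by
    have h1 : 4 / g < J := by linarith
    rw [div_lt_iff₀ hg0] at h1
    linarith
  have r2 : Real.log 5 ≤ τb / 2 * J := by
    have h1 : 2 * Real.log 5 / τb < J := by linarith
    rw [div_lt_iff₀ hτb] at h1
    linarith
  obtain ⟨x1, hx1⟩ : ∃ x1, x1 = ⌊g * J⌋₊ := ⟨_, rfl⟩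
  have hx1a : (x1 : ℝ) ≤ g * J := by rw [hx1]; exact Nat.floor_le (by positivity)
  have hx1b : g * J < x1 + 1 := by rw [hx1]; exact Nat.lt_floor_add_one _
  have hx1c : 1 ≤ x1 := by
    have : (0 : ℝ) < x1 := by linarith
    exact_mod_cast this
  have hx1h : x1 ≤ ⌊h₁ * J⌋₊ := by
    rw [hx1]
    exact Nat.floor_le_floor (mul_le_mul_of_nonneg_right hgh hJr)
  have hx1J : x1 ≤ J := by
    have : (x1 : ℝ) ≤ J := hx1a.trans (by nlinarith)
    exact_mod_cast this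
  obtain ⟨q, hq⟩ : ∃ q, q + 1 = x1 := ⟨x1 - 1, by omega⟩
  have hqr : (q : ℝ) + 1 = x1 := by exact_mod_cast hq
  have hqx : g / 2 * J ≤ q := by linarith
  have hS1 := Fam.Stt.mono (by linarith : τ ≤ τb) hS
  have hS2 := Fam.Stt.mono hττ₂ hS
  have hnf : ∀ A₁ : F.Ω → Prop, Sub A₁ A → Real.exp (-(τb / 4 * J)) * Pe F.p A ≤ Pe F.p A₁ →
      ¬ FrzG F i₀ 0 (0 + x1) A₁ := by
    intro A₁ hA₁ hPA₁ hF
    rw [Nat.zero_add] at hF
    obtain ⟨B', hB', hPB', hball'⟩ := Pool.ZCL.frz_ball (q := q) (h := ⌊h₁ * J⌋₊) hF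
      (LineAt.hered _ _ _ _ _ _ hA₁ hLb) (by omega) (by omega)
    refine hball J hJb F B' ⟨hS1.1, hS1.2.1, hS1.2.2.1, ?_⟩ q (by omega) hqx hball'
    have h1 : Real.exp (-(τb * J)) * 5 ≤ Pe F.p A₁ := by
      refine le_trans ?_ (le_trans (mul_le_mul_of_nonneg_left hS.2.2.2 (Real.exp_pos _).le)
        hPA₁)
      have h2 : (5 : ℝ) = Real.exp (Real.log 5) := by rw [Real.exp_log (by norm_num)]
      calc Real.exp (-(τb * J)) * 5 = Real.exp (-(τb * J)) * Real.exp (Real.log 5) := by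
            rw [← h2]
        _ = Real.exp (-(τb * J) + Real.log 5) := by rw [← Real.exp_add]
        _ ≤ Real.exp (-(τb / 4 * J) + -(τ * J)) := Real.exp_le_exp.2 (by
            have h3 := mul_le_mul_of_nonneg_right hττb hJr
            linarith)
        _ = _ := Real.exp_add _ _
    linarith
  have hPA0 : 0 ≤ Pe F.p A := Pe_nonneg F.isLaw A
  exact hmain J hJ2 F A hS2.1 hS2.2.1.1 hS2.2.2.1 hS2.2.2.2 i₀ w 0 x1 H
    (hx1a.trans (mul_le_mul_of_nonneg_right hgγ hJr))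
    (Or.inr fun B hB hPB => hnf B hB hPB) (hnf A (fun _ h => h) (by
      have h1 : Real.exp (-(τb / 4 * J)) ≤ 1 := by
        rw [Real.exp_le_one_iff]
        have : 0 ≤ τb / 4 * (J : ℝ) := by positivity
        linarith
      calc _ ≤ 1 * Pe F.p A := mul_le_mul_of_nonneg_right h1 hPA0
        _ = _ := one_mul _)) f n σ P V g' z s hL p hp hpJ

end Pool.S6C.Ful
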