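import Pool.Agent.H39.S6C.FulA
import Pool.Agent.H39.S6C.FulB
import Pool.Agent.H39.S6C.FulE

/-!
# Implicit labels in boxes: the positions are full given the label

`2 J'` digits of the positions in the zoom, by saturation, and `lam` digits of the chart coordinate
after the window of length `2 ^ (-(w + J'))`.
-/

set_option autoImplicit false

namespace Pool.S6C.Ful

open Finset Real
open Pool.Agent.H49.Ent Pool.Agent.H32.Dense Pool.STK Pool.KA Pool.KSAT Pool.K2S Pool.PB Pool.KS6
open Pool.S6K.Wfe Pool.K3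
open Pool.ZCL (zm_x zm_Tm)

variable {m J : ℕ}

/-- The time of the zoom. -/
theorem zm_T {κ : Type} (F : Fam m J) {w J' : ℕ} (h : w + J' ≤ J) (C : Crd m κ) (g : F.Ω → κ)
    (ω : F.Ω) : (F.zm w J' h C g).T ω = F.T1 (w + J') ω % 2 ^ J' := by
  change F.T ω % 2 ^ (J - w) / 2 ^ (J - w - J') = F.T ω / 2 ^ (J - (w + J')) % 2 ^ J'
  have e1 : J - w - J' = J - (w + J') := by omega
  have e2 : (2 : ℕ) ^ (J - w) = 2 ^ (J - (w + J')) * 2 ^ J' := by
    rw [← pow_add]
    congr 1
    omega
  rw [e1, e2, Nat.mod_mul_right_div_self]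

/-- The line, the window and the time of the zoom. -/
theorem zm_det {κ : Type} (F : Fam m J) {w J' : ℕ} (h : w + J' ≤ J) (C : Crd m κ) (g : F.Ω → κ)
    {ω ω' : F.Ω} (e1 : F.l ω = F.l ω') (e2 : F.Z ω = F.Z ω')
    (e3 : F.T1 w ω = F.T1 w ω') (e4 : g ω = g ω') :
    (F.zm w J' h C g).l ω = (F.zm w J' h C g).l ω' ∧
      F.blab w C g ω = F.blab w C g ω' := by
  have hu : F.u ω = F.u ω' := (Prod.ext_iff.1 e1).1
  have hd : F.d ω = F.d ω' := (Prod.ext_iff.1 e1).2
  have hx : F.x1 w ω = F.x1 w ω' := by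
    funext j
    unfold Fam.x1
    rw [hu, hd, e3]
  constructor
  · refine Prod.ext ?_ ?_
    · funext i
      change (⌊(2 : ℝ) ^ J' * Int.fract (2 ^ w * C.L (g ω) (F.x1 w ω) i)⌋ : ℝ) / 2 ^ J' =
        (⌊(2 : ℝ) ^ J' * Int.fract (2 ^ w * C.L (g ω') (F.x1 w ω') i)⌋ : ℝ) / 2 ^ J'
      rw [hx, e4]
    · funext i
      change (⌊(2 : ℝ) ^ J' * Int.fract (C.L (g ω) (F.d ω) i)⌋ : ℝ) / 2 ^ J' =
        (⌊(2 : ℝ) ^ J' * Int.fract (C.L (g ω') (F.d ω') i)⌋ : ℝ) / 2 ^ J'
      rw [hd, e4]
  · unfold Fam.blab Fam.bcl Fam.bvl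
    rw [hx, hd, e2, e3, e4]

/-- The position of the zoom. -/
theorem zm_X {κ : Type} (F : Fam m J) {w J' : ℕ} (h : w + J' ≤ J) (C : Crd m κ) (g : F.Ω → κ)
    {ω ω' : F.Ω} (e1 : (F.zm w J' h C g).l ω = (F.zm w J' h C g).l ω')
    (e2 : (F.zm w J' h C g).T ω = (F.zm w J' h C g).T ω') :
    (F.zm w J' h C g).X J' ω = (F.zm w J' h C g).X J' ω' := by
  have hu : (F.zm w J' h C g).u ω = (F.zm w J' h C g).u ω' := (Prod.ext_iff.1 e1).1
  have hd : (F.zm w J' h C g).d ω = (F.zm w J' h C g).d ω' := (Prod.ext_iff.1 e1).2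
  have hx : (F.zm w J' h C g).x ω = (F.zm w J' h C g).x ω' := by
    funext j
    unfold Fam.x Fam.t
    rw [hu, hd, e2]
  unfold Fam.X
  rw [hx]

/-- **Fullness given an implicit label**, for events. -/
theorem full_ev {a R h₁ : ℝ} (ha : 1 ≤ a) (hR : 0 < R) (hU : UBa 3 a R) (hh₁ : 0 < h₁)
    (i₀ : Fin 3) {η e : ℝ} (hη : 0 < η) (he : 0 < e) : ∃ g₀ : ℝ, 0 < g₀ ∧ ∀ ψ > 0, ∃ τ > 0,
    ∃ J₁ : ℕ, ∀ J ≥ J₁, ∀ (F : Fam 3 J) (A : F.Ω → Prop), Fam.Stt F a R τ A →
    Lb F i₀ ⌊h₁ * J⌋₊ A → ∀ (r w lam J' : ℕ) (h : w + J' ≤ J) (g n : F.Ω → Fin 3 → ℝ),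
    w + J' + lam = r → r ≤ J → e * J ≤ J' → Zfr F A i₀ r w lam J' h g n →
    ∀ (V : Type) (z : F.Ω → V),
    (∃ φ : (Fin 3 → ℤ) × (ℕ × F.ζ) → V, ∀ ω, A ω → z ω = φ (Pool.KS6.ptq F r ω)) →
    (∀ ω ω', A ω → A ω' → slam (F.zm w J' h (Box.plkC lam i₀) g) 0 ω =
      slam (F.zm w J' h (Box.plkC lam i₀) g) 0 ω' → z ω = z ω') →
    (∀ B : F.Ω → Prop, Sub B A → Real.exp (-(ψ * J)) * Pe F.p A ≤ Pe F.p B →
      ¬ LineU i₀ (4 / 2 ^ (lam + ⌊g₀ * J⌋₊)) (ptr F r) F.d B) →
    (2 * (J' : ℝ) + lam) * Real.log 2 - η * J ≤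
      CH (Pool.Agent.H49.Ent.cond F.p A True) (F.X r)
        (fun ω => ((F.blab w (Box.plkC lam i₀) g ω, z ω), F.W ω)) := by
  classical
  have hl2 : 0 < Real.log 2 := Real.log_pos one_lt_two
  have hl21 : Real.log 2 ≤ 1 := by
    have := Real.log_two_lt_d9
    linarith only [hl2, this]
  obtain ⟨c₀, hc₀, hsat⟩ := sat_fam 3 1 (ε := η / 4) (by positivity)
  obtain ⟨c₁, hc₁⟩ : ∃ c₁, c₁ = min c₀ 1 := ⟨_, rfl⟩
  have hc10 : 0 < c₁ := by rw [hc₁]; exact lt_min hc₀ one_pos
  have hc11 : c₁ ≤ c₀ := by rw [hc₁]; exact min_le_left _ _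
  have hc12 : c₁ ≤ 1 := by rw [hc₁]; exact min_le_right _ _
  refine ⟨c₁ * e / 4, by positivity, fun ψ hψ => ?_⟩
  obtain ⟨τl, hτl, Jl, hlin⟩ := lines_ev ha hR hU hh₁ i₀ (g₀ := c₁ * e / 2) (by positivity)
    (κ := ψ / 2) (by positivity)
  obtain ⟨ψ', hψ'⟩ : ∃ ψ', ψ' = min (ψ / 2) τl := ⟨_, rfl⟩
  have hψ'0 : 0 < ψ' := by rw [hψ']; exact lt_min (by positivity) hτl
  have hψ'1 : ψ' ≤ ψ / 2 := by rw [hψ']; exact min_le_left _ _
  have hψ'2 : ψ' ≤ τl := by rw [hψ']; exact min_le_right _ _
  obtain ⟨τs, hτs, Js, hs⟩ := hsat ψ' hψ'0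
  obtain ⟨τw, hτw, Jw, hwfe⟩ := wfe_ev (i₀ := i₀) ha hR hU hh₁ (η := η / 4) (by positivity) 5 1 0
  obtain ⟨τ, hτ⟩ : ∃ τ, τ = min (min τl τw) (min (τs * e / 8) (η / 32)) := ⟨_, rfl⟩
  have hτ0 : 0 < τ := by
    rw [hτ]
    exact lt_min (lt_min hτl hτw) (lt_min (by positivity) (by positivity))
  have hτ1 : τ ≤ τl := by rw [hτ]; exact (min_le_left _ _).trans (min_le_left _ _)
  have hτ2 : τ ≤ τw := by rw [hτ]; exact (min_le_left _ _).trans (min_le_right _ _)
  have hτ3 : τ ≤ τs * e / 8 := by rw [hτ]; exact (min_le_right _ _).trans (min_le_left _ _)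
  have hτ4 : τ ≤ η / 32 := by rw [hτ]; exact (min_le_right _ _).trans (min_le_right _ _)
  obtain ⟨Jx, hJx⟩ := exists_nat_gt (Js / e + 16 / (c₁ * e) + 8 * (3 * Real.log 31 + 3) / η + 1)
  refine ⟨τ, hτ0, max (max Jl Jw) Jx, ?_⟩
  intro J hJ F A hS hLb r w lam J' h g n hr hrJ heJ hz V z hzv hzc hno
  exact by
   have hJl : Jl ≤ J := (le_max_left _ _).trans ((le_max_left _ _).trans hJ)
   have hJw : Jw ≤ J := (le_max_right _ _).trans ((le_max_left _ _).trans hJ)
   have hJx' : Js / e + 16 / (c₁ * e) + 8 * (3 * Real.log 31 + 3) / η + 1 < J :=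
     hJx.trans_le (by exact_mod_cast (le_max_right _ _).trans hJ)
   have hl31 : 0 ≤ Real.log 31 := Real.log_nonneg (by norm_num)
   have t1 : 0 ≤ (Js : ℝ) / e := by positivity
   have t2 : 0 ≤ 16 / (c₁ * e) := by positivity
   have t3 : 0 ≤ 8 * (3 * Real.log 31 + 3) / η := by positivity
   have hJ0 : (0 : ℝ) < J := by linarith only [hJx', t1, t2, t3]
   have j1 : (Js : ℝ) ≤ J' := by
     have : (Js : ℝ) / e ≤ J := by linarith only [hJx', t2, t3]
     rw [div_le_iff₀ he] at this
     linarith only [heJ, this]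
   have j2 : 16 ≤ c₁ * e * J := by
     have : 16 / (c₁ * e) ≤ J := by linarith only [hJx', t1, t3]
     rw [div_le_iff₀ (by positivity)] at this
     linarith only [this]
   have j3 : 8 * (3 * Real.log 31 + 3) ≤ η * J := by
     have : 8 * (3 * Real.log 31 + 3) / η ≤ J := by linarith only [hJx', t1, t2]
     rw [div_le_iff₀ hη] at this
     linarith only [this]
   have hp := F.isLaw
   have hA0 : 0 < Pe F.p A := lt_of_lt_of_le (Real.exp_pos _) hS.2.2.2
   have hl := isLaw_cond hp hA0
   have hp0 := hl.nonneg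
   obtain ⟨p, hpe⟩ : ∃ p, p = Pool.Agent.H49.Ent.cond F.p A True := ⟨_, rfl⟩
   have hin : ∀ ω, 0 < Pool.Agent.H49.Ent.cond F.p A True ω → A ω := fun ω hω =>
     of_eq_true (((cond_pos_iff hp.nonneg A True ω).1 hω).2)
   obtain ⟨G, hG⟩ : ∃ G : Fam 3 J', G = (F.res A True hl).zm w J' h (Box.plkC lam i₀) g :=
     ⟨_, rfl⟩
   -- the labels
   exact by
    obtain ⟨ψg, hψg⟩ := hz.cl
    obtain ⟨φ₀, hφ₀⟩ := hz.vis
    obtain ⟨φ₁, hφ₁⟩ := hz.pt
    obtain ⟨φ₂, hφ₂⟩ := hzv
    have hJ'J : (J' : ℝ) ≤ J := by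
      have : J' ≤ J := by omega
      exact_mod_cast this
    have hJ'0 : (0 : ℝ) ≤ J' := Nat.cast_nonneg _
    -- closedness
    have hgw : ∀ ω ω' : F.Ω, F.l ω = F.l ω' → F.Z ω = F.Z ω' → F.T1 w ω = F.T1 w ω' →
        g ω = g ω' := by
      intro ω ω' e1 e2 e3
      rw [hψg ω, hψg ω']
      unfold slam
      rw [e1, e2, e3]
    have hzl : ∀ ω ω' : F.Ω, A ω → A ω' → F.l ω = F.l ω' → F.Z ω = F.Z ω' →
        F.T1 w ω = F.T1 w ω' → z ω = z ω' := by
      intro ω ω' hω hω' e1 e2 e3
      obtain ⟨a1, a2⟩ := zm_det F h (Box.plkC lam i₀) g e1 e2 e3 (hgw ω ω' e1 e2 e3)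
      refine hzc ω ω' hω hω' ?_
      refine Prod.ext a1 (Prod.ext a2 ?_)
      change (F.zm w J' h (Box.plkC lam i₀) g).T ω / 2 ^ (J' - 0) =
        (F.zm w J' h (Box.plkC lam i₀) g).T ω' / 2 ^ (J' - 0)
      rw [Nat.div_eq_of_lt (by
          rw [Nat.sub_zero]; exact (F.zm w J' h (Box.plkC lam i₀) g).tim ω),
        Nat.div_eq_of_lt (by
          rw [Nat.sub_zero]; exact (F.zm w J' h (Box.plkC lam i₀) g).tim ω')]
    have hwJ : w + J' ≤ J := h
    have hTm : (F.res A True hl).Tm (6 * τ * J) := by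
      have h1 := res_Tm (c := τ) hτ0.le hτ0.le hS.1 hS.2.1.1 hS.2.2.1 hS.2.2.2 hl
      have e1 : (5 * τ + τ) * (J : ℝ) = 6 * τ * J := by ring
      rwa [e1] at h1
    -- (1) saturation
    exact by
     have hsatG : (2 * Real.log 2 - η / 4) * J' ≤
         CH (Pool.Agent.H49.Ent.cond F.p A True) ((F.zm w J' h (Box.plkC lam i₀) g).X J')
           (fun ω => (z ω, (F.zm w J' h (Box.plkC lam i₀) g).W ω)) := by
       obtain ⟨q, hq⟩ : ∃ q : ℕ, q = ⌊c₁ * e * J⌋₊ := ⟨_, rfl⟩
       have hq1 : (q : ℝ) ≤ c₁ * e * J := by rw [hq]; exact Nat.floor_le (by positivity)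
       have hq2 : c₁ * e * J < q + 1 := by rw [hq]; exact Nat.lt_floor_add_one _
       have hqJ' : (q : ℝ) ≤ c₁ * J' := by
         have : c₁ * (e * J) ≤ c₁ * J' := mul_le_mul_of_nonneg_left heJ hc10.le
         linarith only [hq1, this]
       have hqJ'' : q ≤ J' := by
         have : (q : ℝ) ≤ J' := hqJ'.trans (mul_le_of_le_one_left hJ'0 hc12)
         exact_mod_cast this
       have h1 := hs J' (by exact_mod_cast j1) ((F.res A True hl).zm w J' h (Box.plkC lam i₀) g) V z
         (by
           have h2 := zm_Tm (F.res A True hl) h (Box.plkC lam i₀) g (fun ω ω' _ _ e1 => by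
             have b1 := Prod.ext_iff.1 e1
             have b2 := Prod.ext_iff.1 b1.2
             exact hgw ω ω' b1.1 b2.2 b2.1) hTm
           unfold Fam.Tm at h2 ⊢
           have h3 : 6 * τ * (J : ℝ) ≤ τs * J' := by
             have a1 : τs * (e * J) ≤ τs * J' := mul_le_mul_of_nonneg_left heJ hτs.le
             have a2 : τ * J ≤ τs * e / 8 * J := mul_le_mul_of_nonneg_right hτ3 hJ0.le
             have a3 : 0 ≤ τs * e * (J : ℝ) := by positivity
             linarith only [a1, a2, a3]
           linarith only [hl, h, h2, h3])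
         (fun ω ω' h1 h2 e1 => hzc ω ω' (hin ω h1) (hin ω' h2) e1) q
         (hqJ'.trans (mul_le_mul_of_nonneg_right hc11 hJ'0)) (by
           intro (B : F.Ω → Prop) hB hP
           -- lines
           have hPAB : Real.exp (-(ψ' * J)) * Pe F.p A ≤ Pe F.p (fun ω => A ω ∧ B ω) := by
             have hB' : Real.exp (-(ψ' * J')) ≤ Pe (Ω := F.Ω) (Pool.Agent.H49.Ent.cond F.p A True)
                 B := hB
             rw [Pe_cond, le_div_iff₀ hA0] at hB'
             refine le_trans (mul_le_mul_of_nonneg_right (Real.exp_le_exp.2 ?_) hA0.le) hB'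
             have := mul_le_mul_of_nonneg_left hJ'J hψ'0.le
             linarith only [this]
           obtain ⟨B', hB', hPB', hline⟩ := hlin J hJl F A (Fam.Stt.mono hτ1 hS) hLb r w lam J' h
             g n hrJ hz V z ⟨φ₂, hφ₂⟩ (fun ω => A ω ∧ B ω) (fun ω hω => hω.1) ψ' hψ'2 hPAB q
             (by linarith only [j2, hq2]) hqJ''
             (PlU.hered _ _ _ _ _ _ (fun ω hω => hω.2) hP)
           refine hno B' hB' (le_trans (mul_le_mul_of_nonneg_right (Real.exp_le_exp.2 ?_) hA0.le)
             hPB') (LineU.mono hline ?_)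
           · have := mul_le_mul_of_nonneg_right hψ'1 hJ0.le
             linarith only [this]
           · refine div_le_div_of_nonneg_left (by norm_num) (by positivity)
               (pow_le_pow_right₀ (by norm_num) ?_)
             refine Nat.add_le_add_left ?_ lam
             rw [Nat.le_div_iff_mul_le (by norm_num)]
             have f1 : (⌊c₁ * e / 4 * (J : ℝ)⌋₊ : ℝ) ≤ c₁ * e / 4 * J :=
               Nat.floor_le (by positivity)
             have f2 : ((⌊c₁ * e / 4 * (J : ℝ)⌋₊ * 2 : ℕ) : ℝ) ≤ q := by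
               push_cast
               linarith only [j2, hq2, f1]
             exact_mod_cast f2)
       have e1 : (((1 : ℕ) : ℝ) + 1) * Real.log 2 - η / 4 = 2 * Real.log 2 - η / 4 := by
         push_cast
         ring
       rw [e1] at h1
       exact h1
     -- (2) the fine digits of the time
     exact by
      have htime : CH (Pool.Agent.H49.Ent.cond F.p A True)
          ((F.zm w J' h (Box.plkC lam i₀) g).X J')
          (fun ω => (z ω, (F.zm w J' h (Box.plkC lam i₀) g).W ω)) ≤
          CH (Pool.Agent.H49.Ent.cond F.p A True)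
          ((F.zm w J' h (Box.plkC lam i₀) g).X J')
          (fun ω => ((F.blab w (Box.plkC lam i₀) g ω, z ω), F.W ω)) + 6 * τ * J := by
        have hall : ∀ ω ω' : F.Ω, (F.l ω, F.Z ω, F.T1 (w + J') ω) =
            (F.l ω', F.Z ω', F.T1 (w + J') ω') →
            F.l ω = F.l ω' ∧ F.Z ω = F.Z ω' ∧ F.T1 w ω = F.T1 w ω' ∧
            (F.zm w J' h (Box.plkC lam i₀) g).l ω = (F.zm w J' h (Box.plkC lam i₀) g).l ω' ∧
            F.blab w (Box.plkC lam i₀) g ω = F.blab w (Box.plkC lam i₀) g ω' ∧
            (F.zm w J' h (Box.plkC lam i₀) g).T ω = (F.zm w J' h (Box.plkC lam i₀) g).T ω' := by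
          intro ω ω' e1
          simp only [Prod.mk.injEq] at e1
          obtain ⟨e1, e2, e3⟩ := e1
          have e4 := Rows.T1_det F (show w ≤ w + J' by omega) hwJ e3
          obtain ⟨a1, a2⟩ := zm_det F h (Box.plkC lam i₀) g e1 e2 e4 (hgw ω ω' e1 e2 e4)
          refine ⟨e1, e2, e4, a1, a2, ?_⟩
          rw [zm_T, zm_T, e3]
        have h1 := Rows.time_le (F.res A True hl) (g := w + J') hwJ hTm
          ((F.zm w J' h (Box.plkC lam i₀) g).X J')
          (fun ω => (z ω, (F.zm w J' h (Box.plkC lam i₀) g).W ω))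
          (by
            intro ω ω' _ _ e1
            obtain ⟨-, -, -, a1, -, a3⟩ := hall ω ω' e1
            exact zm_X F h (Box.plkC lam i₀) g a1 a3)
          (by
            intro ω ω' h1 h2 e1
            obtain ⟨b1, b2, b3, a1, a2, a3⟩ := hall ω ω' e1
            refine Prod.ext (hzl ω ω' (hin ω h1) (hin ω' h2) b1 b2 b3) ?_
            exact Prod.ext a3 a2)
          (by
            intro (ω : F.Ω) (ω' : F.Ω) _ _ e1
            have b1 := Prod.ext_iff.1 (Prod.ext_iff.1 e1).2
            have b2 : (F.zm w J' h (Box.plkC lam i₀) g).T ω =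
              (F.zm w J' h (Box.plkC lam i₀) g).T ω' := b1.1
            have b3 : F.blab w (Box.plkC lam i₀) g ω = F.blab w (Box.plkC lam i₀) g ω' := b1.2
            have b4 : F.T1 w ω = F.T1 w ω' := (Prod.ext_iff.1 (Prod.ext_iff.1 (Prod.ext_iff.1
              b3).1).1).1
            change F.T1 (w + J') ω = F.T1 (w + J') ω'
            rw [zm_T, zm_T] at b2
            have c1 : F.T1 w ω = F.T1 (w + J') ω / 2 ^ J' := by
              rw [T1_div F hwJ ω]
            have c2 : F.T1 w ω' = F.T1 (w + J') ω' / 2 ^ J' := by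
              rw [T1_div F hwJ ω']
            rw [← Nat.div_add_mod (F.T1 (w + J') ω) (2 ^ J'),
              ← Nat.div_add_mod (F.T1 (w + J') ω') (2 ^ J'), ← c1, ← c2, b2, b4])
        refine h1.trans (add_le_add ?_ le_rfl)
        refine CH_mono_cond hp0 fun ω ω' _ _ e1 => ?_
        have b0 := Prod.ext_iff.1 e1
        have b1 := Prod.ext_iff.1 b0.2
        have b2 := Prod.ext_iff.1 b1.2
        have b3 : F.blab w (Box.plkC lam i₀) g ω = F.blab w (Box.plkC lam i₀) g ω' := b2.2
        have b4 : F.Z ω = F.Z ω' := (Prod.ext_iff.1 b3).2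
        exact Prod.ext (Prod.ext b3 b1.1) (Prod.ext b0.1 b4)
      -- (3) the chain rule
      exact by
       obtain ⟨zl, hzle⟩ : ∃ zl : F.Ω → _, zl = fun ω => (F.blab w (Box.plkC lam i₀) g ω, z ω) :=
         ⟨_, rfl⟩
       have hzW : (fun ω => ((F.blab w (Box.plkC lam i₀) g ω, z ω), F.W ω)) =
           fun ω => (zl ω, F.W ω) := by rw [hzle]
       rw [hzW] at htime ⊢
       have hch := Rows.chain_det hp0 (Pool.KS6.ptq F r) ((F.zm w J' h (Box.plkC lam i₀) g).X J')
         (fun ω => (zl ω, F.W ω)) (by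
           intro ω ω' h1 h2 e1
           have b1 := hφ₁ ω (hin ω h1)
           have b2 := hφ₁ ω' (hin ω' h2)
           rw [e1, ← b2] at b1
           exact (Prod.ext_iff.1 b1).1)
       have hXp : CH (Pool.Agent.H49.Ent.cond F.p A True) (Pool.KS6.ptq F r)
           (fun ω => (zl ω, F.W ω)) ≤
           CH (Pool.Agent.H49.Ent.cond F.p A True) (F.X r) (fun ω => (zl ω, F.W ω)) := by
         refine CH_mono_left hp0 fun ω ω' _ _ e1 => ?_
         have b1 := Prod.ext_iff.1 e1
         exact Prod.ext b1.1 (Prod.ext_iff.1 b1.2).2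
       -- (4) the chart coordinate
       have hbase : (lam : ℝ) * Real.log 2 - (η / 4 * J + (3 * Real.log 31 + 3)) ≤
           CH (Pool.Agent.H49.Ent.cond F.p A True) (Pool.KS6.ptq F r)
             (fun ω => ((F.zm w J' h (Box.plkC lam i₀) g).X J' ω, (zl ω, F.W ω))) := by
         have hpos : 0 ≤ η / 4 * (J : ℝ) := by positivity
         have hnn := CH_nonneg hp0 (Pool.KS6.ptq F r)
           (fun ω => ((F.zm w J' h (Box.plkC lam i₀) g).X J' ω, (zl ω, F.W ω)))
         rcases Nat.lt_or_ge lam 3 with hlam | hlam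
         · have h1 : (lam : ℝ) * Real.log 2 ≤ 3 * 1 :=
             mul_le_mul (by exact_mod_cast hlam.le) hl21 hl2.le (by norm_num)
           linarith only [h, hl31, j3, hnn, h1]
         obtain ⟨l, hle⟩ : ∃ l, lam = l + 3 := ⟨lam - 3, by omega⟩
         obtain ⟨w', hw'⟩ : ∃ w', w' = w + J' := ⟨_, rfl⟩
         have hw'r : w' + lam = r := by rw [hw']; exact hr
         obtain ⟨φc, hφc'⟩ := ptr_coarse F hrJ
         have hφc : ∀ ω, Pool.KS6.ptq F r ω = φc (Fam.pt F ω) := hφc'
         obtain ⟨zc, hzcd⟩ : ∃ zc : F.Ω → Fin 3 → Fin 3 → ℝ, zc = fun ω b j =>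
           if b = i₀ then 0 else (if j = b then 1 else 0) - g ω b * (if j = i₀ then 1 else 0) :=
           ⟨_, rfl⟩
         have hzsum : ∀ ω b (y : Fin 3 → ℝ), b ≠ i₀ → ∑ j, zc ω b j * y j = y b - g ω b * y i₀ := by
           intro ω b y hb
           rw [hzcd]
           simp only [if_neg hb]
           have : ∀ j, ((if j = b then (1 : ℝ) else 0) - g ω b *
               (if j = i₀ then 1 else 0)) * y j = (if j = b then y j else 0) -
               g ω b * (if j = i₀ then y j else 0) := by
             intro j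
             split_ifs <;> ring
           simp only [this]
           rw [Finset.sum_sub_distrib, ← Finset.mul_sum]
           simp
         have hzsum0 : ∀ ω (y : Fin 3 → ℝ), ∑ j, zc ω i₀ j * y j = 0 := by
           intro ω y
           rw [hzcd]
           simp
         obtain ⟨s, hs'⟩ : ∃ s : F.Ω → Set _, s = fun ω =>
           {v | ∃ ω', A ω' ∧ slam F w ω' = slam F w ω ∧ v = zl ω'} := ⟨_, rfl⟩
         have hsl : ∀ ω ω', A ω → A ω' → s ω = s ω' → zl ω = zl ω' := by
           intro ω ω' hω hω' e1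
           have h1 : zl ω ∈ s ω := by
             rw [hs']
             exact ⟨ω, hω, rfl, rfl⟩
           rw [e1, hs'] at h1
           obtain ⟨ω'', hω'', e2, e3⟩ := h1
           rw [e3]
           have b1 := Prod.ext_iff.1 e2
           have b2 := Prod.ext_iff.1 b1.2
           have c1 : F.l ω'' = F.l ω' := b1.1
           have c2 : F.Z ω'' = F.Z ω' := b2.1
           have c3 : F.T1 w ω'' = F.T1 w ω' := b2.2
           rw [hzle]
           exact Prod.ext (zm_det F h (Box.plkC lam i₀) g c1 c2 c3 (hgw _ _ c1 c2 c3)).2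
             (hzl _ _ hω'' hω' c1 c2 c3)
         have hzlv : ∀ ω ω', A ω → A ω' → Fam.pt F ω = Fam.pt F ω' → g ω = g ω' ∧ zl ω = zl ω' := by
           intro ω ω' hω hω' e1
           have e2 : Pool.KS6.ptq F r ω = Pool.KS6.ptq F r ω' := by rw [hφc, hφc, e1]
           have b1 := hφ₀ ω hω
           have b2 := hφ₀ ω' hω'
           rw [e2, ← b2] at b1
           have b3 := hφ₁ ω hω
           have b4 := hφ₁ ω' hω'
           rw [e2, ← b4] at b3
           have b5 := hφ₂ ω hω
           have b6 := hφ₂ ω' hω'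
           rw [e2, ← b6] at b5
           refine ⟨(Prod.ext_iff.1 b1).1, ?_⟩
           rw [hzle]
           exact Prod.ext (Prod.ext_iff.1 (Prod.ext_iff.1 b3).2).2 b5
         have hLOK : LOK F A i₀ w' 0 l
             (fun u j => if j = i₀ then 1 else (φ₀ (φc u)).1 j)
             (fun u j => if j = i₀ then 0 else (φ₀ (φc u)).2 j)
             (fun _ : Fin 3 => w' + l) (fun _ => l) (fun _ => l) zc s 5 1 0 := by
           refine ⟨fun _ => by omega, fun _ => by omega, fun _ => Nat.le_add_right _ _,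
             fun _ => le_rfl, ?_, ?_, ?_, ?_, ?_⟩
           · intro ω hω j
             have h1 := hφ₀ ω hω
             rw [hφc] at h1
             by_cases hj : j = i₀
             · simp only [if_pos hj]
               rw [hj]
               have : F.d ω i₀ - 1 * F.d ω i₀ - 0 = 0 := by ring
               rw [this, abs_zero]
               positivity
             · simp only [if_neg hj]
               rw [← h1]
               have h2 := (hz.fr ω hω j).2
               have e1 : F.d ω j - g ω j * F.d ω i₀ - n ω j =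
                   F.d ω j - n ω j - g ω j * F.d ω i₀ := by ring
               simp only
               rw [e1]
               refine h2.trans ?_
               rw [hle, pow_add, div_le_div_iff₀ (by positivity) (by positivity)]
               have : (0 : ℝ) < 2 ^ l := by positivity
               nlinarith only [this]
           · intro ω hω b j
             rw [hzcd]
             have h1 := (hz.fr ω hω b).1
             have h2 : |(if j = b then (1 : ℝ) else 0)| ≤ 1 := by split_ifs <;> norm_num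
             have h3 : |g ω b * (if j = i₀ then (1 : ℝ) else 0)| ≤ 4 := by
               split_ifs
               · rwa [mul_one]
               · rw [mul_zero, abs_zero]; norm_num
             simp only
             by_cases hb : b = i₀
             · rw [if_pos hb, abs_zero]
               norm_num
             · rw [if_neg hb]
               exact (abs_sub _ _).trans (by linarith only [h2, h3])
           · intro ω hω b
             have h1 := hφ₀ ω hω
             rw [hφc] at h1
             by_cases hb : b = i₀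
             · rw [hb, hzsum0, abs_zero]
               positivity
             · rw [hzsum _ _ _ hb]
               simp only [if_neg hb, if_true]
               rw [← h1, mul_one, sub_self, abs_zero]
               positivity
           · intro ω ω' _ _ hw1
             have a1 := Prod.ext_iff.1 hw1
             have a2 := Prod.ext_iff.1 a1.2
             have c1 : F.l ω = F.l ω' := a1.1
             have c2 : F.Z ω = F.Z ω' := a2.2
             have c3 : F.T1 w' ω = F.T1 w' ω' := a2.1
             have c4 := Rows.T1_det F (show w ≤ w' by omega) (by omega) c3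
             have c5 : slam F w ω = slam F w ω' := by
               unfold slam
               rw [c1, c2, c4]
             have c6 := hgw ω ω' c1 c2 c4
             rw [hzcd, hs']
             simp only
             rw [c5, c6]
           · intro B' hB' hB0
             refine le_of_eq (CH_eq_zero (isLaw_cond hp hB0).nonneg ?_)
             intro ω ω' h1 h2 e1
             have d1 : A ω := hB' ω (of_eq_true ((cond_pos_iff hp.nonneg B' True ω).1 h1).2)
             have d2 : A ω' := hB' ω' (of_eq_true ((cond_pos_iff hp.nonneg B' True ω').1 h2).2)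
             have d3 : Fam.pt F ω = Fam.pt F ω' := (Prod.ext_iff.1 e1).1
             obtain ⟨d4, d5⟩ := hzlv ω ω' d1 d2 d3
             have d6 : s ω = s ω' := by
               have d7 : ∀ ω, A ω → s ω = {zl ω} := by
                 intro ω hω
                 rw [hs']
                 ext v
                 simp only [Set.mem_setOf_eq, Set.mem_singleton_iff]
                 constructor
                 · rintro ⟨ω'', hω'', e2, e3⟩
                   rw [e3]
                   have b1 := Prod.ext_iff.1 e2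
                   have b2 := Prod.ext_iff.1 b1.2
                   have c1 : F.l ω'' = F.l ω := b1.1
                   have c2 : F.Z ω'' = F.Z ω := b2.1
                   have c3 : F.T1 w ω'' = F.T1 w ω := b2.2
                   rw [hzle]
                   exact Prod.ext (zm_det F h (Box.plkC lam i₀) g c1 c2 c3 (hgw _ _ c1 c2 c3)).2
                     (hzl _ _ hω'' hω c1 c2 c3)
                 · rintro rfl
                   exact ⟨ω, hω, rfl, rfl⟩
               rw [d7 ω d1, d7 ω' d2, d5]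
             have d8 : zc ω = zc ω' := by
               rw [hzcd]
               simp only
               rw [d4]
             exact Prod.ext d8 d6
         have hw1 := hwfe J hJw F A (Fam.Stt.mono hτ2 hS) hLb w' l _ _ _ _ _ _ zc s hLOK r
           (by omega) hrJ
         obtain ⟨cx, hcx⟩ : ∃ cx : F.Ω → _, cx = fun ω => ((⌊(2 : ℝ) ^ (0 + w') * F.x ω i₀⌋,
           labt F w' (fun _ : Fin 3 => w' + l) (fun _ => l) zc s ω),
           (⌊(2 : ℝ) ^ 0 * F.d ω i₀⌋, F.T ω)) := ⟨_, rfl⟩
         rw [← hcx] at hw1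
         -- two samples in the same context
         have two : ∀ ω ω', A ω → A ω' → cx ω = cx ω' → F.T ω = F.T ω' ∧ F.Z ω = F.Z ω' ∧
             g ω = g ω' ∧ zl ω = zl ω' ∧ |F.x ω i₀ - F.x ω' i₀| ≤ 1 / 2 ^ w' ∧
             (∀ j, j ≠ i₀ → |(F.x ω j - F.x ω' j) - g ω j * (F.x ω i₀ - F.x ω' i₀)| ≤
               1 / 2 ^ (w' + l)) := by
           intro ω ω' hω hω' e1
           rw [hcx] at e1
           have a0 := Prod.ext_iff.1 e1
           have a1 := Prod.ext_iff.1 a0.1
           have a2 := Prod.ext_iff.1 a0.2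
           have b0 := Prod.ext_iff.1 a1.2
           have b1 := Prod.ext_iff.1 b0.1
           have b2 := Prod.ext_iff.1 (Prod.ext_iff.1 b1.1).2
           have b3 := Prod.ext_iff.1 b1.2
           have hzz : zc ω = zc ω' := b2.1
           have hss : s ω = s ω' := b2.2
           have hzll := hsl ω ω' hω hω' hss
           have hgg : g ω = g ω' := by
             rw [hzle] at hzll
             exact (Prod.ext_iff.1 (Prod.ext_iff.1 (Prod.ext_iff.1 (Prod.ext_iff.1
               hzll).1).1).1).2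
           refine ⟨a2.2, b0.2, hgg, hzll, ?_, ?_⟩
           · have h1 := Bct.rd_eq a1.1
             rwa [Nat.zero_add] at h1
           · intro j hj
             have h1 : ⌊(2 : ℝ) ^ (w' + l) * ∑ k, zc ω j k * F.x ω k⌋ =
                 ⌊(2 : ℝ) ^ (w' + l) * ∑ k, zc ω' j k * F.x ω' k⌋ := congrFun b3.1 j
             have h2 := Bct.rd_eq h1
             rw [hzsum _ _ _ hj, hzsum _ _ _ hj, ← hgg] at h2
             have e2 : (F.x ω j - F.x ω' j) - g ω j * (F.x ω i₀ - F.x ω' i₀) =
                 F.x ω j - g ω j * F.x ω i₀ - (F.x ω' j - g ω j * F.x ω' i₀) := by ring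
             rw [e2]
             exact h2
         -- the position in the zoom
         have hGX : CH (Pool.Agent.H49.Ent.cond F.p A True)
             ((F.zm w J' h (Box.plkC lam i₀) g).X J') cx ≤ 3 * Real.log 31 := by
           have h2 := CH_le_vec hp0 hl.sum_one ((F.zm w J' h (Box.plkC lam i₀) g).X J') cx
             (fun _ => 15) (by
             intro ω ω' h1 h2 e1 i
             obtain ⟨c1, c2, c3, c4, c5, c6⟩ := two ω ω' (hin ω h1) (hin ω' h2) e1
             have x1 := zm_x F h (Box.plkC lam i₀) g ω i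
             have x2 := zm_x F h (Box.plkC lam i₀) g ω' i
             rw [hzle] at c4
             have d1 : F.blab w (Box.plkC lam i₀) g ω = F.blab w (Box.plkC lam i₀) g ω' :=
               (Prod.ext_iff.1 c4).1
             have d2 := Prod.ext_iff.1 (Prod.ext_iff.1 (Prod.ext_iff.1 d1).1).2
             have d3 : F.bcl w (Box.plkC lam i₀) g ω = F.bcl w (Box.plkC lam i₀) g ω' := d2.1
             have d4 : F.bvl (Box.plkC lam i₀) g ω = F.bvl (Box.plkC lam i₀) g ω' := d2.2
             have d5 : (F.box w (Box.plkC lam i₀) g).t ω = (F.box w (Box.plkC lam i₀) g).t ω' := by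
               change ((F.T ω % 2 ^ (J - w) : ℕ) : ℝ) / 2 ^ (J - w) =
                 ((F.T ω' % 2 ^ (J - w) : ℕ) : ℝ) / 2 ^ (J - w)
               rw [c1]
             rw [← d3, ← d4, ← d5, ← c3] at x2
             obtain ⟨Y, hY⟩ : ∃ Y, Y = (F.zm w J' h (Box.plkC lam i₀) g).x ω i := ⟨_, rfl⟩
             obtain ⟨Y', hY'⟩ : ∃ Y', Y' = (F.zm w J' h (Box.plkC lam i₀) g).x ω' i := ⟨_, rfl⟩
             rw [← hY] at x1
             rw [← hY'] at x2
             have p0 : (0 : ℝ) < 2 ^ J' := by positivity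
             have x3 : |2 ^ w * (Box.plkC lam i₀).L (g ω) (F.x ω) i -
                 2 ^ w * (Box.plkC lam i₀).L (g ω) (F.x ω') i| ≤ 8 / 2 ^ J' := by
               change |2 ^ w * pco lam i₀ (g ω) (F.x ω) i - 2 ^ w * pco lam i₀ (g ω) (F.x ω') i| ≤ _
               by_cases hi : i = i₀
               · have y1 : pco lam i₀ (g ω) (F.x ω) i = F.x ω i₀ := by unfold pco; rw [if_pos hi]
                 have y2 : pco lam i₀ (g ω) (F.x ω') i = F.x ω' i₀ := by unfold pco; rw [if_pos hi]
                 rw [y1, y2, ← mul_sub, abs_mul, abs_of_pos (by positivity : (0 : ℝ) < 2 ^ w)]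
                 have y3 : (2 : ℝ) ^ w * |F.x ω i₀ - F.x ω' i₀| ≤ 2 ^ w * (1 / 2 ^ w') :=
                   mul_le_mul_of_nonneg_left c5 (by positivity)
                 refine y3.trans ?_
                 rw [hw', pow_add]
                 have y4 : (2 : ℝ) ^ w * (1 / (2 ^ w * 2 ^ J')) = 1 / 2 ^ J' := by field_simp
                 rw [y4]
                 exact div_le_div_of_nonneg_right (by norm_num) p0.le
               · have y1 : pco lam i₀ (g ω) (F.x ω) i = 2 ^ lam * (F.x ω i - g ω i * F.x ω i₀) := by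
                   unfold pco; rw [if_neg hi]
                 have y2 : pco lam i₀ (g ω) (F.x ω') i =
                     2 ^ lam * (F.x ω' i - g ω i * F.x ω' i₀) := by unfold pco; rw [if_neg hi]
                 rw [y1, y2]
                 have y3 : (2 : ℝ) ^ w * (2 ^ lam * (F.x ω i - g ω i * F.x ω i₀)) -
                     2 ^ w * (2 ^ lam * (F.x ω' i - g ω i * F.x ω' i₀)) =
                     2 ^ w * 2 ^ lam * ((F.x ω i - F.x ω' i) - g ω i * (F.x ω i₀ - F.x ω' i₀)) := by
                   ring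
                 rw [y3, abs_mul, abs_of_pos (by positivity : (0 : ℝ) < 2 ^ w * 2 ^ lam)]
                 have y4 := mul_le_mul_of_nonneg_left (c6 i hi)
                   (by positivity : (0 : ℝ) ≤ 2 ^ w * 2 ^ lam)
                 refine y4.trans (le_of_eq ?_)
                 rw [hw', hle, pow_add, pow_add, pow_add]
                 field_simp
                 norm_num
             have x4 : |Y - Y'| ≤ 14 / 2 ^ J' := by
               have e5 : (14 : ℝ) / 2 ^ J' = 3 / 2 ^ J' + 3 / 2 ^ J' + 8 / 2 ^ J' := by ring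
               rw [e5]
               rw [abs_le] at x1 x2 x3 ⊢
               constructor <;> linarith only [x1, x2, x3, x1.1, x1.2, x2.1, x2.2, x3.1, x3.2]
             have x5 : |2 ^ J' * Y - 2 ^ J' * Y'| ≤ 14 := by
               rw [← mul_sub, abs_mul, abs_of_pos p0]
               rw [le_div_iff₀ p0] at x4
               linarith only [x4]
             have x6 := Pool.S6K.Wfe.floor_diff x5
             change |((⌊2 ^ J' * (F.zm w J' h (Box.plkC lam i₀) g).x ω i⌋ -
               ⌊2 ^ J' * (F.zm w J' h (Box.plkC lam i₀) g).x ω' i⌋ : ℤ) : ℝ)| ≤ 15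
             rw [← hY, ← hY']
             linarith only [x6])
           rw [Ex_const hl.sum_one] at h2
           norm_num at h2
           exact h2
         -- the label
         have hzl0 : CH (Pool.Agent.H49.Ent.cond F.p A True) zl
             (fun ω => ((F.zm w J' h (Box.plkC lam i₀) g).X J' ω, cx ω)) = 0 :=
           CH_eq_zero hp0 fun ω ω' h1 h2 e1 =>
             (two ω ω' (hin ω h1) (hin ω' h2) (Prod.ext_iff.1 e1).2).2.2.2.1
         have h3 := CH_le_add hp0 (fun ω => ⌊(2 : ℝ) ^ r * F.x ω i₀⌋)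
           (fun ω => (zl ω, (F.zm w J' h (Box.plkC lam i₀) g).X J' ω)) cx
         have h4 := CH_chain hp0 zl ((F.zm w J' h (Box.plkC lam i₀) g).X J') cx
         have h5 : CH (Pool.Agent.H49.Ent.cond F.p A True) (fun ω => ⌊(2 : ℝ) ^ r * F.x ω i₀⌋)
             (fun ω => ((zl ω, (F.zm w J' h (Box.plkC lam i₀) g).X J' ω), cx ω)) ≤
             CH (Pool.Agent.H49.Ent.cond F.p A True) (fun ω => ⌊(2 : ℝ) ^ r * F.x ω i₀⌋)
             (fun ω => ((F.zm w J' h (Box.plkC lam i₀) g).X J' ω, (zl ω, F.W ω))) := by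
           refine CH_mono_cond hp0 fun ω ω' h1 h2 e1 => ?_
           have b1 := Prod.ext_iff.1 e1
           have b2 := Prod.ext_iff.1 b1.1
           obtain ⟨c1, c2, -, -, -, -⟩ := two ω ω' (hin ω h1) (hin ω' h2) b1.2
           exact Prod.ext b2.2 (Prod.ext b2.1 (Prod.ext c1 c2))
         have h6 : CH (Pool.Agent.H49.Ent.cond F.p A True) (fun ω => ⌊(2 : ℝ) ^ r * F.x ω i₀⌋)
             (fun ω => ((F.zm w J' h (Box.plkC lam i₀) g).X J' ω, (zl ω, F.W ω))) ≤
             CH (Pool.Agent.H49.Ent.cond F.p A True) (Pool.KS6.ptq F r)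
             (fun ω => ((F.zm w J' h (Box.plkC lam i₀) g).X J' ω, (zl ω, F.W ω))) := by
           refine CH_mono_left hp0 fun ω ω' _ _ e1 => ?_
           have b1 : Pool.KS6.ptq F r ω = Pool.KS6.ptq F r ω' := (Prod.ext_iff.1 e1).1
           exact congrFun (Prod.ext_iff.1 b1).1 i₀
         have h7 : ((r : ℝ) - (0 + w' : ℕ)) = lam := by
           rw [← hw'r]
           push_cast
           ring
         rw [h7] at hw1
         linarith only [h, hw1, hGX, hzl0, h3, h4, h5, h6]
       exact by
        have hq1 : (2 * Real.log 2 - η / 4) * J' = 2 * J' * Real.log 2 - η / 4 * J' := by ring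
        have hq2 : η / 4 * (J' : ℝ) ≤ η / 4 * J := mul_le_mul_of_nonneg_left hJ'J (by positivity)
        have hq3 : 6 * τ * (J : ℝ) ≤ 6 * (η / 32) * J :=
          mul_le_mul_of_nonneg_right (by linarith only [hτ4]) hJ0.le
        have hq4 : (2 * (J' : ℝ) + lam) * Real.log 2 = 2 * J' * Real.log 2 + lam * Real.log 2 := by
          ring
        rw [hq4]
        linarith only [h, hl31, j3, hsatG, htime, hch, hXp, hbase, hq2, hq3]

end Pool.S6C.Ful
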